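import Pool.Agent.Lib.MP_4e5fcd_ag.Basic

open MvPolynomial

namespace MotMono

theorem ordAt_le {N n : ℕ} (W : Submodule ℂ (Fin N → ℂ)) (γ : Fin N × Fin n → ℂ) :
    ordAt W γ ≤ n :=
  Nat.sInf_le (fun h => absurd h (lt_irrefl n))

theorem ordAt_eq_iff {N n : ℕ} (W : Submodule ℂ (Fin N → ℂ)) (γ : Fin N × Fin n → ℂ) {a : ℕ}
    (ha : a ≤ n) : ordAt W γ = a ↔
      (∀ (l : ℕ) (h : l < n), l < a → lev γ ⟨l, h⟩ ∈ W) ∧ ∀ h : a < n, lev γ ⟨a, h⟩ ∉ W := by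
  have hne : {l | ∀ h : l < n, lev γ ⟨l, h⟩ ∉ W}.Nonempty := ⟨n, fun h => absurd h (lt_irrefl n)⟩
  constructor
  · rintro rfl
    refine ⟨fun l h hl => ?_, Nat.sInf_mem hne⟩
    by_contra hc
    exact Nat.notMem_of_lt_sInf (s := {l | ∀ h : l < n, lev γ ⟨l, h⟩ ∉ W}) hl (fun _ => hc)
  · rintro ⟨h1, h2⟩
    refine le_antisymm (Nat.sInf_le h2) ?_
    by_contra hc
    push Not at hc
    have hm := Nat.sInf_mem hne
    have hlt : sInf {l | ∀ h : l < n, lev γ ⟨l, h⟩ ∉ W} < a := hc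
    exact hm (lt_of_lt_of_le hlt ha) (h1 _ (lt_of_lt_of_le hlt ha) hlt)

theorem mem_linIdeal_linForm {N : ℕ} {W : Submodule ℂ (Fin N → ℂ)} {a : Fin N → ℂ}
    (ha : ∀ w ∈ W, a ⬝ᵥ w = 0) : linForm a ∈ linIdeal W :=
  Ideal.subset_span ⟨a, rfl, ha⟩

theorem a1_arc_coeff {N n : ℕ} (γ : Fin N × Fin n → ℂ) (i : Fin N) (l : ℕ) :
    (arc γ i).coeff l = if h : l < n then γ (i, ⟨l, h⟩) else 0 := by
  rw [arc, Polynomial.finsetSum_coeff]
  simp only [Polynomial.coeff_C_mul, Polynomial.coeff_X_pow]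
  split_ifs with h
  · rw [Finset.sum_eq_single ⟨l, h⟩]
    · simp
    · intro b _ hb
      rw [if_neg, mul_zero]
      intro hc
      exact hb (Fin.ext hc.symm)
    · intro hc
      exact absurd (Finset.mem_univ _) hc
  · refine Finset.sum_eq_zero (fun b _ => ?_)
    rw [if_neg, mul_zero]
    intro hc
    exact h (hc ▸ b.2)

theorem along_linForm_coeff {N n : ℕ} (a : Fin N → ℂ) (γ : Fin N × Fin n → ℂ) (l : ℕ) :
    (along (linForm a) γ).coeff l = if h : l < n then a ⬝ᵥ lev γ ⟨l, h⟩ else 0 := by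
  rw [along, linForm, map_sum, Polynomial.finsetSum_coeff]
  have : ∀ i : Fin N, (aeval (arc γ) (C (a i) * X i : MvPolynomial (Fin N) ℂ)).coeff l =
      a i * (if h : l < n then γ (i, ⟨l, h⟩) else 0) := by
    intro i
    rw [map_mul, aeval_X, aeval_C, Polynomial.algebraMap_eq, Polynomial.coeff_C_mul, a1_arc_coeff]
  rw [Finset.sum_congr rfl (fun i _ => this i)]
  split_ifs with h
  · rfl
  · simp

/-- a vector which is not in a subspace is detected by a linear form -/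
theorem exists_form {N : ℕ} (W : Submodule ℂ (Fin N → ℂ)) (v : Fin N → ℂ) (hv : v ∉ W) :
    ∃ a : Fin N → ℂ, (∀ w ∈ W, a ⬝ᵥ w = 0) ∧ a ⬝ᵥ v = 1 := by
  obtain ⟨f, hf1, hf2⟩ := Submodule.exists_le_ker_of_notMem hv
  have key : ∀ w : Fin N → ℂ, (fun i => (f v)⁻¹ * f (Pi.single i 1)) ⬝ᵥ w = (f v)⁻¹ * f w := by
    intro w
    rw [LinearMap.pi_apply_eq_sum_univ f w, dotProduct, Finset.mul_sum]
    refine Finset.sum_congr rfl (fun i _ => ?_)
    have : (fun j => if i = j then (1 : ℂ) else 0) = Pi.single i 1 := by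
      ext j
      by_cases h : i = j
      · subst h; simp
      · rw [if_neg h, Pi.single_eq_of_ne (Ne.symm h)]
    rw [this, smul_eq_mul]
    ring
  refine ⟨fun i => (f v)⁻¹ * f (Pi.single i 1), fun w hw => ?_, ?_⟩
  · rw [key, LinearMap.mem_ker.1 (hf2 hw), mul_zero]
  · rw [key, inv_mul_cancel₀ hf1]

theorem mem_of_forms {N : ℕ} (W : Submodule ℂ (Fin N → ℂ)) (v : Fin N → ℂ)
    (h : ∀ a : Fin N → ℂ, (∀ w ∈ W, a ⬝ᵥ w = 0) → a ⬝ᵥ v = 0) : v ∈ W := by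
  by_contra hc
  obtain ⟨a, ha, ha1⟩ := exists_form W v hc
  rw [h a ha] at ha1
  exact zero_ne_one ha1

end MotMono
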