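import Pool.Agent.Lib.MP_4e5fcd_ag.A1

open MvPolynomial

namespace MotMono

theorem a2_dvd_linForm {N n : ℕ} (W : Submodule ℂ (Fin N → ℂ)) (γ : Fin N × Fin n → ℂ)
    (a : Fin N → ℂ) (ha : ∀ w ∈ W, a ⬝ᵥ w = 0) :
    Polynomial.X ^ ordAt W γ ∣ along (linForm a) γ := by
  rw [Polynomial.X_pow_dvd_iff]
  intro l hl
  rw [along_linForm_coeff]
  have h := ((ordAt_eq_iff W γ (ordAt_le W γ)).1 rfl).1
  have hln : l < n := lt_of_lt_of_le hl (ordAt_le W γ)
  rw [dif_pos hln]
  exact ha _ (h l hln hl)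

theorem a2_dvd_linIdeal {N n : ℕ} (W : Submodule ℂ (Fin N → ℂ)) (γ : Fin N × Fin n → ℂ)
    (f : MvPolynomial (Fin N) ℂ) (hf : f ∈ linIdeal W) :
    Polynomial.X ^ ordAt W γ ∣ along f γ := by
  have : linIdeal W ≤ Ideal.comap (aeval (arc γ) : MvPolynomial (Fin N) ℂ →ₐ[ℂ] Polynomial ℂ)
      (Ideal.span {Polynomial.X ^ ordAt W γ}) := by
    rw [linIdeal, Ideal.span_le]
    rintro _ ⟨a, rfl, ha⟩
    rw [SetLike.mem_coe, Ideal.mem_comap, Ideal.mem_span_singleton]
    exact a2_dvd_linForm W γ a ha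
  have h := this hf
  rw [Ideal.mem_comap, Ideal.mem_span_singleton] at h
  exact h

theorem a2_along_mul {N n : ℕ} (γ : Fin N × Fin n → ℂ) (f g : MvPolynomial (Fin N) ℂ) :
    along (f * g) γ = along f γ * along g γ := map_mul _ _ _

theorem a2_along_add {N n : ℕ} (γ : Fin N × Fin n → ℂ) (f g : MvPolynomial (Fin N) ℂ) :
    along (f + g) γ = along f γ + along g γ := map_add _ _ _

theorem a2_along_prod {N n : ℕ} {J : Type} (s : Finset J) (γ : Fin N × Fin n → ℂ)
    (f : J → MvPolynomial (Fin N) ℂ) :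
    along (∏ j ∈ s, f j) γ = ∏ j ∈ s, along (f j) γ := map_prod _ _ _

theorem a2_dvd_prod {N n : ℕ} {J : Type} (s : Finset J) (W : J → Submodule ℂ (Fin N → ℂ))
    (γ : Fin N × Fin n → ℂ) : ∀ f ∈ ∏ j ∈ s, linIdeal (W j),
    Polynomial.X ^ (∑ j ∈ s, ordAt (W j) γ) ∣ along f γ := by
  classical
  induction s using Finset.induction_on with
  | empty => intro f _; simp
  | insert j s hj ih =>
    intro f hf
    rw [Finset.prod_insert hj] at hf
    rw [Finset.sum_insert hj, pow_add]
    refine Submodule.mul_induction_on hf (fun x hx y hy => ?_) (fun x y hx hy => ?_)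
    · rw [a2_along_mul]
      exact mul_dvd_mul (a2_dvd_linIdeal (W j) γ x hx) (ih y hy)
    · rw [a2_along_add]
      exact dvd_add hx hy

/-- A2: `I` vanishes along `γ` at least to order `∑ ordAt`. -/
theorem along_coeff_lt {N n : ℕ} {J : Type} [Fintype J] (W : J → Submodule ℂ (Fin N → ℂ))
    (γ : Fin N × Fin n → ℂ) (f : MvPolynomial (Fin N) ℂ) (hf : f ∈ ∏ j, linIdeal (W j)) (l : ℕ)
    (hl : l < ∑ j, ordAt (W j) γ) : (along f γ).coeff l = 0 :=
  Polynomial.X_pow_dvd_iff.1 (a2_dvd_prod Finset.univ W γ f hf) l hl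

theorem a2_coeff_prod {J : Type} (s : Finset J) (g : J → Polynomial ℂ) (o : J → ℕ)
    (h : ∀ j ∈ s, Polynomial.X ^ o j ∣ g j) :
    (∏ j ∈ s, g j).coeff (∑ j ∈ s, o j) = ∏ j ∈ s, (g j).coeff (o j) := by
  classical
  induction s using Finset.induction_on with
  | empty => simp
  | insert j s hj ih =>
    rw [Finset.prod_insert hj, Finset.sum_insert hj, Finset.prod_insert hj,
      ← ih (fun i hi => h i (Finset.mem_insert_of_mem hi))]
    obtain ⟨u, hu⟩ := h j (Finset.mem_insert_self j s)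
    have hd : Polynomial.X ^ (∑ j ∈ s, o j) ∣ ∏ j ∈ s, g j := by
      rw [← Finset.prod_pow_eq_pow_sum]
      exact Finset.prod_dvd_prod_of_dvd _ _ (fun i hi => h i (Finset.mem_insert_of_mem hi))
    obtain ⟨v, hv⟩ := hd
    rw [hu, hv]
    have e : Polynomial.X ^ o j * u * (Polynomial.X ^ (∑ j ∈ s, o j) * v) =
        Polynomial.X ^ (o j + ∑ j ∈ s, o j) * (u * v) := by
      rw [pow_add]; ring
    rw [e]
    have c1 := Polynomial.coeff_X_pow_mul (u * v) (o j + ∑ j ∈ s, o j) 0
    have c2 := Polynomial.coeff_X_pow_mul u (o j) 0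
    have c3 := Polynomial.coeff_X_pow_mul v (∑ j ∈ s, o j) 0
    rw [zero_add] at c1 c2 c3
    rw [c1, c2, c3, Polynomial.mul_coeff_zero]

/-- A3: the leading coefficient of a product of linear forms. -/
theorem along_prod_coeff {N n : ℕ} {J : Type} [Fintype J] (W : J → Submodule ℂ (Fin N → ℂ))
    (γ : Fin N × Fin n → ℂ) (a : J → Fin N → ℂ) (ha : ∀ j, ∀ w ∈ W j, a j ⬝ᵥ w = 0)
    (hn : ∀ j, ordAt (W j) γ < n) :
    (along (∏ j, linForm (a j)) γ).coeff (∑ j, ordAt (W j) γ) =
      ∏ j, a j ⬝ᵥ lev γ ⟨ordAt (W j) γ, hn j⟩ := by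
  rw [a2_along_prod, a2_coeff_prod _ _ _ (fun j _ => a2_dvd_linForm (W j) γ (a j) (ha j))]
  refine Finset.prod_congr rfl (fun j _ => ?_)
  rw [along_linForm_coeff, dif_pos (hn j)]

theorem a2_induction {N : ℕ} {J : Type} [DecidableEq J] (W : J → Submodule ℂ (Fin N → ℂ))
    (s : Finset J) : ∀ Q : Ideal (MvPolynomial (Fin N) ℂ),
    (∀ a : J → Fin N → ℂ, (∀ j, ∀ w ∈ W j, a j ⬝ᵥ w = 0) → ∏ j ∈ s, linForm (a j) ∈ Q) →
    ∏ j ∈ s, linIdeal (W j) ≤ Q := by
  induction s using Finset.induction_on with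
  | empty =>
    intro Q h
    have := h (fun _ => 0) (by simp)
    rw [Finset.prod_empty] at this
    rw [Ideal.eq_top_of_isUnit_mem Q this isUnit_one]
    exact le_top
  | insert j0 s hj ih =>
    intro Q h
    rw [Finset.prod_insert hj, Ideal.mul_le]
    intro f hf g hg
    rw [linIdeal] at hf
    refine Submodule.span_induction (p := fun f _ => f * g ∈ Q) ?_ ?_ ?_ ?_ hf
    · rintro _ ⟨a0, rfl, ha0⟩
      -- Q' = {g | l * g ∈ Q}
      have h2 : ∏ j ∈ s, linIdeal (W j) ≤
          Submodule.comap (LinearMap.mulLeft (MvPolynomial (Fin N) ℂ) (linForm a0)) Q := by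
        refine ih _ (fun a ha => ?_)
        rw [Submodule.mem_comap, LinearMap.mulLeft_apply]
        have h3 := h (Function.update a j0 a0) (fun j w hw => by
          by_cases hjj : j = j0
          · subst hjj
            rw [Function.update_self]
            exact ha0 w hw
          · rw [Function.update_of_ne hjj]
            exact ha j w hw)
        rw [Finset.prod_insert hj, Function.update_self] at h3
        have h4 : ∏ j ∈ s, linForm (Function.update a j0 a0 j) = ∏ j ∈ s, linForm (a j) := by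
          refine Finset.prod_congr rfl (fun j hjs => ?_)
          rw [Function.update_of_ne]
          rintro rfl
          exact hj hjs
        rw [h4] at h3
        exact h3
      exact h2 hg
    · rw [zero_mul]; exact Q.zero_mem
    · intro x y _ _ hx hy
      rw [add_mul]; exact Q.add_mem hx hy
    · intro c x _ hx
      rw [smul_eq_mul, mul_assoc]
      exact Q.mul_mem_left c hx

/-- A4: induction over the ideal: an ideal-type property which holds for all products of linear
forms holds on `I`. -/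
theorem prod_linIdeal_induction {N : ℕ} {J : Type} [Fintype J] (W : J → Submodule ℂ (Fin N → ℂ))
    (Q : Ideal (MvPolynomial (Fin N) ℂ))
    (h : ∀ a : J → Fin N → ℂ, (∀ j, ∀ w ∈ W j, a j ⬝ᵥ w = 0) → ∏ j, linForm (a j) ∈ Q) :
    ∏ j, linIdeal (W j) ≤ Q := by
  classical
  exact a2_induction W Finset.univ Q h

/-- A5: multiplicities are repetitions. -/
theorem prod_sigma_linIdeal {N s : ℕ} (W : Fin s → Submodule ℂ (Fin N → ℂ)) (m : Fin s → ℕ) :
    ∏ j, linIdeal (W j) ^ m j = ∏ κ : (Σ j : Fin s, Fin (m j)), linIdeal (W κ.1) := by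
  rw [Fintype.prod_sigma]
  refine Finset.prod_congr rfl (fun j _ => ?_)
  simp

end MotMono
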