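import Pool.Agent.Lib.MP_4e5fcd_ag.Defs

/-!
# Auxiliary definitions for the proof
-/

open MvPolynomial

namespace MotMono

/-- the linear form with coefficient vector `a` -/
noncomputable def linForm {N : ℕ} (a : Fin N → ℂ) : MvPolynomial (Fin N) ℂ := ∑ i, C (a i) * X i

/-- the `l`-th coefficient vector of a jet -/
def lev {N n : ℕ} (γ : Fin N × Fin n → ℂ) (l : Fin n) : Fin N → ℂ := fun i => γ (i, l)

/-- the order of contact of a jet with a linear subspace: the number of the first level which is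
not in `W` (`n` if there is none) -/
noncomputable def ordAt {N n : ℕ} (W : Submodule ℂ (Fin N → ℂ)) (γ : Fin N × Fin n → ℂ) : ℕ :=
  sInf {l | ∀ h : l < n, lev γ ⟨l, h⟩ ∉ W}

variable {N : ℕ} {J : Type} [Fintype J] [DecidableEq J]

/-- the intersection of the subspaces with index in `S` -/
def VS (W : J → Submodule ℂ (Fin N → ℂ)) (S : Finset J) : Submodule ℂ (Fin N → ℂ) :=
  ⨅ j ∈ S, W j

/-- `S` contains all subspaces which contain the intersection -/
def IsClosedSet (W : J → Submodule ℂ (Fin N → ℂ)) (S : Finset J) : Prop :=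
  ∀ j, VS W S ≤ W j → j ∈ S

/-- indecomposable index sets -/
def Indec (W : J → Submodule ℂ (Fin N → ℂ)) (S : Finset J) : Prop :=
  S.Nonempty ∧ ∀ A B : Finset J, A.Nonempty → B.Nonempty → Disjoint A B → A ∪ B = S →
    VS W A ⊔ VS W B ≠ ⊤

/-- vectors in the subspaces of `S'` and not in those of `S \ S'` -/
def GS (W : J → Submodule ℂ (Fin N → ℂ)) (S S' : Finset J) : Set (Fin N → ℂ) :=
  {v | (∀ j ∈ S', v ∈ W j) ∧ ∀ j ∈ S, j ∉ S' → v ∉ W j}

/-- jets with total order of contact `k` -/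
def Eset (W : J → Submodule ℂ (Fin N → ℂ)) (S : Finset J) (n k : ℕ) :
    Set (Fin N × Fin n → ℂ) :=
  {γ | ∑ j ∈ S, ordAt (W j) γ = k}

/-- normalised class of `GS` -/
noncomputable def gh (W : J → Submodule ℂ (Fin N → ℂ)) (S S' : Finset J) : MC :=
  algebraMap K0 MC (cls (GS W S S')) * ((Lu ^ (-(N : ℤ)) : MCˣ) : MC)

/-- the motivic zeta function over all arcs -/
noncomputable def Phi (W : J → Submodule ℂ (Fin N → ℂ)) (S : Finset J) : PowerSeries MC :=
  PowerSeries.mk fun k =>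
    algebraMap K0 MC (cls (Eset W S (k + 1) k)) * ((Lu ^ (-(N * (k + 1) : ℤ)) : MCˣ) : MC)

/-- the polynomial `f (p + t x)` -/
noncomputable def curve (p x : Fin N → ℂ) (f : MvPolynomial (Fin N) ℂ) : Polynomial ℂ :=
  aeval (fun i => Polynomial.C (p i) + Polynomial.C (x i) * Polynomial.X) f

/-- the subspace of all `v` with `v - (lam · v) x ∈ W` -/
noncomputable def Tw (W : Submodule ℂ (Fin N → ℂ)) (x lam : Fin N → ℂ) :
    Submodule ℂ (Fin N → ℂ) where
  carrier := {v | v - (lam ⬝ᵥ v) • x ∈ W}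
  zero_mem' := by simp
  add_mem' := by
    intro a b ha hb
    have : a + b - (lam ⬝ᵥ (a + b)) • x = (a - (lam ⬝ᵥ a) • x) + (b - (lam ⬝ᵥ b) • x) := by
      rw [dotProduct_add]; module
    simp only [Set.mem_ofPred_eq] at *
    rw [this]
    exact W.add_mem ha hb
  smul_mem' := by
    intro c a ha
    have : c • a - (lam ⬝ᵥ (c • a)) • x = c • (a - (lam ⬝ᵥ a) • x) := by
      rw [dotProduct_smul]; simp only [smul_eq_mul]; module
    simp only [Set.mem_ofPred_eq] at *
    rw [this]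
    exact W.smul_mem c ha

/-- the linear conditions on the level `l ≥ 1` of a jet with orders of contact `a` -/
noncomputable def Dl (W : J → Submodule ℂ (Fin N → ℂ)) (S : Finset J) (x : Fin N → ℂ)
    (lam : J → Fin N → ℂ) (a : J → ℕ) (l : ℕ) : Submodule ℂ (Fin N → ℂ) :=
  (⨅ j ∈ S.filter fun j => l < a j, W j) ⊓ ⨅ j ∈ S.filter fun j => a j = l, Tw (W j) x (lam j)

/-- the part of the set of contact jets with orders of contact `a` -/
def Xa (W : J → Submodule ℂ (Fin N → ℂ)) (S : Finset J) (p x : Fin N → ℂ)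
    (lam : J → Fin N → ℂ) (d : ℕ) (a : J → Fin (d + 1)) : Set (Fin N × Fin (d + 1) → ℂ) :=
  {γ | lev γ 0 = p ∧ (∀ l : Fin (d + 1), l ≠ 0 →
      lev γ l ∈ Dl W S x lam (fun j => (a j : ℕ)) l) ∧
    ∏ j ∈ S, lam j ⬝ᵥ lev γ (a j) = 1}

open Classical in
/-- admissible orders of contact -/
noncomputable def Adm (S : Finset J) (d : ℕ) : Finset (J → Fin (d + 1)) :=
  Finset.univ.filter fun a => (∀ j, j ∉ S → a j = 0) ∧ (∀ j ∈ S, a j ≠ 0) ∧
    ∑ j ∈ S, (a j : ℕ) = d

/-- affine part of the complement of the hyperplanes -/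
def Bset (U : Submodule ℂ (Fin N → ℂ)) (lam : J → Fin N → ℂ) (T : Finset J) (j₁ : J) :
    Set (Fin N → ℂ) :=
  {v | v ∈ U ∧ lam j₁ ⬝ᵥ v = 1 ∧ ∀ j ∈ T, lam j ⬝ᵥ v ≠ 0}

/-- the subspace `⋂ (ℂ x + W_j)` -/
noncomputable def Us (W : J → Submodule ℂ (Fin N → ℂ)) (S : Finset J) (x : Fin N → ℂ)
    (lam : J → Fin N → ℂ) : Submodule ℂ (Fin N → ℂ) :=
  ⨅ j ∈ S, Tw (W j) x (lam j)

/-- the common kernel -/
noncomputable def KK (lam : J → Fin N → ℂ) (R : Finset J) : Submodule ℂ (Fin N → ℂ) where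
  carrier := {v | ∀ j ∈ R, lam j ⬝ᵥ v = 0}
  zero_mem' := by simp
  add_mem' := by
    intro a b ha hb j hj
    rw [dotProduct_add, ha j hj, hb j hj, add_zero]
  smul_mem' := by
    intro c a ha j hj
    rw [dotProduct_smul, ha j hj, smul_zero]

/-- the rank function of the restrictions of the forms to `U` -/
noncomputable def rk (U : Submodule ℂ (Fin N → ℂ)) (lam : J → Fin N → ℂ) (R : Finset J) : ℕ :=
  Module.finrank ℂ U - Module.finrank ℂ (U ⊓ KK lam R : Submodule ℂ (Fin N → ℂ))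

end MotMono
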