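import Pool.Agent.Lib.MP_4e5fcd_ag.Basic

open MvPolynomial

namespace MotMono

/-! ## C1 constructible sets -/

theorem constr_univ {σ : Type} : Constr (Set.univ : Set (σ → ℂ)) := by
  have h := Constr.zeroSet (0 : MvPolynomial σ ℂ)
  have e : {x : σ → ℂ | eval x (0 : MvPolynomial σ ℂ) = 0} = Set.univ := by
    ext x; simp
  rwa [e] at h

theorem constr_empty {σ : Type} : Constr (∅ : Set (σ → ℂ)) := by
  have h := (constr_univ (σ := σ)).compl
  rwa [Set.compl_univ] at h

theorem Constr.union {σ : Type} {E F : Set (σ → ℂ)} (hE : Constr E) (hF : Constr F) :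
    Constr (E ∪ F) := by
  have h := (hE.compl.inter hF.compl).compl
  rwa [Set.compl_inter, compl_compl, compl_compl] at h

theorem Constr.diff {σ : Type} {E F : Set (σ → ℂ)} (hE : Constr E) (hF : Constr F) :
    Constr (E \ F) := by
  rw [Set.sdiff_eq]
  exact hE.inter hF.compl

theorem constr_biInter_finset {σ ι : Type} (s : Finset ι) {E : ι → Set (σ → ℂ)}
    (h : ∀ i ∈ s, Constr (E i)) : Constr (⋂ i ∈ s, E i) := by
  classical
  induction s using Finset.induction_on with
  | empty => simpa using constr_univ
  | insert a s ha ih =>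
    rw [Finset.set_biInter_insert]
    exact (h a (Finset.mem_insert_self a s)).inter
      (ih fun i hi => h i (Finset.mem_insert_of_mem hi))

theorem constr_biUnion {σ ι : Type} (s : Finset ι) {E : ι → Set (σ → ℂ)}
    (h : ∀ i ∈ s, Constr (E i)) : Constr (⋃ i ∈ s, E i) := by
  classical
  induction s using Finset.induction_on with
  | empty => simpa using constr_empty
  | insert a s ha ih =>
    rw [Finset.set_biUnion_insert]
    exact (h a (Finset.mem_insert_self a s)).union
      (ih fun i hi => h i (Finset.mem_insert_of_mem hi))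

theorem constr_iInter {σ ι : Type} [Finite ι] {E : ι → Set (σ → ℂ)} (h : ∀ i, Constr (E i)) :
    Constr (⋂ i, E i) := by
  have := Fintype.ofFinite ι
  have h2 := constr_biInter_finset Finset.univ (E := E) fun i _ => h i
  simpa using h2

theorem constr_iUnion {σ ι : Type} [Finite ι] {E : ι → Set (σ → ℂ)} (h : ∀ i, Constr (E i)) :
    Constr (⋃ i, E i) := by
  have := Fintype.ofFinite ι
  have h2 := constr_biUnion Finset.univ (E := E) fun i _ => h i
  simpa using h2

theorem constr_eq {σ : Type} (f g : MvPolynomial σ ℂ) : Constr {x | eval x f = eval x g} := by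
  have h := Constr.zeroSet (f - g)
  have e : {x : σ → ℂ | eval x (f - g) = 0} = {x | eval x f = eval x g} := by
    ext x
    rw [Set.mem_ofPred_eq, Set.mem_ofPred_eq, map_sub, sub_eq_zero]
  rwa [e] at h

theorem constr_ne {σ : Type} (f : MvPolynomial σ ℂ) : Constr {x | eval x f ≠ 0} := by
  have h := (Constr.zeroSet f).compl
  exact h

/-- preimage under a polynomial map -/
theorem Constr.preimage {σ τ : Type} {E : Set (τ → ℂ)} (hE : Constr E)
    (g : τ → MvPolynomial σ ℂ) : Constr {x : σ → ℂ | (fun j => eval x (g j)) ∈ E} := by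
  induction hE with
  | zeroSet f =>
    have h := Constr.zeroSet (aeval g f : MvPolynomial σ ℂ)
    have e : {x : σ → ℂ | eval x (aeval g f : MvPolynomial σ ℂ) = 0} =
        {x : σ → ℂ | (fun j => eval x (g j)) ∈ {x | eval x f = 0}} := by
      ext x
      have hx : eval x (aeval g f : MvPolynomial σ ℂ) = eval (fun j => eval x (g j)) f := by
        clear h
        induction f using MvPolynomial.induction_on with
        | C a => simp
        | add p q hp hq => rw [map_add, map_add, map_add, hp, hq]
        | mul_X p i hp => rw [map_mul, map_mul, map_mul, hp, aeval_X, eval_X]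
      simp only [Set.mem_ofPred_eq]
      rw [hx]
    rwa [e] at h
  | compl _ ih => exact ih.compl
  | inter _ _ ih1 ih2 => exact ih1.inter ih2

/-- preimage under a map of coordinates -/
theorem Constr.comp {σ τ : Type} {E : Set (τ → ℂ)} (hE : Constr E) (e : τ → σ) :
    Constr {x : σ → ℂ | (fun j => x (e j)) ∈ E} := by
  have h := hE.preimage (fun j => (X (e j) : MvPolynomial σ ℂ))
  simpa using h

theorem Constr.prodSet {σ τ : Type} {E : Set (σ → ℂ)} {F : Set (τ → ℂ)} (hE : Constr E)
    (hF : Constr F) : Constr (prodSet E F) :=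
  (hE.comp Sum.inl).inter (hF.comp Sum.inr)

/-- every linear functional is given by a polynomial -/
theorem exists_linPoly {σ : Type} [Finite σ] (l : (σ → ℂ) →ₗ[ℂ] ℂ) :
    ∃ P : MvPolynomial σ ℂ, ∀ x, eval x P = l x := by
  classical
  have := Fintype.ofFinite σ
  refine ⟨∑ i, C (l (Pi.single i 1)) * X i, fun x => ?_⟩
  rw [map_sum]
  conv_rhs => rw [← LinearMap.sum_single_apply (fun _ => ℂ) x] 
  rw [map_sum]
  refine Finset.sum_congr rfl fun i _ => ?_
  rw [map_mul, eval_C, eval_X]
  have : (Pi.single i (x i) : σ → ℂ) = x i • Pi.single i 1 := by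
    rw [← Pi.single_smul]; simp
  rw [this, map_smul, smul_eq_mul, mul_comm]

theorem constr_submodule {σ : Type} [Finite σ] (W : Submodule ℂ (σ → ℂ)) :
    Constr (W : Set (σ → ℂ)) := by
  classical
  have := Fintype.ofFinite σ
  let b := Module.finBasis ℂ ((σ → ℂ) ⧸ W)
  let q : Fin (Module.finrank ℂ ((σ → ℂ) ⧸ W)) → ((σ → ℂ) →ₗ[ℂ] ℂ) :=
    fun i => (b.coord i).comp W.mkQ
  have e : (W : Set (σ → ℂ)) = ⋂ i, {x | q i x = 0} := by
    ext x
    simp only [SetLike.mem_coe, Set.mem_iInter, Set.mem_ofPred_eq]
    constructor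
    · intro hx i
      simp [q, (Submodule.Quotient.mk_eq_zero W).mpr hx]
    · intro h
      rw [← Submodule.Quotient.mk_eq_zero W]
      apply b.ext_elem
      intro i
      have := h i
      simpa [q] using this
  rw [e]
  refine constr_iInter fun i => ?_
  obtain ⟨P, hP⟩ := exists_linPoly (q i)
  have h := Constr.zeroSet P
  simpa [hP] using h

theorem constr_singleton {σ : Type} [Finite σ] (p : σ → ℂ) : Constr ({p} : Set (σ → ℂ)) := by
  have e : ({p} : Set (σ → ℂ)) = ⋂ i, {x | eval x (X i) = eval x (C (p i))} := by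
    ext x
    simp only [Set.mem_singleton_iff, Set.mem_iInter, Set.mem_ofPred_eq, eval_X, eval_C]
    exact ⟨fun h i => by rw [h], fun h => funext h⟩
  rw [e]
  exact constr_iInter fun i => constr_eq _ _

end MotMono
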