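import Pool.Agent.Lib.MP_4e5fcd_ag.C1

open MvPolynomial

namespace MotMono

/-! ## C2 regular functions -/

theorem regFun_poly {σ : Type} (E : Set (σ → ℂ)) (P : MvPolynomial σ ℂ) :
    RegFun E (fun x => eval x P) :=
  ⟨P, 1, fun x _ => by simp⟩

theorem regFun_coord {σ : Type} (E : Set (σ → ℂ)) (i : σ) : RegFun E (fun x => x i) := by
  simpa using regFun_poly E (X i)

theorem regFun_const {σ : Type} (E : Set (σ → ℂ)) (c : ℂ) : RegFun E (fun _ => c) := by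
  simpa using regFun_poly E (C c : MvPolynomial σ ℂ)

theorem regFun_lin {σ : Type} [Finite σ] (E : Set (σ → ℂ)) (l : (σ → ℂ) →ₗ[ℂ] ℂ) :
    RegFun E (fun x => l x) := by
  obtain ⟨P, hP⟩ := exists_linPoly l
  have h := regFun_poly E P
  simpa [hP] using h

theorem RegFun.add {σ : Type} {E : Set (σ → ℂ)} {f g : (σ → ℂ) → ℂ} (hf : RegFun E f)
    (hg : RegFun E g) : RegFun E (fun x => f x + g x) := by
  obtain ⟨P, Q, h⟩ := hf
  obtain ⟨P', Q', h'⟩ := hg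
  refine ⟨P * Q' + P' * Q, Q * Q', fun x hx => ?_⟩
  obtain ⟨h1, h2⟩ := h x hx
  obtain ⟨h3, h4⟩ := h' x hx
  refine ⟨by rw [map_mul]; exact mul_ne_zero h1 h3, ?_⟩
  simp only [h2, h4, map_add, map_mul]
  field_simp

theorem RegFun.mul {σ : Type} {E : Set (σ → ℂ)} {f g : (σ → ℂ) → ℂ} (hf : RegFun E f)
    (hg : RegFun E g) : RegFun E (fun x => f x * g x) := by
  obtain ⟨P, Q, h⟩ := hf
  obtain ⟨P', Q', h'⟩ := hg
  refine ⟨P * P', Q * Q', fun x hx => ?_⟩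
  obtain ⟨h1, h2⟩ := h x hx
  obtain ⟨h3, h4⟩ := h' x hx
  refine ⟨by rw [map_mul]; exact mul_ne_zero h1 h3, ?_⟩
  simp only [h2, h4, map_mul]
  field_simp

theorem RegFun.sub {σ : Type} {E : Set (σ → ℂ)} {f g : (σ → ℂ) → ℂ} (hf : RegFun E f)
    (hg : RegFun E g) : RegFun E (fun x => f x - g x) := by
  have h := hf.add ((regFun_const E (-1)).mul hg)
  simpa [sub_eq_add_neg] using h

theorem RegFun.inv {σ : Type} {E : Set (σ → ℂ)} {f : (σ → ℂ) → ℂ} (hf : RegFun E f)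
    (h0 : ∀ x ∈ E, f x ≠ 0) : RegFun E (fun x => (f x)⁻¹) := by
  obtain ⟨P, Q, h⟩ := hf
  refine ⟨Q, P, fun x hx => ?_⟩
  obtain ⟨h1, h2⟩ := h x hx
  have h3 := h0 x hx
  rw [h2] at h3
  refine ⟨fun h4 => h3 (by rw [h4, zero_div]), by simp only [h2, inv_div]⟩

theorem RegFun.congr {σ : Type} {E : Set (σ → ℂ)} {f g : (σ → ℂ) → ℂ} (hf : RegFun E f)
    (h : ∀ x ∈ E, f x = g x) : RegFun E g := by
  obtain ⟨P, Q, h'⟩ := hf
  exact ⟨P, Q, fun x hx => ⟨(h' x hx).1, by rw [← h x hx]; exact (h' x hx).2⟩⟩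

theorem RegFun.mono {σ : Type} {E F : Set (σ → ℂ)} {f : (σ → ℂ) → ℂ} (hf : RegFun E f)
    (h : F ⊆ E) : RegFun F f := by
  obtain ⟨P, Q, h'⟩ := hf
  exact ⟨P, Q, fun x hx => h' x (h hx)⟩

theorem RegFun.comp {σ τ : Type} {E : Set (σ → ℂ)} {F : Set (τ → ℂ)} {f : (σ → ℂ) → (τ → ℂ)}
    {h : (τ → ℂ) → ℂ} (hf : RegularOn E f) (hh : RegFun F h) (hm : ∀ x ∈ E, f x ∈ F) :
    RegFun E (fun x => h (f x)) := by
  have key : ∀ P : MvPolynomial τ ℂ, RegFun E (fun x => eval (f x) P) := by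
    intro P
    induction P using MvPolynomial.induction_on with
    | C a => simpa using regFun_const E a
    | add p q hp hq => simpa using hp.add hq
    | mul_X p i hp => simpa using hp.mul (hf i)
  obtain ⟨P, Q, hPQ⟩ := hh
  have h1 := (key P).mul ((key Q).inv fun x hx => (hPQ (f x) (hm x hx)).1)
  refine h1.congr fun x hx => ?_
  rw [(hPQ (f x) (hm x hx)).2, div_eq_mul_inv]

theorem RegIso.refl {σ : Type} (E : Set (σ → ℂ)) : RegIso E E :=
  ⟨id, id, fun j => regFun_coord E j, fun j => regFun_coord E j, fun _ h => h, fun _ h => h,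
    fun _ _ => rfl, fun _ _ => rfl⟩

theorem RegIso.symm {σ τ : Type} {E : Set (σ → ℂ)} {F : Set (τ → ℂ)} (h : RegIso E F) :
    RegIso F E := by
  obtain ⟨f, g, h1, h2, h3, h4, h5, h6⟩ := h
  exact ⟨g, f, h2, h1, h4, h3, h6, h5⟩

theorem RegIso.trans {σ τ υ : Type} {E : Set (σ → ℂ)} {F : Set (τ → ℂ)} {G : Set (υ → ℂ)}
    (h : RegIso E F) (h' : RegIso F G) : RegIso E G := by
  obtain ⟨f, g, h1, h2, h3, h4, h5, h6⟩ := h
  obtain ⟨f', g', h1', h2', h3', h4', h5', h6'⟩ := h'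
  refine ⟨fun x => f' (f x), fun x => g (g' x), fun j => RegFun.comp h1 (h1' j) h3,
    fun j => RegFun.comp h2' (h2 j) h4', fun x hx => h3' _ (h3 x hx), fun y hy => h4 _ (h4' y hy),
    fun x hx => ?_, fun y hy => ?_⟩
  · change g (g' (f' (f x))) = x
    rw [h5' _ (h3 x hx), h5 x hx]
  · change f' (f (g (g' y))) = y
    rw [h6 _ (h4' y hy), h6' y hy]

/-- renaming the coordinates -/
theorem RegIso.reindex {σ τ : Type} (e : σ ≃ τ) (E : Set (σ → ℂ)) :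
    RegIso E {y : τ → ℂ | (fun i => y (e i)) ∈ E} := by
  refine ⟨fun x j => x (e.symm j), fun y i => y (e i), fun j => regFun_coord E _,
    fun i => regFun_coord _ _, fun x hx => ?_, fun y hy => hy, fun x _ => ?_, fun y _ => ?_⟩
  · simpa using hx
  · funext i; simp
  · funext j; simp

/-- restriction of mutually inverse affine-linear maps -/
theorem RegIso.linear {σ τ : Type} [Finite σ] [Finite τ] {E : Set (σ → ℂ)} {F : Set (τ → ℂ)}
    (f : (σ → ℂ) →ₗ[ℂ] (τ → ℂ)) (g : (τ → ℂ) →ₗ[ℂ] (σ → ℂ)) (a : τ → ℂ) (b : σ → ℂ)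
    (hf : ∀ x ∈ E, f x + a ∈ F) (hg : ∀ y ∈ F, g y + b ∈ E) (hgf : ∀ x ∈ E, g (f x + a) + b = x)
    (hfg : ∀ y ∈ F, f (g y + b) + a = y) : RegIso E F := by
  refine ⟨fun x => f x + a, fun y => g y + b, fun j => ?_, fun i => ?_, hf, hg, hgf, hfg⟩
  · exact (regFun_lin E ((LinearMap.proj j).comp f)).add (regFun_const E (a j))
  · exact (regFun_lin F ((LinearMap.proj i).comp g)).add (regFun_const F (b i))

end MotMono
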