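import Pool.Agent.Lib.MP_4e5fcd_ag.C2

open MvPolynomial

namespace MotMono

/-! ## K1 the Grothendieck ring -/

theorem k1_cls_eq {σ : Type} [hσ : Finite σ] {E : Set (σ → ℂ)} (h : Constr E) :
    cls E = toK0 (X ⟨σ, hσ, E, h⟩) := by
  unfold cls
  rw [dif_pos h]

theorem k1_rel {r : MvPolynomial Gen ℤ} (h : Rel r) :
    toK0 r = 0 :=
  Ideal.Quotient.eq_zero_iff_mem.mpr (Ideal.subset_span h)

theorem cls_union {σ : Type} [Finite σ] {E F : Set (σ → ℂ)} (hE : Constr E) (hF : Constr F)
    (h : Disjoint E F) : cls (E ∪ F) = cls E + cls F := by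
  have h1 := k1_rel (Rel.add ‹_› E F (E ∪ F) hE hF (hE.union hF) h rfl)
  rw [map_sub, map_sub, sub_sub, sub_eq_zero] at h1
  rw [k1_cls_eq hE, k1_cls_eq hF, k1_cls_eq (hE.union hF), h1]

theorem cls_iso {σ τ : Type} [Finite σ] [Finite τ] {E : Set (σ → ℂ)} {F : Set (τ → ℂ)}
    (hE : Constr E) (hF : Constr F) (h : RegIso E F) : cls E = cls F := by
  have h1 := k1_rel (Rel.iso ‹_› ‹_› E F hE hF h)
  rw [map_sub, sub_eq_zero] at h1
  rw [k1_cls_eq hE, k1_cls_eq hF, h1]

theorem cls_prodSet {σ τ : Type} [Finite σ] [Finite τ] {E : Set (σ → ℂ)} {F : Set (τ → ℂ)}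
    (hE : Constr E) (hF : Constr F) : cls (prodSet E F) = cls E * cls F := by
  have h1 := k1_rel (Rel.mul ‹_› ‹_› inferInstance E F hE hF (hE.prodSet hF))
  rw [map_sub, map_mul, sub_eq_zero] at h1
  rw [k1_cls_eq hE, k1_cls_eq hF, k1_cls_eq (hE.prodSet hF), h1]

theorem cls_empty {σ : Type} [Finite σ] : cls (∅ : Set (σ → ℂ)) = 0 := by
  have h := cls_union (constr_empty (σ := σ)) (constr_empty (σ := σ)) (by simp)
  rw [Set.union_empty] at h
  exact left_eq_add.mp h

theorem k1_cls_one : cls (Set.univ : Set (Empty → ℂ)) = 1 := by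
  have h1 := k1_rel (Rel.one constr_univ)
  rw [map_sub, map_one, sub_eq_zero] at h1
  rw [k1_cls_eq constr_univ, h1]

theorem cls_singleton {σ : Type} [Finite σ] (p : σ → ℂ) : cls ({p} : Set (σ → ℂ)) = 1 := by
  rw [← k1_cls_one]
  refine cls_iso (constr_singleton p) constr_univ ?_
  refine ⟨fun _ => Empty.elim, fun _ => p, fun j => j.elim, fun i => regFun_const _ (p i),
    fun _ _ => Set.mem_univ _, fun _ _ => rfl, fun x hx => ?_, fun y _ => ?_⟩
  · exact (Set.mem_singleton_iff.mp hx).symm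
  · funext j; exact j.elim

theorem cls_diff {σ : Type} [Finite σ] {E F : Set (σ → ℂ)} (hE : Constr E) (hF : Constr F)
    (h : F ⊆ E) : cls (E \ F) = cls E - cls F := by
  have h1 := cls_union (hE.diff hF) hF Set.disjoint_sdiff_left
  rw [Set.sdiff_union_of_subset h] at h1
  rw [h1]; ring

theorem cls_biUnion {σ ι : Type} [Finite σ] (s : Finset ι) {E : ι → Set (σ → ℂ)}
    (hE : ∀ i ∈ s, Constr (E i)) (hd : ∀ i ∈ s, ∀ j ∈ s, i ≠ j → Disjoint (E i) (E j)) :
    cls (⋃ i ∈ s, E i) = ∑ i ∈ s, cls (E i) := by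
  classical
  induction s using Finset.induction_on with
  | empty => simpa using cls_empty
  | insert a s ha ih =>
    rw [Finset.set_biUnion_insert, Finset.sum_insert ha, cls_union (hE a (Finset.mem_insert_self a s))
      (constr_biUnion s fun i hi => hE i (Finset.mem_insert_of_mem hi)), ih]
    · exact fun i hi => hE i (Finset.mem_insert_of_mem hi)
    · exact fun i hi j hj => hd i (Finset.mem_insert_of_mem hi) j (Finset.mem_insert_of_mem hj)
    · rw [Set.disjoint_iUnion₂_right]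
      intro i hi
      refine hd a (Finset.mem_insert_self a s) i (Finset.mem_insert_of_mem hi) ?_
      rintro rfl
      exact ha hi

theorem k1_cls_univ_fin (n : ℕ) : cls (Set.univ : Set (Fin n → ℂ)) = LL ^ n := by
  induction n with
  | zero =>
    have h : (Set.univ : Set (Fin 0 → ℂ)) = {0} := by
      ext x; simp [Subsingleton.elim x 0]
    rw [h, cls_singleton, pow_zero]
  | succ n ih =>
    have h1 : cls (Set.univ : Set (Fin (n + 1) → ℂ)) =
        cls (prodSet (Set.univ : Set (Fin n → ℂ)) (Set.univ : Set (Unit → ℂ))) := by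
      refine cls_iso constr_univ (constr_univ.prodSet constr_univ) ?_
      have h2 := RegIso.reindex ((finSumFinEquiv (m := n) (n := 1)).symm.trans
        (Equiv.sumCongr (Equiv.refl _) (Equiv.ofUnique (Fin 1) Unit)))
        (Set.univ : Set (Fin (n + 1) → ℂ))
      have h3 : {y : Fin n ⊕ Unit → ℂ | (fun i => y (((finSumFinEquiv (m := n) (n := 1)).symm.trans
        (Equiv.sumCongr (Equiv.refl _) (Equiv.ofUnique (Fin 1) Unit))) i)) ∈
          (Set.univ : Set (Fin (n + 1) → ℂ))} =
          prodSet (Set.univ : Set (Fin n → ℂ)) (Set.univ : Set (Unit → ℂ)) := by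
        ext y; simp [prodSet]
      rw [h3] at h2
      exact h2
    rw [h1, cls_prodSet constr_univ constr_univ, ih, pow_succ, LL]

theorem cls_univ {σ : Type} [Fintype σ] : cls (Set.univ : Set (σ → ℂ)) = LL ^ Fintype.card σ := by
  rw [← k1_cls_univ_fin]
  refine cls_iso constr_univ constr_univ ?_
  have h2 := RegIso.reindex (Fintype.equivFin σ) (Set.univ : Set (σ → ℂ))
  have h3 : {y : Fin (Fintype.card σ) → ℂ | (fun i => y (Fintype.equivFin σ i)) ∈
      (Set.univ : Set (σ → ℂ))} = Set.univ := by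
    ext y; simp
  rwa [h3] at h2

theorem cls_submodule {σ : Type} [Finite σ] (W : Submodule ℂ (σ → ℂ)) :
    cls (W : Set (σ → ℂ)) = LL ^ Module.finrank ℂ W := by
  have := Fintype.ofFinite σ
  rw [← k1_cls_univ_fin]
  refine cls_iso (constr_submodule W) constr_univ ?_
  let b := Module.finBasis ℂ W
  let e : W ≃ₗ[ℂ] (Fin (Module.finrank ℂ W) → ℂ) := b.equivFun
  obtain ⟨f, hf⟩ := LinearMap.exists_extend (e : W →ₗ[ℂ] (Fin (Module.finrank ℂ W) → ℂ))
  let g : (Fin (Module.finrank ℂ W) → ℂ) →ₗ[ℂ] (σ → ℂ) := W.subtype.comp (e.symm : _ →ₗ[ℂ] W)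
  have hfe : ∀ w : W, f w = e w := fun w => by
    have := LinearMap.congr_fun hf w
    simpa using this
  refine RegIso.linear f g 0 0 (fun _ _ => Set.mem_univ _) (fun y _ => ?_) (fun x hx => ?_)
    (fun y _ => ?_)
  · simp only [add_zero, SetLike.mem_coe]
    exact (e.symm y).2
  · simp only [add_zero]
    have h1 : f x = e ⟨x, hx⟩ := hfe ⟨x, hx⟩
    rw [h1]
    simp [g]
  · simp only [add_zero]
    have h1 : f (g y) = e (e.symm y) := hfe (e.symm y)
    rw [h1]
    simp

end MotMono
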