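import Pool.Agent.Lib.MP_4e5fcd_ag.K1

open MvPolynomial

namespace MotMono

/-- products over the levels of a jet -/
theorem constr_levels {σ κ : Type} [Finite κ] {G : κ → Set (σ → ℂ)}
    (hG : ∀ l, Constr (G l)) :
    Constr {γ : σ × κ → ℂ | ∀ l, (fun i => γ (i, l)) ∈ G l} := by
  have e : {γ : σ × κ → ℂ | ∀ l, (fun i => γ (i, l)) ∈ G l} =
      ⋂ l, {γ : σ × κ → ℂ | (fun i => γ (i, l)) ∈ G l} := by
    ext γ; simp
  rw [e]
  exact constr_iInter fun l => (hG l).comp fun i => (i, l)

theorem k2_fin {σ : Type} [Finite σ] (n : ℕ) : ∀ {G : Fin n → Set (σ → ℂ)},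
    (∀ l, Constr (G l)) →
    cls {γ : σ × Fin n → ℂ | ∀ l, (fun i => γ (i, l)) ∈ G l} = ∏ l, cls (G l) := by
  induction n with
  | zero =>
    intro G hG
    have h : {γ : σ × Fin 0 → ℂ | ∀ l, (fun i => γ (i, l)) ∈ G l} = {0} := by
      ext γ
      simp only [Set.mem_ofPred_eq, Set.mem_singleton_iff]
      refine ⟨fun _ => ?_, fun _ l => l.elim0⟩
      funext x
      exact x.2.elim0
    rw [h, cls_singleton]
    simp
  | succ n ih =>
    intro G hG
    have hG' : ∀ l : Fin n, Constr (G l.succ) := fun l => hG l.succ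
    rw [Fin.prod_univ_succ, ← ih hG', ← cls_prodSet (hG 0) (constr_levels hG')]
    refine cls_iso (constr_levels hG) ((hG 0).prodSet (constr_levels hG')) ?_
    refine ⟨fun γ s => Sum.elim (fun i => γ (i, 0)) (fun q => γ (q.1, q.2.succ)) s,
      fun z q => Fin.cases (z (Sum.inl q.1)) (fun l => z (Sum.inr (q.1, l))) q.2, ?_, ?_, ?_, ?_,
      ?_, ?_⟩
    · intro s
      rcases s with i | q
      · exact regFun_coord _ _
      · exact regFun_coord _ _
    · intro q
      obtain ⟨i, l⟩ := q
      refine Fin.cases ?_ (fun l => ?_) l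
      · exact regFun_coord _ (Sum.inl i)
      · exact regFun_coord _ (Sum.inr (i, l))
    · intro γ hγ
      exact ⟨hγ 0, fun l => hγ l.succ⟩
    · intro z hz l
      refine Fin.cases ?_ (fun l => ?_) l
      · exact hz.1
      · exact hz.2 l
    · intro γ _
      funext q
      obtain ⟨i, l⟩ := q
      refine Fin.cases ?_ (fun l => ?_) l <;> rfl
    · intro z _
      funext s
      rcases s with i | q <;> rfl

theorem cls_levels {σ κ : Type} [Finite σ] [Fintype κ] {G : κ → Set (σ → ℂ)}
    (hG : ∀ l, Constr (G l)) :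
    cls {γ : σ × κ → ℂ | ∀ l, (fun i => γ (i, l)) ∈ G l} = ∏ l, cls (G l) := by
  let e := Fintype.equivFin κ
  have h1 := k2_fin (Fintype.card κ) (G := fun l => G (e.symm l)) (fun l => hG _)
  rw [Fintype.prod_equiv e (fun l => cls (G l)) (fun l => cls (G (e.symm l))) (by simp), ← h1]
  refine cls_iso (constr_levels hG) (constr_levels fun l => hG _) ?_
  have h2 := RegIso.reindex (Equiv.prodCongr (Equiv.refl σ) e)
    {γ : σ × κ → ℂ | ∀ l, (fun i => γ (i, l)) ∈ G l}
  have h3 : {y : σ × Fin (Fintype.card κ) → ℂ | (fun i => y (Equiv.prodCongr (Equiv.refl σ) e i)) ∈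
      {γ : σ × κ → ℂ | ∀ l, (fun i => γ (i, l)) ∈ G l}} =
      {γ : σ × Fin (Fintype.card κ) → ℂ | ∀ l, (fun i => γ (i, l)) ∈ G (e.symm l)} := by
    ext y
    simp only [Set.mem_ofPred_eq]
    constructor
    · intro h l
      have := h (e.symm l)
      simpa using this
    · intro h l
      have := h (e l)
      simpa using this
  rwa [h3] at h2

end MotMono
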