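import Pool.Agent.Lib.MP_4e5fcd_ag.Defs

open MvPolynomial

namespace MotMono

/-- the logarithmic derivative of `(1 - X ^ n)⁻¹` -/
private noncomputable def z1_G (n : ℕ) : PowerSeries ℂ :=
  PowerSeries.mk fun d => if d = 0 then (0 : ℂ) else if n ∣ d then (n : ℂ) else 0

private theorem z1_key (n : ℕ) (hn : 0 < n) :
    (1 - PowerSeries.X ^ n) * z1_G n = (n : PowerSeries ℂ) * PowerSeries.X ^ n := by
  have hC : (n : PowerSeries ℂ) = PowerSeries.C (n : ℂ) := by simp
  ext d
  rw [hC, sub_mul, one_mul, map_sub, PowerSeries.coeff_X_pow_mul', PowerSeries.coeff_C_mul,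
    PowerSeries.coeff_X_pow]
  simp only [z1_G, PowerSeries.coeff_mk]
  rcases lt_trichotomy d n with h | h | h
  · rw [if_neg (not_le.mpr h), if_neg h.ne]
    by_cases h0 : d = 0
    · simp [h0]
    · rw [if_neg h0, if_neg (Nat.not_dvd_of_pos_of_lt (Nat.pos_of_ne_zero h0) h)]
      simp
  · subst h
    rw [if_neg hn.ne', if_pos dvd_rfl, if_pos le_rfl]
    simp
  · rw [if_neg (by omega : ¬ d = 0), if_pos h.le, if_neg (by omega : ¬ d - n = 0), if_neg h.ne']
    have : n ∣ d ↔ n ∣ d - n := by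
      constructor
      · intro h2
        exact Nat.dvd_sub h2 dvd_rfl
      · intro h2
        have h3 := Nat.dvd_add h2 (dvd_refl n)
        rwa [Nat.sub_add_cancel h.le] at h3
    by_cases h1 : n ∣ d
    · rw [if_pos h1, if_pos (this.mp h1)]; simp
    · rw [if_neg h1, if_neg (fun h2 => h1 (this.mpr h2))]; simp

private theorem z1_dX (n : ℕ) :
    PowerSeries.X * PowerSeries.derivative ℂ ((PowerSeries.X : PowerSeries ℂ) ^ n) =
      (n : PowerSeries ℂ) * PowerSeries.X ^ n := by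
  rcases n with _ | n
  · simp
  · rw [Derivation.leibniz_pow]
    simp only [Nat.add_sub_cancel, PowerSeries.derivative_X, smul_eq_mul, mul_one, nsmul_eq_mul]
    ring

private theorem z1_U (n : ℕ) (hn : 0 < n) (m : ℕ) :
    PowerSeries.X * PowerSeries.derivative ℂ ((1 - PowerSeries.X ^ n : PowerSeries ℂ) ^ m) =
      -((m : PowerSeries ℂ) * z1_G n) * (1 - PowerSeries.X ^ n) ^ m := by
  induction m with
  | zero => simp
  | succ m ih =>
    have h1 : PowerSeries.X * PowerSeries.derivative ℂ (1 - PowerSeries.X ^ n : PowerSeries ℂ) =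
        -((n : PowerSeries ℂ) * PowerSeries.X ^ n) := by
      rw [map_sub, mul_sub, z1_dX]
      simp
    rw [pow_succ, Derivation.leibniz, smul_eq_mul, smul_eq_mul, mul_add]
    have e1 : PowerSeries.X * ((1 - PowerSeries.X ^ n : PowerSeries ℂ) ^ m *
        PowerSeries.derivative ℂ (1 - PowerSeries.X ^ n : PowerSeries ℂ)) =
        (1 - PowerSeries.X ^ n) ^ m * (PowerSeries.X *
          PowerSeries.derivative ℂ (1 - PowerSeries.X ^ n : PowerSeries ℂ)) := by ring
    have e2 : PowerSeries.X * ((1 - PowerSeries.X ^ n : PowerSeries ℂ) *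
        PowerSeries.derivative ℂ ((1 - PowerSeries.X ^ n : PowerSeries ℂ) ^ m)) =
        (1 - PowerSeries.X ^ n) * (PowerSeries.X *
          PowerSeries.derivative ℂ ((1 - PowerSeries.X ^ n : PowerSeries ℂ) ^ m)) := by ring
    rw [e1, e2, h1, ih, ← z1_key n hn]
    push_cast
    ring

theorem exists_zeta (n : ℕ) (hn : 0 < n) (c : ℤ) (hc : c ≠ 0) (α : ℂ) (hα : α ^ n = 1)
    (Λ : ℕ → ℤ) (hΛ : ∀ d, 0 < d → Λ d = if n ∣ d then n * c else 0) :
    ∃ Z, IsZeta Λ Z ∧ ZeroOrPole Z α := by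
  have hF : (PowerSeries.mk fun d => if d = 0 then (0 : ℂ) else (Λ d : ℂ)) =
      PowerSeries.C (c : ℂ) * z1_G n := by
    ext d
    rw [PowerSeries.coeff_C_mul]
    simp only [z1_G, PowerSeries.coeff_mk]
    by_cases h0 : d = 0
    · simp [h0]
    · rw [if_neg h0, if_neg h0, hΛ d (Nat.pos_of_ne_zero h0)]
      by_cases h1 : n ∣ d
      · rw [if_pos h1, if_pos h1]; push_cast; ring
      · rw [if_neg h1, if_neg h1]; simp
  have hcc : ∀ m : ℕ, PowerSeries.constantCoeff ((1 - PowerSeries.X ^ n : PowerSeries ℂ) ^ m) = 1 := by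
    intro m
    rw [map_pow, map_sub, map_pow, PowerSeries.constantCoeff_X, zero_pow hn.ne', map_one, sub_zero,
      one_pow]
  have hpoly : ∀ m : ℕ, (((1 - Polynomial.X ^ n : Polynomial ℂ) ^ m : Polynomial ℂ) : PowerSeries ℂ)
      = (1 - PowerSeries.X ^ n) ^ m := by
    intro m
    simp
  have heval : ∀ m : ℕ, 0 < m → ((1 - Polynomial.X ^ n : Polynomial ℂ) ^ m).eval α = 0 := by
    intro m hm
    simp [hα, hm.ne']
  rcases lt_or_gt_of_ne hc with hneg | hpos
  · obtain ⟨m, hm⟩ : ∃ m : ℕ, c = -(m : ℤ) := ⟨c.natAbs, by omega⟩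
    have hm0 : 0 < m := by omega
    set U : PowerSeries ℂ := (1 - PowerSeries.X ^ n) ^ m with hU
    have hU0 : PowerSeries.constantCoeff U ≠ 0 := by rw [hU, hcc]; exact one_ne_zero
    have hUZ : U * U⁻¹ = 1 := PowerSeries.mul_inv_cancel U hU0
    refine ⟨U⁻¹, ⟨?_, ?_⟩, ⟨1, (1 - Polynomial.X ^ n) ^ m, isCoprime_one_left, ?_, Or.inr (heval m hm0)⟩⟩
    · rw [PowerSeries.constantCoeff_inv, hU, hcc, inv_one]
    · rw [hF]
      have h1 : PowerSeries.derivative ℂ (U * U⁻¹) = 0 := by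
        rw [hUZ]; simp
      rw [Derivation.leibniz, smul_eq_mul, smul_eq_mul] at h1
      have h2 : U * (PowerSeries.X * PowerSeries.derivative ℂ U⁻¹) +
          U⁻¹ * (PowerSeries.X * PowerSeries.derivative ℂ U) = 0 := by
        have : U * (PowerSeries.X * PowerSeries.derivative ℂ U⁻¹) +
          U⁻¹ * (PowerSeries.X * PowerSeries.derivative ℂ U) = PowerSeries.X *
            (U * PowerSeries.derivative ℂ U⁻¹ + U⁻¹ * PowerSeries.derivative ℂ U) := by ring
        rw [this, h1, mul_zero]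
      rw [hU, z1_U n hn m, ← hU] at h2
      have h3 : U * (PowerSeries.X * PowerSeries.derivative ℂ U⁻¹) =
          (m : PowerSeries ℂ) * z1_G n := by
        have : U⁻¹ * (-((m : PowerSeries ℂ) * z1_G n) * U) =
            -((m : PowerSeries ℂ) * z1_G n) * (U * U⁻¹) := by ring
        rw [this, hUZ, mul_one] at h2
        linear_combination h2
      have h4 : PowerSeries.X * PowerSeries.derivative ℂ U⁻¹ =
          (m : PowerSeries ℂ) * z1_G n * U⁻¹ := by
        calc PowerSeries.X * PowerSeries.derivative ℂ U⁻¹ =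
            (U * U⁻¹) * (PowerSeries.X * PowerSeries.derivative ℂ U⁻¹) := by rw [hUZ, one_mul]
          _ = (U * (PowerSeries.X * PowerSeries.derivative ℂ U⁻¹)) * U⁻¹ := by ring
          _ = _ := by rw [h3]
      have h5 : PowerSeries.C (c : ℂ) = -(m : PowerSeries ℂ) := by
        rw [hm]; push_cast; simp
      rw [h4, h5]
      ring
    · rw [hpoly, ← hU, hUZ]; simp
  · obtain ⟨m, hm⟩ : ∃ m : ℕ, c = (m : ℤ) := ⟨c.natAbs, by omega⟩
    have hm0 : 0 < m := by omega
    refine ⟨(1 - PowerSeries.X ^ n) ^ m, ⟨hcc m, ?_⟩, ⟨(1 - Polynomial.X ^ n) ^ m, 1,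
      isCoprime_one_right, ?_, Or.inl (heval m hm0)⟩⟩
    · rw [hF, z1_U n hn m]
      have h5 : PowerSeries.C (c : ℂ) = (m : PowerSeries ℂ) := by
        rw [hm]; push_cast; simp
      rw [h5]
    · rw [hpoly]; simp

end MotMono
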