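import Mathlib

/-!
# The motivic monodromy conjecture for ideals: definitions

* `K0`: the Grothendieck ring of complex varieties, presented by Zariski-constructible subsets of
  affine spaces, with the relations `[E ⊔ F] = [E] + [F]`, `[E] = [F]` for regularly isomorphic
  `E, F`, `[E × F] = [E] [F]` and `[point] = 1`;
* `MC`: its localisation at `L = [A¹]`;
* `Zmot I`: the motivic zeta function at the origin of an ideal `I`, by arcs (Denef-Loeser):
  the coefficient of `T ^ k` is `L ^ (-N (k + 1))` times the class of the set of `k`-jets at the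
  origin along which `I` vanishes exactly to order `k`;
* `IsPole`: poles, as in the problem;
* `ConePoint I p`: a point of the normal cone `Spec (⊕ I^k / I^(k+1))` over the point `p`;
* `contactArcs I p y d`: the `d`-jets `γ` at `p` with `f (γ(t)) = y(f) t^d mod t^(d+1)` for all
  `f ∈ I`. Their Euler characteristics are the Lefschetz numbers of the iterates of the monodromy
  at `y`, see `IsZeta`.
-/

open MvPolynomial

namespace MotMono

/-! ### Constructible sets and regular maps -/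

/-- Zariski-constructible subsets of the affine space `σ → ℂ`: the Boolean combinations of zero
sets of polynomials. -/
inductive Constr {σ : Type} : Set (σ → ℂ) → Prop
  | zeroSet (f : MvPolynomial σ ℂ) : Constr {x | eval x f = 0}
  | compl {E : Set (σ → ℂ)} : Constr E → Constr Eᶜ
  | inter {E F : Set (σ → ℂ)} : Constr E → Constr F → Constr (E ∩ F)

/-- A function which on `E` is a quotient of two polynomials. -/
def RegFun {σ : Type} (E : Set (σ → ℂ)) (h : (σ → ℂ) → ℂ) : Prop :=
  ∃ P Q : MvPolynomial σ ℂ, ∀ x ∈ E, eval x Q ≠ 0 ∧ h x = eval x P / eval x Q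

/-- A map all of whose coordinates are regular functions on `E`. -/
def RegularOn {σ τ : Type} (E : Set (σ → ℂ)) (f : (σ → ℂ) → (τ → ℂ)) : Prop :=
  ∀ j, RegFun E (fun x => f x j)

/-- Mutually inverse regular maps between `E` and `F`. -/
def RegIso {σ τ : Type} (E : Set (σ → ℂ)) (F : Set (τ → ℂ)) : Prop :=
  ∃ (f : (σ → ℂ) → (τ → ℂ)) (g : (τ → ℂ) → (σ → ℂ)),
    RegularOn E f ∧ RegularOn F g ∧ (∀ x ∈ E, f x ∈ F) ∧ (∀ y ∈ F, g y ∈ E) ∧
      (∀ x ∈ E, g (f x) = x) ∧ ∀ y ∈ F, f (g y) = y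

/-- The product of two subsets of affine spaces. -/
def prodSet {σ τ : Type} (E : Set (σ → ℂ)) (F : Set (τ → ℂ)) : Set (σ ⊕ τ → ℂ) :=
  {z | (fun i => z (Sum.inl i)) ∈ E ∧ (fun j => z (Sum.inr j)) ∈ F}

/-- The covering `u ^ m = h (x)` of `E`. -/
def kummerCover {σ : Type} (E : Set (σ → ℂ)) (h : MvPolynomial σ ℂ) (m : ℕ) :
    Set (σ ⊕ Unit → ℂ) :=
  {z | (fun i => z (Sum.inl i)) ∈ E ∧ z (Sum.inr ()) ^ m = eval (fun i => z (Sum.inl i)) h}

/-! ### The Grothendieck ring -/

/-- Generators of the Grothendieck ring: constructible subsets of affine spaces. -/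
structure Gen : Type 1 where
  /-- the coordinates -/
  σ : Type
  /-- there are finitely many coordinates -/
  fin : Finite σ
  /-- the subset -/
  E : Set (σ → ℂ)
  /-- it is constructible -/
  constr : Constr E

/-- The relations of the Grothendieck ring. -/
inductive Rel : MvPolynomial Gen ℤ → Prop
  | add {σ : Type} (hσ : Finite σ) (E F G : Set (σ → ℂ)) (hE : Constr E) (hF : Constr F)
      (hG : Constr G) (hEF : Disjoint E F) (hu : G = E ∪ F) :
      Rel (X ⟨σ, hσ, G, hG⟩ - X ⟨σ, hσ, E, hE⟩ - X ⟨σ, hσ, F, hF⟩)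
  | iso {σ τ : Type} (hσ : Finite σ) (hτ : Finite τ) (E : Set (σ → ℂ)) (F : Set (τ → ℂ))
      (hE : Constr E) (hF : Constr F) (h : RegIso E F) :
      Rel (X ⟨σ, hσ, E, hE⟩ - X ⟨τ, hτ, F, hF⟩)
  | mul {σ τ : Type} (hσ : Finite σ) (hτ : Finite τ) (hστ : Finite (σ ⊕ τ)) (E : Set (σ → ℂ))
      (F : Set (τ → ℂ)) (hE : Constr E) (hF : Constr F) (hEF : Constr (prodSet E F)) :
      Rel (X ⟨σ ⊕ τ, hστ, prodSet E F, hEF⟩ - X ⟨σ, hσ, E, hE⟩ * X ⟨τ, hτ, F, hF⟩)
  | one (h : Constr (Set.univ : Set (Empty → ℂ))) :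
      Rel (X ⟨Empty, inferInstance, Set.univ, h⟩ - 1)

/-- The ideal generated by the relations. -/
noncomputable def relIdeal : Ideal (MvPolynomial Gen ℤ) := Ideal.span {r | Rel r}

/-- The Grothendieck ring `K₀(Var_ℂ)`. -/
noncomputable def K0 : Type 1 := MvPolynomial Gen ℤ ⧸ relIdeal

/-- The ring structure. -/
noncomputable def K0.ring : CommRing K0 := Ideal.Quotient.commRing relIdeal

noncomputable instance K0.instCommRing : CommRing K0 := K0.ring

/-- The quotient map to the Grothendieck ring. -/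
noncomputable def toK0 : MvPolynomial Gen ℤ →+* K0 := Ideal.Quotient.mk relIdeal

open Classical in
/-- The class of a (constructible) subset of an affine space. -/
noncomputable def cls {σ : Type} [hσ : Finite σ] (E : Set (σ → ℂ)) : K0 :=
  if h : Constr E then toK0 (X ⟨σ, hσ, E, h⟩) else 0

/-- The class `L` of the affine line. -/
noncomputable def LL : K0 := cls (Set.univ : Set (Unit → ℂ))

/-- The ring `M_ℂ = K₀(Var_ℂ)[L⁻¹]`. -/
noncomputable def MC : Type 1 := Localization.Away LL

/-- The ring structure. -/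
noncomputable def MC.ring : CommRing MC :=
  OreLocalization.instCommRing (S := Submonoid.powers LL)

noncomputable instance MC.instCommRing : CommRing MC := MC.ring

noncomputable instance MC.instAlgebra : Algebra K0 MC :=
  OreLocalization.instAlgebra (S := Submonoid.powers LL)

instance MC.instIsLocalization : IsLocalization.Away LL MC := Localization.isLocalization

/-- The class `L` as a unit of `M_ℂ`. -/
noncomputable def Lu : MCˣ := (IsLocalization.Away.algebraMap_isUnit (S := MC) LL).unit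

/-! ### The motivic zeta function of an ideal, by arcs -/

/-- The arc `t ↦ ∑ γ(·, l) t ^ l`. -/
noncomputable def arc {N n : ℕ} (γ : Fin N × Fin n → ℂ) (i : Fin N) : Polynomial ℂ :=
  ∑ l : Fin n, Polynomial.C (γ (i, l)) * Polynomial.X ^ (l : ℕ)

/-- The polynomial `f (γ(t))`. -/
noncomputable def along {N n : ℕ} (f : MvPolynomial (Fin N) ℂ) (γ : Fin N × Fin n → ℂ) :
    Polynomial ℂ :=
  aeval (arc γ) f

/-- The set of `k`-jets at the origin along which `I` vanishes exactly to order `k`. -/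
def ordLocus {N : ℕ} (I : Ideal (MvPolynomial (Fin N) ℂ)) (k : ℕ) :
    Set (Fin N × Fin (k + 1) → ℂ) :=
  {γ | (∀ i, γ (i, 0) = 0) ∧ (∀ f ∈ I, ∀ l < k, (along f γ).coeff l = 0) ∧
    ∃ f ∈ I, (along f γ).coeff k ≠ 0}

/-- The motivic zeta function at the origin of the ideal `I` of `ℂ[x₁,…,x_N]`. -/
noncomputable def Zmot {N : ℕ} (I : Ideal (MvPolynomial (Fin N) ℂ)) : PowerSeries MC :=
  PowerSeries.mk fun k =>
    algebraMap K0 MC (cls (ordLocus I k)) * ((Lu ^ (-(N * (k + 1) : ℤ)) : MCˣ) : MC)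

/-- The subring of `M_ℂ[[T]]` generated by `M_ℂ[T]` and all `(1 - L^(-a) T^b)⁻¹` with `b > 0` and
`-a/b ≠ s₀`. -/
noncomputable def polarRing (s₀ : ℚ) : Subring (PowerSeries MC) :=
  Subring.closure
    ({g | ∃ P : Polynomial MC, g = (P : PowerSeries MC)} ∪
      {g | ∃ (a : ℤ) (b : ℕ), 0 < b ∧ -(a : ℚ) / b ≠ s₀ ∧
        g * (1 - PowerSeries.C ((Lu ^ (-a) : MCˣ) : MC) * PowerSeries.X ^ b) = 1})

/-- `L^(-s₀)` is a pole of `Z`. -/
def IsPole (Z : PowerSeries MC) (s₀ : ℚ) : Prop := Z ∉ polarRing s₀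

/-! ### The monodromy zeta functions of an ideal, by arcs -/

/-- A point of the normal cone `C_Y = Spec (⊕ I^k / I^(k+1))` of `Y = V(I)` over the point `p` of
`Y`: a homomorphism from the Rees algebra `⊕ I^k` to `ℂ` which extends the evaluation at `p`, given
by its restrictions `φ k` to the homogeneous components `I^k`. -/
structure ConePoint {N : ℕ} (I : Ideal (MvPolynomial (Fin N) ℂ)) (p : Fin N → ℂ) where
  /-- the homomorphism in degree `k`, used on `I ^ k` only -/
  φ : ℕ → MvPolynomial (Fin N) ℂ → ℂ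
  /-- it lies over `p` -/
  base : ∀ f, φ 0 f = eval p f
  /-- it is additive -/
  add : ∀ k, ∀ f ∈ I ^ k, ∀ g ∈ I ^ k, φ k (f + g) = φ k f + φ k g
  /-- it is multiplicative -/
  mul : ∀ k l, ∀ f ∈ I ^ k, ∀ g ∈ I ^ l, φ (k + l) (f * g) = φ k f * φ l g

/-- The point does not lie on the zero section `Y` of the normal cone. -/
def ConePoint.Nonzero {N : ℕ} {I : Ideal (MvPolynomial (Fin N) ℂ)} {p : Fin N → ℂ}
    (y : ConePoint I p) : Prop :=
  ∃ f ∈ I, y.φ 1 f ≠ 0

/-- The `d`-jets `γ` at `p` with `f (γ(t)) = y(f) t^d mod t^(d+1)` for all `f ∈ I`, where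
`y(f) = φ 1 f` is the value at `y` of the element `f` of degree one of the Rees algebra. -/
def contactArcs {N : ℕ} (I : Ideal (MvPolynomial (Fin N) ℂ)) (p : Fin N → ℂ) (y : ConePoint I p)
    (d : ℕ) : Set (Fin N × Fin (d + 1) → ℂ) :=
  {γ | (∀ i, γ (i, 0) = p i) ∧
    ∀ f ∈ I, (∀ l < d, (along f γ).coeff l = 0) ∧ (along f γ).coeff d = y.φ 1 f}

/-- Euler characteristics of complex varieties: ring homomorphisms `K₀(Var_ℂ) → ℤ` with
`χ(A¹) = 1` which are multiplicative in the cyclic coverings `u ^ m = h (x)`, `h ≠ 0`. The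
topological Euler characteristic has these properties. -/
structure IsEulerChar (χ : K0 →+* ℤ) : Prop where
  line : χ LL = 1
  kummer : ∀ {σ : Type} [Finite σ] (E : Set (σ → ℂ)), Constr E → ∀ h : MvPolynomial σ ℂ,
    (∀ x ∈ E, eval x h ≠ 0) → ∀ m : ℕ, 0 < m → χ (cls (kummerCover E h m)) = m * χ (cls E)

/-- `Z = exp (-∑_{d ≥ 1} Λ_d t^d / d)`, the zeta function with Lefschetz numbers `Λ_d`,
characterised by `Z (0) = 1` and `t Z' = - (∑_{d ≥ 1} Λ_d t^d) Z`. -/
def IsZeta (Λ : ℕ → ℤ) (Z : PowerSeries ℂ) : Prop :=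
  PowerSeries.constantCoeff Z = 1 ∧
    PowerSeries.X * PowerSeries.derivative ℂ Z =
      -(PowerSeries.mk fun d => if d = 0 then (0 : ℂ) else (Λ d : ℂ)) * Z

/-- The power series `Z` is the expansion of a rational function which has a zero or a pole
at `α`. -/
def ZeroOrPole (Z : PowerSeries ℂ) (α : ℂ) : Prop :=
  ∃ P Q : Polynomial ℂ, IsCoprime P Q ∧ (Q : PowerSeries ℂ) * Z = (P : PowerSeries ℂ) ∧
    (P.eval α = 0 ∨ Q.eval α = 0)

/-! ### Ideals of linear subspaces -/

/-- The ideal of the linear subspace `W`: the ideal generated by the linear forms which vanish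
on `W`. -/
noncomputable def linIdeal {N : ℕ} (W : Submodule ℂ (Fin N → ℂ)) :
    Ideal (MvPolynomial (Fin N) ℂ) :=
  Ideal.span {f | ∃ a : Fin N → ℂ, f = ∑ i, C (a i) * X i ∧ ∀ w ∈ W, ∑ i, a i * w i = 0}

end MotMono
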