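import Pool.Agent.Lib.MP_4e5fcd_ag.K1

open MvPolynomial

namespace MotMono

variable {N : ℕ} {J : Type} [Fintype J] [DecidableEq J]

omit [Fintype J] [DecidableEq J] in
theorem h1_eval_linForm (a x : Fin N → ℂ) : eval x (linForm a) = a ⬝ᵥ x := by
  simp [linForm, dotProduct]

/-- vectors of `U` with `lam j₁ = 1`, killed by `Z`, not killed by any element of `T` -/
def h1_set (U : Submodule ℂ (Fin N → ℂ)) (lam : J → Fin N → ℂ) (j₁ : J) (Z T : Finset J) :
    Set (Fin N → ℂ) :=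
  {v | (v ∈ U ∧ lam j₁ ⬝ᵥ v = 1) ∧ (∀ j ∈ Z, lam j ⬝ᵥ v = 0) ∧ ∀ j ∈ T, lam j ⬝ᵥ v ≠ 0}

omit [Fintype J] [DecidableEq J] in
theorem h1_constr (U : Submodule ℂ (Fin N → ℂ)) (lam : J → Fin N → ℂ) (j₁ : J) (Z T : Finset J) :
    Constr (h1_set U lam j₁ Z T) := by
  have h : h1_set U lam j₁ Z T = ((U : Set (Fin N → ℂ)) ∩
      {x | eval x (linForm (lam j₁)) = eval x (C 1 : MvPolynomial (Fin N) ℂ)}) ∩
      ((⋂ j : {j // j ∈ Z}, {x | eval x (linForm (lam j.1)) = 0}) ∩
        ⋂ j : {j // j ∈ T}, {x | eval x (linForm (lam j.1)) ≠ 0}) := by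
    ext v
    simp only [h1_set, Set.mem_ofPred_eq, Set.mem_inter_iff, Set.mem_iInter, Subtype.forall,
      SetLike.mem_coe, h1_eval_linForm, eval_C]
  rw [h]
  exact ((constr_submodule U).inter (constr_eq _ _)).inter
    ((constr_iInter fun j => Constr.zeroSet _).inter (constr_iInter fun j => constr_ne _))

omit [Fintype J] in
theorem h1_insert (U : Submodule ℂ (Fin N → ℂ)) (lam : J → Fin N → ℂ) (j₁ : J) (Z T : Finset J)
    (e : J) : cls (h1_set U lam j₁ Z (insert e T)) =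
      cls (h1_set U lam j₁ Z T) - cls (h1_set U lam j₁ (insert e Z) T) := by
  rw [← cls_diff (h1_constr U lam j₁ Z T) (h1_constr U lam j₁ (insert e Z) T)]
  · congr 1
    ext v
    simp only [h1_set, Set.mem_ofPred_eq, Set.mem_sdiff, Finset.mem_insert, forall_eq_or_imp]
    constructor
    · rintro ⟨h1, h2, h3, h4⟩
      exact ⟨⟨h1, h2, h4⟩, fun h => h3 h.2.1.1⟩
    · rintro ⟨⟨h1, h2, h4⟩, h5⟩
      refine ⟨h1, h2, fun h3 => h5 ⟨h1, ⟨h3, h2⟩, h4⟩, h4⟩
  · rintro v ⟨h1, h2, h3⟩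
    exact ⟨h1, fun j hj => h2 j (Finset.mem_insert_of_mem hj), h3⟩

omit [Fintype J] in
theorem h1_expand (χ : K0 →+* ℤ) (U : Submodule ℂ (Fin N → ℂ)) (lam : J → Fin N → ℂ) (j₁ : J)
    (T : Finset J) : ∀ Z : Finset J, χ (cls (h1_set U lam j₁ Z T)) =
      ∑ R ∈ T.powerset, (-1) ^ R.card * χ (cls (h1_set U lam j₁ (Z ∪ R) ∅)) := by
  induction T using Finset.induction_on with
  | empty =>
    intro Z
    simp
  | insert e T he IH =>
    intro Z
    rw [h1_insert, map_sub, IH Z, IH (insert e Z), Finset.sum_powerset_insert he, sub_eq_add_neg]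
    congr 1
    rw [← Finset.sum_neg_distrib]
    refine Finset.sum_congr rfl fun R hR => ?_
    have h1 : e ∉ R := fun h => he (Finset.mem_powerset.1 hR h)
    rw [Finset.card_insert_of_notMem h1]
    have h2 : insert e Z ∪ R = Z ∪ insert e R := by
      ext j
      simp only [Finset.mem_union, Finset.mem_insert]
      tauto
    rw [h2]
    ring

omit [Fintype J] in
/-- the elementary pieces -/
theorem h1_base (χ : K0 →+* ℤ) (hχ : IsEulerChar χ) (U : Submodule ℂ (Fin N → ℂ))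
    (lam : J → Fin N → ℂ) (j₁ : J) (R : Finset J) :
    χ (cls (h1_set U lam j₁ R ∅)) = (rk U lam (insert j₁ R) : ℤ) - rk U lam R := by
  have hK : ∀ v, v ∈ U ⊓ KK lam R ↔ v ∈ U ∧ ∀ j ∈ R, lam j ⬝ᵥ v = 0 := fun v => Iff.rfl
  have hK' : ∀ v, v ∈ U ⊓ KK lam (insert j₁ R) ↔ v ∈ U ∧ lam j₁ ⬝ᵥ v = 0 ∧
      ∀ j ∈ R, lam j ⬝ᵥ v = 0 := by
    intro v
    have : v ∈ U ⊓ KK lam (insert j₁ R) ↔ v ∈ U ∧ ∀ j ∈ insert j₁ R, lam j ⬝ᵥ v = 0 := Iff.rfl
    rw [this, Finset.forall_mem_insert]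
  by_cases hne : (h1_set U lam j₁ R ∅).Nonempty
  · obtain ⟨v0, ⟨hv0U, hv01⟩, hv0R, -⟩ := hne
    -- class
    have h1 : cls (h1_set U lam j₁ R ∅) =
        cls ((U ⊓ KK lam (insert j₁ R) : Submodule ℂ (Fin N → ℂ)) : Set (Fin N → ℂ)) := by
      apply cls_iso (h1_constr U lam j₁ R ∅) (constr_submodule _)
      refine RegIso.linear (LinearMap.id) (LinearMap.id) (-v0) v0 ?_ ?_ ?_ ?_
      · rintro x ⟨⟨hxU, hx1⟩, hxR, -⟩
        rw [SetLike.mem_coe, hK']
        simp only [LinearMap.id_apply]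
        refine ⟨U.add_mem hxU (U.neg_mem hv0U), ?_, fun j hj => ?_⟩
        · rw [dotProduct_add, dotProduct_neg, hx1, hv01]
          ring
        · rw [dotProduct_add, dotProduct_neg, hxR j hj, hv0R j hj]
          ring
      · intro y hy
        rw [SetLike.mem_coe, hK'] at hy
        simp only [LinearMap.id_apply]
        refine ⟨⟨U.add_mem hy.1 hv0U, ?_⟩, fun j hj => ?_, fun j hj => absurd hj (by simp)⟩
        · rw [dotProduct_add, hy.2.1, hv01]
          ring
        · rw [dotProduct_add, hy.2.2 j hj, hv0R j hj]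
          ring
      · intro x _
        simp
      · intro x _
        simp
    rw [h1, cls_submodule, map_pow, hχ.line, one_pow]
    -- dimension
    have hv0K : v0 ∈ U ⊓ KK lam R := (hK v0).2 ⟨hv0U, hv0R⟩
    have hv0 : v0 ≠ 0 := by
      rintro rfl
      rw [dotProduct_zero] at hv01
      exact zero_ne_one hv01
    have hsup : U ⊓ KK lam R = (U ⊓ KK lam (insert j₁ R)) ⊔ Submodule.span ℂ {v0} := by
      apply le_antisymm
      · intro v hv
        have hv' := (hK v).1 hv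
        have h2 : v = (v - (lam j₁ ⬝ᵥ v) • v0) + (lam j₁ ⬝ᵥ v) • v0 := by simp
        rw [h2]
        apply Submodule.add_mem_sup
        · rw [hK']
          refine ⟨U.sub_mem hv'.1 (U.smul_mem _ hv0U), ?_, fun j hj => ?_⟩
          · rw [dotProduct_sub, dotProduct_smul, hv01, smul_eq_mul, mul_one, sub_self]
          · rw [dotProduct_sub, dotProduct_smul, hv'.2 j hj, hv0R j hj, smul_zero, sub_zero]
        · exact Submodule.smul_mem _ _ (Submodule.mem_span_singleton_self v0)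
      · apply sup_le
        · intro v hv
          rw [hK'] at hv
          exact (hK v).2 ⟨hv.1, hv.2.2⟩
        · rw [Submodule.span_singleton_le_iff_mem]
          exact hv0K
    have hinf : (U ⊓ KK lam (insert j₁ R)) ⊓ Submodule.span ℂ {v0} = ⊥ := by
      rw [eq_bot_iff]
      rintro v ⟨hv1, hv2⟩
      obtain ⟨c, rfl⟩ := Submodule.mem_span_singleton.1 hv2
      have h3 := ((hK' (c • v0)).1 hv1).2.1
      rw [dotProduct_smul, hv01, smul_eq_mul, mul_one] at h3
      rw [h3, zero_smul]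
      exact Submodule.zero_mem _
    have hdim := Submodule.finrank_sup_add_finrank_inf_eq (U ⊓ KK lam (insert j₁ R))
      (Submodule.span ℂ {v0})
    rw [← hsup, hinf, finrank_bot, add_zero, finrank_span_singleton hv0] at hdim
    have hle : Module.finrank ℂ (U ⊓ KK lam R : Submodule ℂ (Fin N → ℂ)) ≤ Module.finrank ℂ U :=
      Submodule.finrank_mono inf_le_left
    simp only [rk]
    omega
  · rw [Set.not_nonempty_iff_eq_empty] at hne
    rw [hne, cls_empty, map_zero]
    have h1 : U ⊓ KK lam (insert j₁ R) = U ⊓ KK lam R := by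
      ext v
      rw [hK, hK']
      constructor
      · rintro ⟨h1, -, h3⟩
        exact ⟨h1, h3⟩
      · rintro ⟨h1, h3⟩
        refine ⟨h1, ?_, h3⟩
        by_contra hc
        have h4 : (lam j₁ ⬝ᵥ v)⁻¹ • v ∈ h1_set U lam j₁ R ∅ := by
          refine ⟨⟨U.smul_mem _ h1, ?_⟩, fun j hj => ?_, fun j hj => absurd hj (by simp)⟩
          · rw [dotProduct_smul, smul_eq_mul, inv_mul_cancel₀ hc]
          · rw [dotProduct_smul, h3 j hj, smul_zero]
        rw [hne] at h4
        exact h4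
    simp only [rk]
    rw [h1, sub_self]

/-- H1 -/
theorem chi_Bset (χ : K0 →+* ℤ) (hχ : IsEulerChar χ) (U : Submodule ℂ (Fin N → ℂ))
    (lam : J → Fin N → ℂ) (T : Finset J) (j₁ : J) (hj₁ : j₁ ∈ T) :
    χ (cls (Bset U lam T j₁)) = -∑ R ∈ T.powerset, (-1) ^ R.card * (rk U lam R : ℤ) := by
  have h1 : Bset U lam T j₁ = h1_set U lam j₁ ∅ T := by
    ext v
    simp only [Bset, h1_set, Set.mem_ofPred_eq, Finset.notMem_empty, false_imp_iff, imp_true_iff,
      true_and, and_assoc]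
  rw [h1, h1_expand]
  simp only [Finset.empty_union, h1_base χ hχ]
  have h2 : ∑ R ∈ T.powerset, (-1) ^ R.card * (rk U lam (insert j₁ R) : ℤ) = 0 := by
    obtain ⟨T', hT', rfl⟩ : ∃ T', j₁ ∉ T' ∧ T = insert j₁ T' :=
      ⟨T.erase j₁, Finset.notMem_erase _ _, (Finset.insert_erase hj₁).symm⟩
    rw [Finset.sum_powerset_insert hT', ← Finset.sum_add_distrib]
    refine Finset.sum_eq_zero fun R hR => ?_
    have h3 : j₁ ∉ R := fun h => hT' (Finset.mem_powerset.1 hR h)
    rw [Finset.card_insert_of_notMem h3, Finset.insert_idem]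
    ring
  simp only [mul_sub, Finset.sum_sub_distrib]
  rw [h2]
  ring

end MotMono
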