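import Pool.Agent.Lib.MP_4e5fcd_ag.Basic

open MvPolynomial

namespace MotMono

variable {N : ℕ} {J : Type} [Fintype J] [DecidableEq J]

/-- rank functions -/
structure H2Rk {J : Type} [DecidableEq J] (r : Finset J → ℕ) : Prop where
  zero : r ∅ = 0
  mono : ∀ A B, A ⊆ B → r A ≤ r B
  step : ∀ A j, r (insert j A) ≤ r A + 1
  sub : ∀ A B, r (A ∪ B) + r (A ∩ B) ≤ r A + r B

/-- the alternating sum -/
def h2t {J : Type} (r : Finset J → ℕ) (T : Finset J) : ℤ :=
  ∑ R ∈ T.powerset, (-1 : ℤ) ^ R.card * (r R : ℤ)

/-- contraction -/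
def h2c {J : Type} [DecidableEq J] (r : Finset J → ℕ) (e : J) (R : Finset J) : ℕ :=
  r (insert e R) - r {e}

theorem h2c_cast {J : Type} [DecidableEq J] {r : Finset J → ℕ} (hr : H2Rk r) (e : J)
    (R : Finset J) : ((h2c r e R : ℕ) : ℤ) = (r (insert e R) : ℤ) - (r {e} : ℤ) := by
  rw [h2c, Nat.cast_sub]
  exact hr.mono _ _ (by simp)

theorem h2c_rk {J : Type} [DecidableEq J] {r : Finset J → ℕ} (hr : H2Rk r) (e : J) :
    H2Rk (h2c r e) := by
  refine ⟨?_, ?_, ?_, ?_⟩
  · simp [h2c]
  · intro A B hAB
    exact Nat.sub_le_sub_right (hr.mono _ _ (Finset.insert_subset_insert e hAB)) _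
  · intro A j
    have h1 := hr.step (insert e A) j
    rw [Finset.insert_comm] at h1
    simp only [h2c]
    omega
  · intro A B
    have h1 := hr.sub (insert e A) (insert e B)
    have e1 : insert e A ∪ insert e B = insert e (A ∪ B) := by
      ext x; simp only [Finset.mem_union, Finset.mem_insert]; tauto
    have e2 : insert e A ∩ insert e B = insert e (A ∩ B) := by
      ext x; simp only [Finset.mem_inter, Finset.mem_insert]; tauto
    rw [e1, e2] at h1
    have h2 : r {e} ≤ r (insert e (A ∪ B)) := hr.mono _ _ (by simp)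
    have h3 : r {e} ≤ r (insert e (A ∩ B)) := hr.mono _ _ (by simp)
    have h4 : r {e} ≤ r (insert e A) := hr.mono _ _ (by simp)
    have h5 : r {e} ≤ r (insert e B) := hr.mono _ _ (by simp)
    simp only [h2c]
    omega

theorem h2t_insert {J : Type} [DecidableEq J] {r : Finset J → ℕ} (hr : H2Rk r) {e : J}
    {T : Finset J} (he : e ∉ T) (hT : T.Nonempty) :
    h2t r (insert e T) = h2t r T - h2t (h2c r e) T := by
  have h0 : ∑ R ∈ T.powerset, (-1 : ℤ) ^ R.card = 0 :=
    Finset.sum_powerset_neg_one_pow_card_of_nonempty hT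
  have h1 : h2t (h2c r e) T = ∑ R ∈ T.powerset, (-1 : ℤ) ^ R.card * (r (insert e R) : ℤ) := by
    have : h2t (h2c r e) T = ∑ R ∈ T.powerset, ((-1 : ℤ) ^ R.card * (r (insert e R) : ℤ) -
        (-1 : ℤ) ^ R.card * (r {e} : ℤ)) := by
      refine Finset.sum_congr rfl fun R _ => ?_
      rw [h2c_cast hr]
      ring
    rw [this, Finset.sum_sub_distrib, ← Finset.sum_mul, h0, zero_mul, sub_zero]
  rw [h1, h2t, Finset.sum_powerset_insert he, sub_eq_add_neg, ← Finset.sum_neg_distrib]
  congr 1
  refine Finset.sum_congr rfl fun R hR => ?_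
  have heR : e ∉ R := fun h => he (Finset.mem_powerset.1 hR h)
  rw [Finset.card_insert_of_notMem heR, pow_succ]
  ring

theorem h2_tutte {J : Type} [DecidableEq J] {r : Finset J → ℕ} (hr : H2Rk r) {e : J}
    {T : Finset J} (he : e ∉ T) (hrT : r (insert e T) = r T) (he1 : r {e} = 1)
    (hconn : ∀ A B : Finset J, A.Nonempty → B.Nonempty → Disjoint A B → A ∪ B = insert e T →
      r (insert e T) < r A + r B)
    {A B : Finset J} (hA : A.Nonempty) (hB : B.Nonempty) (hAB : Disjoint A B) (hABT : A ∪ B = T)
    (hrAB : r A + r B ≤ r T)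
    {C D : Finset J} (hC : C.Nonempty) (hD : D.Nonempty) (hCD : Disjoint C D) (hCDT : C ∪ D = T)
    (hrCD : h2c r e C + h2c r e D ≤ h2c r e T) : False := by
  have h1 : r {e} ≤ r (insert e C) := hr.mono _ _ (by simp)
  have h2 : r {e} ≤ r (insert e D) := hr.mono _ _ (by simp)
  have h3 : r {e} ≤ r (insert e T) := hr.mono _ _ (by simp)
  simp only [h2c] at hrCD
  have key : ∀ (A B C D : Finset J), Disjoint A B → A ∪ B = T → Disjoint C D → C ∪ D = T →
      r A + r B ≤ r T → r (insert e C) + r (insert e D) ≤ r T + 1 →
      (A ∩ C).Nonempty → (B ∩ D).Nonempty → False := by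
    intro A B C D hAB hABT hCD hCDT h4 h5 h6 h7
    have heA : e ∉ A := fun h => he (hABT ▸ Finset.mem_union_left _ h)
    have heB : e ∉ B := fun h => he (hABT ▸ Finset.mem_union_right _ h)
    have heC : e ∉ C := fun h => he (hCDT ▸ Finset.mem_union_left _ h)
    have heD : e ∉ D := fun h => he (hCDT ▸ Finset.mem_union_right _ h)
    have s1 := hr.sub A (insert e C)
    have s2 := hr.sub B (insert e D)
    have i1 : A ∩ insert e C = A ∩ C := Finset.inter_insert_of_notMem heA
    have i2 : B ∩ insert e D = B ∩ D := Finset.inter_insert_of_notMem heB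
    rw [i1] at s1
    rw [i2] at s2
    have hmem : ∀ x, x ∈ T ↔ x ∈ A ∨ x ∈ B := fun x => by rw [← hABT, Finset.mem_union]
    have hmem2 : ∀ x, x ∈ T ↔ x ∈ C ∨ x ∈ D := fun x => by rw [← hCDT, Finset.mem_union]
    have hdAB : ∀ x, x ∈ A → x ∈ B → False := fun x hx hx' =>
      (Finset.disjoint_left.1 hAB hx) hx'
    have hdCD : ∀ x, x ∈ C → x ∈ D → False := fun x hx hx' =>
      (Finset.disjoint_left.1 hCD hx) hx'
    have c1 := hconn (A ∪ insert e C) (B ∩ D) ⟨e, by simp⟩ h7 (by
        rw [Finset.disjoint_left]
        intro x hx hx'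
        rw [Finset.mem_union, Finset.mem_insert] at hx
        rw [Finset.mem_inter] at hx'
        rcases hx with hx | hx | hx
        · exact hdAB x hx hx'.1
        · exact heB (hx ▸ hx'.1)
        · exact hdCD x hx hx'.2) (by
        ext x
        have := hmem x
        have := hmem2 x
        simp only [Finset.mem_union, Finset.mem_insert, Finset.mem_inter]
        tauto)
    have c2 := hconn (B ∪ insert e D) (A ∩ C) ⟨e, by simp⟩ h6 (by
        rw [Finset.disjoint_left]
        intro x hx hx'
        rw [Finset.mem_union, Finset.mem_insert] at hx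
        rw [Finset.mem_inter] at hx'
        rcases hx with hx | hx | hx
        · exact hdAB x hx'.1 hx
        · exact heA (hx ▸ hx'.1)
        · exact hdCD x hx'.2 hx) (by
        ext x
        have := hmem x
        have := hmem2 x
        simp only [Finset.mem_union, Finset.mem_insert, Finset.mem_inter]
        tauto)
    omega
  have h5 : r (insert e C) + r (insert e D) ≤ r T + 1 := by omega
  have k1 := key A B C D hAB hABT hCD hCDT hrAB h5
  have k2 := key A B D C hAB hABT hCD.symm (by rw [Finset.union_comm]; exact hCDT) hrAB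
    (by omega)
  obtain ⟨a, ha⟩ := hA
  obtain ⟨b, hb⟩ := hB
  obtain ⟨c, hc⟩ := hC
  obtain ⟨d, hd⟩ := hD
  have haCD : a ∈ C ∨ a ∈ D := by
    rw [← Finset.mem_union, hCDT, ← hABT]
    exact Finset.mem_union_left _ ha
  have hbCD : b ∈ C ∨ b ∈ D := by
    rw [← Finset.mem_union, hCDT, ← hABT]
    exact Finset.mem_union_right _ hb
  have hcAB : c ∈ A ∨ c ∈ B := by
    rw [← Finset.mem_union, hABT, ← hCDT]
    exact Finset.mem_union_left _ hc
  have hdAB : d ∈ A ∨ d ∈ B := by
    rw [← Finset.mem_union, hABT, ← hCDT]
    exact Finset.mem_union_right _ hd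
  have nAC : ∀ x, x ∈ A → x ∈ C → (A ∩ C).Nonempty := fun x h h' => ⟨x, Finset.mem_inter.2 ⟨h, h'⟩⟩
  have nAD : ∀ x, x ∈ A → x ∈ D → (A ∩ D).Nonempty := fun x h h' => ⟨x, Finset.mem_inter.2 ⟨h, h'⟩⟩
  have nBC : ∀ x, x ∈ B → x ∈ C → (B ∩ C).Nonempty := fun x h h' => ⟨x, Finset.mem_inter.2 ⟨h, h'⟩⟩
  have nBD : ∀ x, x ∈ B → x ∈ D → (B ∩ D).Nonempty := fun x h h' => ⟨x, Finset.mem_inter.2 ⟨h, h'⟩⟩
  rcases haCD with ha' | ha' <;> rcases hbCD with hb' | hb' <;> rcases hcAB with hc' | hc' <;>
    rcases hdAB with hd' | hd' <;>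
    first
      | exact k1 (nAC _ ha ha') (nBD _ hb hb')
      | exact k2 (nAD _ ha ha') (nBC _ hb hb')
      | exact k1 (nAC _ ha ha') (nBD _ hd' hd)
      | exact k2 (nAD _ hd' hd) (nBC _ hb hb')
      | exact k1 (nAC _ hc' hc) (nBD _ hb hb')
      | exact k2 (nAD _ ha ha') (nBC _ hc' hc)

theorem h2_main {J : Type} [DecidableEq J] (n : ℕ) : ∀ (T : Finset J), T.card = n →
    ∀ r : Finset J → ℕ, H2Rk r → 0 ≤ (-1 : ℤ) ^ (r T) * h2t r T ∧
      (T.Nonempty → (∀ j ∈ T, r {j} = 1) →
        (∀ A B : Finset J, A.Nonempty → B.Nonempty → Disjoint A B → A ∪ B = T →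
          r T < r A + r B) → 0 < (-1 : ℤ) ^ (r T) * h2t r T) := by
  induction n with
  | zero =>
    intro T hT r hr
    rw [Finset.card_eq_zero] at hT
    subst hT
    refine ⟨?_, fun h => absurd h (by simp)⟩
    simp [h2t, hr.zero]
  | succ n ih =>
    intro T hT r hr
    obtain ⟨e, T', he, rfl, hT'⟩ := Finset.card_eq_succ.1 hT
    have hle1 : r {e} ≤ 1 := by
      have := hr.step ∅ e
      rw [hr.zero] at this
      simpa using this
    rcases T'.eq_empty_or_nonempty with h0 | hne
    · subst h0
      have e1 : h2t r (insert e ∅) = -(r {e} : ℤ) := by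
        rw [h2t, Finset.sum_powerset_insert (by simp)]
        simp [hr.zero]
      have e2 : (insert e ∅ : Finset J) = {e} := rfl
      rw [e1, e2]
      refine ⟨?_, fun _ h1 _ => ?_⟩
      · interval_cases h : r {e} <;> simp
      · rw [h1 e (by simp)]
        simp
    · have hins := h2t_insert hr he hne
      have hc := h2c_rk hr e
      have hcases : r (insert e T') = r T' ∨ r (insert e T') = r T' + 1 := by
        have h1 := hr.step T' e
        have h2 := hr.mono T' (insert e T') (Finset.subset_insert _ _)
        omega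
      rcases Nat.eq_zero_or_pos (r {e}) with hl | hl
      · -- a loop
        have h1 : h2t (h2c r e) T' = h2t r T' := by
          refine Finset.sum_congr rfl fun R hR => ?_
          have h2 := hr.sub {e} R
          have h3 := hr.mono R (insert e R) (Finset.subset_insert _ _)
          rw [← Finset.insert_eq] at h2
          have h4 : h2c r e R = r R := by
            simp only [h2c]
            omega
          rw [h4]
        rw [hins, h1, sub_self, mul_zero]
        refine ⟨le_rfl, fun _ h2 _ => ?_⟩
        have := h2 e (by simp)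
        omega
      · have hl1 : r {e} = 1 := by omega
        rcases hcases with hcase | hcase
        · -- neither loop nor coloop
          have hrT1 : 1 ≤ r (insert e T') := by
            rw [← hl1]
            exact hr.mono _ _ (by simp)
          have hrc : h2c r e T' + 1 = r T' := by
            simp only [h2c]
            omega
          have hbeta : (-1 : ℤ) ^ (r (insert e T')) * h2t r (insert e T') =
              (-1 : ℤ) ^ (r T') * h2t r T' + (-1 : ℤ) ^ (h2c r e T') * h2t (h2c r e) T' := by
            rw [hins, hcase, mul_sub]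
            have : (-1 : ℤ) ^ (r T') = -(-1 : ℤ) ^ (h2c r e T') := by
              rw [← hrc, pow_succ]
              ring
            rw [sub_eq_add_neg, ← neg_mul]
            congr 2
            rw [this, neg_neg]
          obtain ⟨i1, i2⟩ := ih T' hT' r hr
          obtain ⟨i3, i4⟩ := ih T' hT' (h2c r e) hc
          rw [hbeta]
          refine ⟨add_nonneg i1 i3, fun _ hloop hconn => ?_⟩
          by_cases hP : ∀ A B : Finset J, A.Nonempty → B.Nonempty → Disjoint A B → A ∪ B = T' →
              r T' < r A + r B
          · have := i2 hne (fun j hj => hloop j (Finset.mem_insert_of_mem hj)) hP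
            linarith
          · by_cases hP' : ∀ A B : Finset J, A.Nonempty → B.Nonempty → Disjoint A B →
                A ∪ B = T' → h2c r e T' < h2c r e A + h2c r e B
            · -- loopless, since there are at least two elements
              push Not at hP
              obtain ⟨A, B, hA, hB, hAB, hABT, _⟩ := hP
              have hloop' : ∀ j ∈ T', h2c r e {j} = 1 := by
                intro j hj
                have h1 := hc.step ∅ j
                rw [hc.zero] at h1
                have h1' : h2c r e {j} ≤ 1 := by simpa using h1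
                by_contra hne1
                have hj0 : h2c r e {j} = 0 := by omega
                have hrest : (T'.erase j).Nonempty := by
                  rw [← Finset.card_pos, Finset.card_erase_of_mem hj]
                  have h3 : A.card + B.card = T'.card := by
                    rw [← hABT, Finset.card_union_of_disjoint hAB]
                  have h4 := hA.card_pos
                  have h5 := hB.card_pos
                  omega
                have h6 := hP' {j} (T'.erase j) (by simp) hrest (by simp) (by
                  rw [← Finset.insert_eq, Finset.insert_erase hj])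
                have h7 := hc.mono (T'.erase j) T' (Finset.erase_subset _ _)
                omega
              have := i4 hne hloop' hP'
              linarith
            · exfalso
              push Not at hP hP'
              obtain ⟨A, B, hA, hB, hAB, hABT, h1⟩ := hP
              obtain ⟨C, D, hC, hD, hCD, hCDT, h2⟩ := hP'
              exact h2_tutte hr he hcase hl1 hconn hA hB hAB hABT h1 hC hD hCD hCDT h2
        · -- a coloop
          have h1 : h2t (h2c r e) T' = h2t r T' := by
            refine Finset.sum_congr rfl fun R hR => ?_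
            have hRT : R ⊆ T' := Finset.mem_powerset.1 hR
            have h2 := hr.sub (insert e R) T'
            have e1 : insert e R ∪ T' = insert e T' := by
              rw [Finset.insert_union, Finset.union_eq_right.2 hRT]
            have e2 : insert e R ∩ T' = R := by
              rw [Finset.insert_inter_of_notMem he, Finset.inter_eq_left.2 hRT]
            rw [e1, e2] at h2
            have h3 := hr.step R e
            have h4 : h2c r e R = r R := by
              simp only [h2c]
              omega
            rw [h4]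
          rw [hins, h1, sub_self, mul_zero]
          refine ⟨le_rfl, fun _ _ hconn => ?_⟩
          have := hconn {e} T' (by simp) hne (by simpa using he) (by rw [← Finset.insert_eq])
          omega

/-- H2: Crapo's theorem -/
theorem crapo_ne_zero (r : Finset J → ℕ) (h0 : r ∅ = 0) (hmono : ∀ A B, A ⊆ B → r A ≤ r B)
    (hstep : ∀ A j, r (insert j A) ≤ r A + 1)
    (hsub : ∀ A B, r (A ∪ B) + r (A ∩ B) ≤ r A + r B) (T : Finset J) (hT : T.Nonempty)
    (hloop : ∀ j ∈ T, r {j} = 1)
    (hconn : ∀ A B : Finset J, A.Nonempty → B.Nonempty → Disjoint A B → A ∪ B = T →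
      r T < r A + r B) :
    ∑ R ∈ T.powerset, (-1 : ℤ) ^ R.card * (r R : ℤ) ≠ 0 := by
  have h := (h2_main T.card T rfl r ⟨h0, hmono, hstep, hsub⟩).2 hT hloop hconn
  intro hz
  rw [h2t, hz, mul_zero] at h
  exact absurd h (lt_irrefl _)

end MotMono
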