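import Pool.Agent.Lib.MP_4e5fcd_ag.H1
import Pool.Agent.Lib.MP_4e5fcd_ag.H2

open MvPolynomial

namespace MotMono

variable {N : ℕ} {J : Type} [Fintype J] [DecidableEq J]

theorem h3_KK_empty (lam : J → Fin N → ℂ) : KK lam ∅ = ⊤ := by
  rw [eq_top_iff]
  intro v _
  show ∀ j ∈ (∅ : Finset J), lam j ⬝ᵥ v = 0
  simp

theorem h3_KK_anti (lam : J → Fin N → ℂ) {A B : Finset J} (h : A ⊆ B) : KK lam B ≤ KK lam A :=
  fun _ hv j hj => hv j (h hj)

theorem h3_KK_union (lam : J → Fin N → ℂ) (A B : Finset J) :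
    KK lam (A ∪ B) = KK lam A ⊓ KK lam B := by
  apply le_antisymm
  · exact le_inf (h3_KK_anti lam Finset.subset_union_left) (h3_KK_anti lam Finset.subset_union_right)
  · rintro v ⟨h1, h2⟩ j hj
    rw [Finset.mem_union] at hj
    rcases hj with hj | hj
    · exact h1 j hj
    · exact h2 j hj

theorem h3_finrank_le (U : Submodule ℂ (Fin N → ℂ)) (lam : J → Fin N → ℂ) (R : Finset J) :
    Module.finrank ℂ (U ⊓ KK lam R : Submodule ℂ (Fin N → ℂ)) ≤ Module.finrank ℂ U :=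
  Submodule.finrank_mono inf_le_left

theorem h3_rk_empty (U : Submodule ℂ (Fin N → ℂ)) (lam : J → Fin N → ℂ) : rk U lam ∅ = 0 := by
  rw [rk, h3_KK_empty, inf_top_eq, Nat.sub_self]

theorem h3_rk_mono (U : Submodule ℂ (Fin N → ℂ)) (lam : J → Fin N → ℂ) (A B : Finset J)
    (h : A ⊆ B) : rk U lam A ≤ rk U lam B := by
  unfold rk
  exact Nat.sub_le_sub_left (Submodule.finrank_mono (inf_le_inf_left U (h3_KK_anti lam h))) _

theorem h3_finrank_ker (V : Submodule ℂ (Fin N → ℂ)) (f : (Fin N → ℂ) →ₗ[ℂ] ℂ) :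
    Module.finrank ℂ V ≤ Module.finrank ℂ (V ⊓ LinearMap.ker f : Submodule ℂ (Fin N → ℂ)) + 1 := by
  have h1 := LinearMap.finrank_range_add_finrank_ker (f.domRestrict V)
  have h2 : Module.finrank ℂ (LinearMap.range (f.domRestrict V)) ≤ 1 := by
    refine (Submodule.finrank_le _).trans ?_
    rw [Module.finrank_self]
  have h3 : Module.finrank ℂ (LinearMap.ker (f.domRestrict V)) =
      Module.finrank ℂ (V ⊓ LinearMap.ker f : Submodule ℂ (Fin N → ℂ)) := by
    have e : (V ⊓ LinearMap.ker f : Submodule ℂ (Fin N → ℂ)) =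
        (LinearMap.ker (f.domRestrict V)).map V.subtype := by
      ext v
      constructor
      · rintro ⟨hv, hf⟩
        exact ⟨⟨v, hv⟩, hf, rfl⟩
      · rintro ⟨⟨w, hw⟩, hf, rfl⟩
        exact ⟨hw, hf⟩
    rw [e]
    exact (LinearEquiv.finrank_eq (Submodule.equivMapOfInjective _ V.injective_subtype _))
  omega

/-- the linear form `v ↦ lam · v` -/
noncomputable def h3form (a : Fin N → ℂ) : (Fin N → ℂ) →ₗ[ℂ] ℂ where
  toFun := fun v => a ⬝ᵥ v
  map_add' := fun v w => dotProduct_add _ _ _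
  map_smul' := fun c v => by rw [dotProduct_smul]; rfl

theorem h3_rk_step (U : Submodule ℂ (Fin N → ℂ)) (lam : J → Fin N → ℂ) (A : Finset J) (j : J) :
    rk U lam (insert j A) ≤ rk U lam A + 1 := by
  have h1 : (U ⊓ KK lam (insert j A) : Submodule ℂ (Fin N → ℂ)) =
      (U ⊓ KK lam A) ⊓ LinearMap.ker (h3form (lam j)) := by
    ext v
    constructor
    · rintro ⟨h1, h2⟩
      refine ⟨⟨h1, fun i hi => h2 i (Finset.mem_insert_of_mem hi)⟩, ?_⟩
      exact h2 j (Finset.mem_insert_self _ _)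
    · rintro ⟨⟨h1, h2⟩, h3⟩
      refine ⟨h1, fun i hi => ?_⟩
      rw [Finset.mem_insert] at hi
      rcases hi with rfl | hi
      · exact h3
      · exact h2 i hi
  have h2 := h3_finrank_ker (U ⊓ KK lam A) (h3form (lam j))
  rw [← h1] at h2
  unfold rk
  omega

theorem h3_dims (U : Submodule ℂ (Fin N → ℂ)) (lam : J → Fin N → ℂ) (A B : Finset J) :
    Module.finrank ℂ ((U ⊓ KK lam A) ⊔ (U ⊓ KK lam B) : Submodule ℂ (Fin N → ℂ)) +
      Module.finrank ℂ (U ⊓ KK lam (A ∪ B) : Submodule ℂ (Fin N → ℂ)) =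
    Module.finrank ℂ (U ⊓ KK lam A : Submodule ℂ (Fin N → ℂ)) +
      Module.finrank ℂ (U ⊓ KK lam B : Submodule ℂ (Fin N → ℂ)) := by
  have h := Submodule.finrank_sup_add_finrank_inf_eq (U ⊓ KK lam A) (U ⊓ KK lam B)
  have e : (U ⊓ KK lam A) ⊓ (U ⊓ KK lam B) = U ⊓ KK lam (A ∪ B) := by
    rw [h3_KK_union, ← inf_inf_distrib_left]
  rw [e] at h
  exact h

theorem h3_rk_sub (U : Submodule ℂ (Fin N → ℂ)) (lam : J → Fin N → ℂ) (A B : Finset J) :
    rk U lam (A ∪ B) + rk U lam (A ∩ B) ≤ rk U lam A + rk U lam B := by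
  have h1 := h3_dims U lam A B
  have h2 : Module.finrank ℂ ((U ⊓ KK lam A) ⊔ (U ⊓ KK lam B) : Submodule ℂ (Fin N → ℂ)) ≤
      Module.finrank ℂ (U ⊓ KK lam (A ∩ B) : Submodule ℂ (Fin N → ℂ)) := by
    refine Submodule.finrank_mono (sup_le ?_ ?_)
    · exact inf_le_inf_left U (h3_KK_anti lam Finset.inter_subset_left)
    · exact inf_le_inf_left U (h3_KK_anti lam Finset.inter_subset_right)
  have h3 := h3_finrank_le U lam A
  have h4 := h3_finrank_le U lam B
  have h5 := h3_finrank_le U lam (A ∪ B)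
  have h6 := h3_finrank_le U lam (A ∩ B)
  unfold rk
  omega

/-- H3 -/
theorem chi_Bset_ne_zero (χ : K0 →+* ℤ) (hχ : IsEulerChar χ)
    (W : J → Submodule ℂ (Fin N → ℂ)) (S : Finset J) (x : Fin N → ℂ) (lam : J → Fin N → ℂ)
    (hlam : ∀ j ∈ S, ∀ w ∈ W j, lam j ⬝ᵥ w = 0) (hx : ∀ j ∈ S, lam j ⬝ᵥ x = 1)
    (hxS : ∀ A B : Finset J, A.Nonempty → B.Nonempty →
      Disjoint A B → A ∪ B = S → x ∉ VS W A ⊔ VS W B) (j₁ : J) (hj₁ : j₁ ∈ S) :
    χ (cls (Bset (Us W S x lam) lam S j₁)) ≠ 0 := by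
  set U := Us W S x lam with hU
  have hmemU : ∀ v, v ∈ U ↔ ∀ j ∈ S, v - (lam j ⬝ᵥ v) • x ∈ W j := by
    intro v
    rw [hU, Us, Submodule.mem_iInf]
    refine forall_congr' fun j => ?_
    rw [Submodule.mem_iInf]
    rfl
  have hxU : x ∈ U := by
    rw [hmemU]
    intro j hj
    rw [hx j hj, one_smul, sub_self]
    exact (W j).zero_mem
  have hVle : ∀ A : Finset J, A ⊆ S → U ⊓ KK lam A ≤ VS W A := by
    rintro A hA v ⟨h1, h2⟩
    unfold VS
    rw [Submodule.mem_iInf]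
    intro j
    rw [Submodule.mem_iInf]
    intro hj
    have h3 := (hmemU v).1 h1 j (hA hj)
    have h4 : lam j ⬝ᵥ v = 0 := h2 j hj
    rwa [h4, zero_smul, sub_zero] at h3
  rw [chi_Bset χ hχ U lam S j₁ hj₁, neg_ne_zero]
  refine crapo_ne_zero (rk U lam) (h3_rk_empty U lam) (h3_rk_mono U lam) (h3_rk_step U lam)
    (h3_rk_sub U lam) S ⟨j₁, hj₁⟩ ?_ ?_
  · intro j hj
    have h1 : rk U lam {j} ≤ 1 := by
      have := h3_rk_step U lam ∅ j
      rw [h3_rk_empty] at this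
      simpa using this
    have h2 : U ⊓ KK lam {j} < U := by
      refine lt_of_le_of_ne inf_le_left fun h => ?_
      have h3 : x ∈ U ⊓ KK lam {j} := by rw [h]; exact hxU
      have h4 : lam j ⬝ᵥ x = 0 := h3.2 j (Finset.mem_singleton_self j)
      rw [hx j hj] at h4
      exact one_ne_zero h4
    have h3 := Submodule.finrank_lt_finrank_of_lt h2
    have h4 : 0 < rk U lam {j} := by
      unfold rk
      omega
    omega
  · intro A B hA hB hAB hABS
    by_contra hcon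
    push Not at hcon
    have h1 := h3_dims U lam A B
    rw [hABS] at h1
    have h3 := h3_finrank_le U lam A
    have h4 := h3_finrank_le U lam B
    have h5 := h3_finrank_le U lam S
    unfold rk at hcon
    have h6 : Module.finrank ℂ U ≤
        Module.finrank ℂ ((U ⊓ KK lam A) ⊔ (U ⊓ KK lam B) : Submodule ℂ (Fin N → ℂ)) := by
      omega
    have h7 : (U ⊓ KK lam A) ⊔ (U ⊓ KK lam B) = U :=
      Submodule.eq_of_le_of_finrank_le (sup_le inf_le_left inf_le_left) h6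
    have h8 : x ∈ (U ⊓ KK lam A) ⊔ (U ⊓ KK lam B) := by
      rw [h7]
      exact hxU
    exact hxS A B hA hB hAB hABS (sup_le_sup (hVle A (hABS ▸ Finset.subset_union_left))
      (hVle B (hABS ▸ Finset.subset_union_right)) h8)

end MotMono
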