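import Pool.Agent.Lib.MP_4e5fcd_ag.P3

open MvPolynomial

namespace MotMono

variable {N : ℕ} {J : Type} [Fintype J] [DecidableEq J]

private theorem p4_LL : algebraMap K0 MC LL = ((Lu : MCˣ) : MC) := by
  unfold Lu
  rw [IsUnit.unit_spec]

private theorem p4_mem_VS (W : J → Submodule ℂ (Fin N → ℂ)) (S : Finset J) (v : Fin N → ℂ) :
    v ∈ VS W S ↔ ∀ j ∈ S, v ∈ W j := by
  unfold VS
  simp only [Submodule.mem_iInf]

/-- P4a -/
theorem gh_self (W : J → Submodule ℂ (Fin N → ℂ)) (S : Finset J) :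
    gh W S S = ((Lu ^ (-((N - Module.finrank ℂ (VS W S) : ℕ) : ℤ)) : MCˣ) : MC) := by
  have h1 : GS W S S = (VS W S : Set (Fin N → ℂ)) := by
    ext v
    constructor
    · rintro ⟨h, -⟩
      exact (p4_mem_VS W S v).mpr h
    · intro h
      exact ⟨(p4_mem_VS W S v).mp h, fun j hj hj' => absurd hj hj'⟩
  have h2 : Module.finrank ℂ (VS W S) ≤ N := by
    have := Submodule.finrank_le (VS W S)
    rwa [Module.finrank_fin_fun] at this
  unfold gh
  rw [h1, cls_submodule, map_pow, p4_LL, ← Units.val_pow_eq_pow_val, ← Units.val_mul,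
    ← zpow_natCast Lu, ← zpow_add]
  congr 2
  push_cast [h2]
  ring

private theorem p4_section (W : J → Submodule ℂ (Fin N → ℂ)) (A B : Finset J)
    (htop : VS W A ⊔ VS W B = ⊤) :
    ∃ s : (Fin N → ℂ) →ₗ[ℂ] (Fin N → ℂ), (∀ x, s x ∈ VS W A) ∧ ∀ x, x - s x ∈ VS W B := by
  set φ : (VS W A × VS W B) →ₗ[ℂ] (Fin N → ℂ) :=
    LinearMap.coprod (VS W A).subtype (VS W B).subtype with hφ
  have hr : LinearMap.range φ = ⊤ := by
    rw [hφ, LinearMap.range_coprod, Submodule.range_subtype, Submodule.range_subtype, htop]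
  obtain ⟨g, hg⟩ := φ.exists_rightInverse_of_surjective hr
  refine ⟨(VS W A).subtype ∘ₗ LinearMap.fst ℂ _ _ ∘ₗ g, fun x => ?_, fun x => ?_⟩
  · exact (g x).1.2
  · have h1 : φ (g x) = x := by
      rw [← LinearMap.comp_apply, hg, LinearMap.id_apply]
    have h2 : ((g x).1 : Fin N → ℂ) + ((g x).2 : Fin N → ℂ) = x := by
      rw [hφ, LinearMap.coprod_apply] at h1
      exact h1
    have h3 : x - ((VS W A).subtype ∘ₗ LinearMap.fst ℂ _ _ ∘ₗ g) x = ((g x).2 : Fin N → ℂ) := by
      change x - ((g x).1 : Fin N → ℂ) = _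
      rw [sub_eq_iff_eq_add, add_comm]
      exact h2.symm
    rw [h3]
    exact (g x).2.2

private theorem p4_GS_add (W : J → Submodule ℂ (Fin N → ℂ)) (A A' : Finset J) (hA : A' ⊆ A)
    (v x : Fin N → ℂ) (hx : x ∈ VS W A) : v + x ∈ GS W A A' ↔ v ∈ GS W A A' := by
  have h : ∀ j ∈ A, (v + x ∈ W j ↔ v ∈ W j) := fun j hj =>
    (W j).add_mem_iff_left ((p4_mem_VS W A x).mp hx j hj)
  constructor
  · rintro ⟨h1, h2⟩
    exact ⟨fun j hj => (h j (hA hj)).mp (h1 j hj), fun j hj hj' hv =>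
      h2 j hj hj' ((h j hj).mpr hv)⟩
  · rintro ⟨h1, h2⟩
    exact ⟨fun j hj => (h j (hA hj)).mpr (h1 j hj), fun j hj hj' hv =>
      h2 j hj hj' ((h j hj).mp hv)⟩

private theorem p4_GS_union (W : J → Submodule ℂ (Fin N → ℂ)) (A B A' B' : Finset J)
    (hAB : Disjoint A B) (hA : A' ⊆ A) (hB : B' ⊆ B) (v : Fin N → ℂ) :
    v ∈ GS W (A ∪ B) (A' ∪ B') ↔ v ∈ GS W A A' ∧ v ∈ GS W B B' := by
  have hdis : ∀ j, j ∈ A → j ∉ B := fun j h1 h2 => Finset.disjoint_left.mp hAB h1 h2
  constructor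
  · rintro ⟨h1, h2⟩
    refine ⟨⟨fun j hj => h1 j (Finset.mem_union_left _ hj), fun j hj hj' => ?_⟩,
      ⟨fun j hj => h1 j (Finset.mem_union_right _ hj), fun j hj hj' => ?_⟩⟩
    · refine h2 j (Finset.mem_union_left _ hj) fun hu => ?_
      rcases Finset.mem_union.mp hu with h | h
      · exact hj' h
      · exact hdis j hj (hB h)
    · refine h2 j (Finset.mem_union_right _ hj) fun hu => ?_
      rcases Finset.mem_union.mp hu with h | h
      · exact hdis j (hA h) hj
      · exact hj' h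
  · rintro ⟨⟨h1, h2⟩, ⟨h3, h4⟩⟩
    refine ⟨fun j hj => ?_, fun j hj hj' => ?_⟩
    · rcases Finset.mem_union.mp hj with h | h
      · exact h1 j h
      · exact h3 j h
    · rcases Finset.mem_union.mp hj with h | h
      · exact h2 j h fun hh => hj' (Finset.mem_union_left _ hh)
      · exact h4 j h fun hh => hj' (Finset.mem_union_right _ hh)

private theorem p4_cls (W : J → Submodule ℂ (Fin N → ℂ)) (A B A' B' : Finset J)
    (hAB : Disjoint A B) (htop : VS W A ⊔ VS W B = ⊤) (hA : A' ⊆ A) (hB : B' ⊆ B) :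
    cls (GS W A A') * cls (GS W B B') = cls (GS W (A ∪ B) (A' ∪ B')) * LL ^ N := by
  obtain ⟨s, hs1, hs2⟩ := p4_section W A B htop
  have hu : cls (Set.univ : Set (Fin N → ℂ)) = LL ^ N := by
    rw [cls_univ, Fintype.card_fin]
  rw [← hu, ← cls_prodSet (constr_GS W _ _) (constr_GS W _ _),
    ← cls_prodSet (constr_GS W _ _) constr_univ]
  refine cls_iso (Constr.prodSet (constr_GS W _ _) (constr_GS W _ _))
    (Constr.prodSet (constr_GS W _ _) constr_univ) ?_
  set e := LinearEquiv.sumArrowLequivProdArrow (Fin N) (Fin N) ℂ ℂ with he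
  set F : ((Fin N → ℂ) × (Fin N → ℂ)) →ₗ[ℂ] ((Fin N → ℂ) × (Fin N → ℂ)) :=
    LinearMap.prod (LinearMap.fst ℂ _ _ + s ∘ₗ (LinearMap.snd ℂ _ _ - LinearMap.fst ℂ _ _))
      (LinearMap.snd ℂ _ _ - LinearMap.fst ℂ _ _) with hF
  set G : ((Fin N → ℂ) × (Fin N → ℂ)) →ₗ[ℂ] ((Fin N → ℂ) × (Fin N → ℂ)) :=
    LinearMap.prod (LinearMap.fst ℂ _ _ - s ∘ₗ LinearMap.snd ℂ _ _)
      (LinearMap.fst ℂ _ _ + LinearMap.snd ℂ _ _ - s ∘ₗ LinearMap.snd ℂ _ _) with hG
  have hFa : ∀ u w, F (u, w) = (u + s (w - u), w - u) := fun u w => by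
    simp [hF]
  have hGa : ∀ v d, G (v, d) = (v - s d, v + d - s d) := fun v d => by
    simp [hG]
  have hGF : ∀ p, G (F p) = p := by
    rintro ⟨u, w⟩
    rw [hFa, hGa]
    ext i
    · simp
    · simp
      ring
  have hFG : ∀ p, F (G p) = p := by
    rintro ⟨v, d⟩
    rw [hGa, hFa]
    have h1 : v + d - s d - (v - s d) = d := by abel
    rw [h1]
    ext i <;> simp
  refine RegIso.linear (e.symm.toLinearMap ∘ₗ F ∘ₗ e.toLinearMap)
    (e.symm.toLinearMap ∘ₗ G ∘ₗ e.toLinearMap) 0 0 ?_ ?_ ?_ ?_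
  · rintro z ⟨h1, h2⟩
    rw [add_zero]
    set u : Fin N → ℂ := fun i => z (Sum.inl i) with hu
    set w : Fin N → ℂ := fun i => z (Sum.inr i) with hw
    have hez : e z = (u, w) := rfl
    have h3 : (e.symm.toLinearMap ∘ₗ F ∘ₗ e.toLinearMap) z = e.symm (u + s (w - u), w - u) := by
      change e.symm (F (e z)) = _
      rw [hez, hFa]
    rw [h3]
    refine ⟨?_, Set.mem_univ _⟩
    change u + s (w - u) ∈ _
    rw [p4_GS_union W A B A' B' hAB hA hB]
    refine ⟨(p4_GS_add W A A' hA u _ (hs1 _)).mpr h1, ?_⟩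
    have h4 : u + s (w - u) = w + -((w - u) - s (w - u)) := by abel
    rw [h4]
    exact (p4_GS_add W B B' hB w _ ((VS W B).neg_mem (hs2 _))).mpr h2
  · rintro z ⟨h1, -⟩
    rw [add_zero]
    set v : Fin N → ℂ := fun i => z (Sum.inl i) with hv
    set d : Fin N → ℂ := fun i => z (Sum.inr i) with hd
    have hez : e z = (v, d) := rfl
    have h3 : (e.symm.toLinearMap ∘ₗ G ∘ₗ e.toLinearMap) z = e.symm (v - s d, v + d - s d) := by
      change e.symm (G (e z)) = _
      rw [hez, hGa]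
    rw [h3]
    have h1' : v ∈ GS W (A ∪ B) (A' ∪ B') := h1
    rw [p4_GS_union W A B A' B' hAB hA hB] at h1'
    refine ⟨?_, ?_⟩
    · change v - s d ∈ _
      rw [sub_eq_add_neg]
      exact (p4_GS_add W A A' hA v _ ((VS W A).neg_mem (hs1 _))).mpr h1'.1
    · change v + d - s d ∈ _
      rw [add_sub_assoc]
      exact (p4_GS_add W B B' hB v _ (hs2 _)).mpr h1'.2
  · intro z _
    rw [add_zero, add_zero]
    change e.symm (G (e (e.symm (F (e z))))) = z
    rw [LinearEquiv.apply_symm_apply, hGF, LinearEquiv.symm_apply_apply]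
  · intro z _
    rw [add_zero, add_zero]
    change e.symm (F (e (e.symm (G (e z))))) = z
    rw [LinearEquiv.apply_symm_apply, hFG, LinearEquiv.symm_apply_apply]

/-- P4b -/
theorem gh_mul (W : J → Submodule ℂ (Fin N → ℂ)) (A B A' B' : Finset J) (hAB : Disjoint A B)
    (htop : VS W A ⊔ VS W B = ⊤) (hA : A' ⊆ A) (hB : B' ⊆ B) :
    gh W (A ∪ B) (A' ∪ B') = gh W A A' * gh W B B' := by
  have h := congrArg (algebraMap K0 MC) (p4_cls W A B A' B' hAB htop hA hB)
  rw [map_mul, map_mul, map_pow, p4_LL] at h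
  unfold gh
  have e : (((Lu ^ (-(N : ℤ)) : MCˣ) : MC)) * ((Lu : MCˣ) : MC) ^ N = 1 := by
    rw [← Units.val_pow_eq_pow_val, ← Units.val_mul, ← zpow_natCast Lu, ← zpow_add]
    simp
  calc algebraMap K0 MC (cls (GS W (A ∪ B) (A' ∪ B'))) * ((Lu ^ (-(N : ℤ)) : MCˣ) : MC)
      = algebraMap K0 MC (cls (GS W (A ∪ B) (A' ∪ B'))) *
        ((((Lu ^ (-(N : ℤ)) : MCˣ) : MC)) * ((Lu : MCˣ) : MC) ^ N) *
        ((Lu ^ (-(N : ℤ)) : MCˣ) : MC) := by rw [e, mul_one]
    _ = (algebraMap K0 MC (cls (GS W (A ∪ B) (A' ∪ B'))) * ((Lu : MCˣ) : MC) ^ N) *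
        ((Lu ^ (-(N : ℤ)) : MCˣ) : MC) * ((Lu ^ (-(N : ℤ)) : MCˣ) : MC) := by ring
    _ = _ := by rw [← h]; ring

private theorem p4_VS_anti (W : J → Submodule ℂ (Fin N → ℂ)) {A A' : Finset J} (h : A' ⊆ A) :
    VS W A ≤ VS W A' := by
  intro v hv
  rw [p4_mem_VS] at hv ⊢
  exact fun j hj => hv j (h hj)

private theorem p4_sum {M : Type*} [AddCommMonoid M] (A B : Finset J) (hAB : Disjoint A B)
    (f : Finset J → M) :
    ∑ S' ∈ (A ∪ B).powerset, f S' = ∑ p ∈ A.powerset ×ˢ B.powerset, f (p.1 ∪ p.2) := by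
  refine Finset.sum_nbij' (fun S' => (S' ∩ A, S' ∩ B)) (fun p => p.1 ∪ p.2) ?_ ?_ ?_ ?_ ?_
  · intro S' _
    simp only [Finset.mem_product, Finset.mem_powerset]
    exact ⟨Finset.inter_subset_right, Finset.inter_subset_right⟩
  · rintro ⟨A', B'⟩ hp
    simp only [Finset.mem_product, Finset.mem_powerset] at hp ⊢
    exact Finset.union_subset_union hp.1 hp.2
  · intro S' hS'
    rw [Finset.mem_powerset] at hS'
    simp only
    rw [← Finset.inter_union_distrib_left, Finset.inter_eq_left.mpr hS']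
  · rintro ⟨A', B'⟩ hp
    simp only [Finset.mem_product, Finset.mem_powerset] at hp
    have h1 : (A' ∪ B') ∩ A = A' := by
      ext j
      simp only [Finset.mem_inter, Finset.mem_union]
      constructor
      · rintro ⟨h | h, hA⟩
        · exact h
        · exact absurd (hp.2 h) (Finset.disjoint_left.mp hAB hA)
      · intro h
        exact ⟨Or.inl h, hp.1 h⟩
    have h2 : (A' ∪ B') ∩ B = B' := by
      ext j
      simp only [Finset.mem_inter, Finset.mem_union]
      constructor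
      · rintro ⟨h | h, hB⟩
        · exact absurd hB (Finset.disjoint_left.mp hAB (hp.1 h))
        · exact h
      · intro h
        exact ⟨Or.inr h, hp.2 h⟩
    simp only [h1, h2]
  · intro S' hS'
    rw [Finset.mem_powerset] at hS'
    rw [← Finset.inter_union_distrib_left, Finset.inter_eq_left.mpr hS']

/-- P4c -/
theorem Phi_mul (W : J → Submodule ℂ (Fin N → ℂ)) (A B : Finset J) (hAB : Disjoint A B)
    (htop : VS W A ⊔ VS W B = ⊤) : Phi W (A ∪ B) = Phi W A * Phi W B := by
  obtain ⟨k, hk⟩ : ∃ k, k = A.card + B.card := ⟨_, rfl⟩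
  induction k using Nat.strong_induction_on generalizing A B with
  | _ k ih =>
    rcases Nat.eq_zero_or_pos k with h0 | hpos
    · have hA : A = ∅ := Finset.card_eq_zero.mp (by omega)
      have hB : B = ∅ := Finset.card_eq_zero.mp (by omega)
      subst hA hB
      rw [Finset.union_idempotent, Phi_empty, mul_one]
    set D := Phi W (A ∪ B) - Phi W A * Phi W B with hD
    have hkey : D = PowerSeries.C (gh W A A * gh W B B) * PowerSeries.X ^ (A.card + B.card) * D := by
      have h1 : Phi W (A ∪ B) = ∑ p ∈ A.powerset ×ˢ B.powerset,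
          PowerSeries.C (gh W A p.1 * gh W B p.2) * PowerSeries.X ^ (p.1.card + p.2.card) *
            Phi W (p.1 ∪ p.2) := by
        rw [Phi_rec W (A ∪ B), p4_sum A B hAB]
        refine Finset.sum_congr rfl ?_
        rintro ⟨A', B'⟩ hp
        simp only [Finset.mem_product, Finset.mem_powerset] at hp
        simp only
        rw [gh_mul W A B A' B' hAB htop hp.1 hp.2, Finset.card_union_of_disjoint
          (Finset.disjoint_of_subset_left hp.1 (Finset.disjoint_of_subset_right hp.2 hAB))]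
      have h2 : Phi W A * Phi W B = ∑ p ∈ A.powerset ×ˢ B.powerset,
          PowerSeries.C (gh W A p.1 * gh W B p.2) * PowerSeries.X ^ (p.1.card + p.2.card) *
            (Phi W p.1 * Phi W p.2) := by
        conv_lhs => rw [Phi_rec W A, Phi_rec W B]
        rw [Finset.sum_mul_sum, ← Finset.sum_product']
        refine Finset.sum_congr rfl ?_
        rintro ⟨A', B'⟩ _
        simp only
        rw [map_mul, pow_add]
        ring
      conv_lhs => rw [hD, h1, h2, ← Finset.sum_sub_distrib]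
      rw [Finset.sum_eq_single (A, B)]
      · simp only
        rw [← mul_sub]
      · rintro ⟨A', B'⟩ hp hne
        simp only [Finset.mem_product, Finset.mem_powerset] at hp
        simp only
        have hcard : A'.card + B'.card < k := by
          have h3 := Finset.card_le_card hp.1
          have h4 := Finset.card_le_card hp.2
          by_contra hcon
          have h5 : A' = A := Finset.eq_of_subset_of_card_le hp.1 (by omega)
          have h6 : B' = B := Finset.eq_of_subset_of_card_le hp.2 (by omega)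
          exact hne (by rw [h5, h6])
        have htop' : VS W A' ⊔ VS W B' = ⊤ := by
          rw [eq_top_iff, ← htop]
          exact sup_le_sup (p4_VS_anti W hp.1) (p4_VS_anti W hp.2)
        rw [ih _ hcard A' B' (Finset.disjoint_of_subset_left hp.1
          (Finset.disjoint_of_subset_right hp.2 hAB)) htop' rfl, sub_self]
      · intro hn
        exact absurd (Finset.mem_product.mpr ⟨Finset.mem_powerset_self A,
          Finset.mem_powerset_self B⟩) hn
    have hunit : IsUnit (1 - PowerSeries.C (gh W A A * gh W B B) *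
        PowerSeries.X ^ (A.card + B.card) : PowerSeries MC) := by
      rw [PowerSeries.isUnit_iff_constantCoeff, map_sub, map_mul, map_pow,
        PowerSeries.constantCoeff_X, zero_pow (by omega), mul_zero, map_one, sub_zero]
      exact isUnit_one
    have h0 : (1 - PowerSeries.C (gh W A A * gh W B B) * PowerSeries.X ^ (A.card + B.card)) * D = 0 := by
      rw [sub_mul, one_mul, ← hkey, sub_self]
    have hD0 : D = 0 := (hunit.mul_right_eq_zero).mp h0
    exact sub_eq_zero.mp hD0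

end MotMono
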