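import Pool.Agent.Lib.MP_4e5fcd_ag.Basic

open MvPolynomial

namespace MotMono

/-- a vector of `V` which is in none of finitely many subspaces not containing `V` -/
private theorem q0_avoid {E ι : Type} [AddCommGroup E] [Module ℂ E] [Finite ι]
    (V : Submodule ℂ E) (p : ι → Submodule ℂ E) (h : ∀ i, ¬ V ≤ p i) :
    ∃ v ∈ V, ∀ i, v ∉ p i := by
  by_contra hcon
  push Not at hcon
  have hcov : ⋃ i, ((p i).comap V.subtype : Set V) = Set.univ := by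
    ext v
    simp only [Set.mem_iUnion, SetLike.mem_coe, Submodule.mem_comap, Submodule.subtype_apply,
      Set.mem_univ, iff_true]
    exact hcon v v.2
  obtain ⟨i, hi⟩ := Subspace.exists_eq_top_of_iUnion_eq_univ hcov
  apply h i
  intro v hv
  have : (⟨v, hv⟩ : V) ∈ (p i).comap V.subtype := by rw [hi]; trivial
  exact this

variable {N : ℕ} {J : Type} [Fintype J] [DecidableEq J]

private theorem q0_mem_VS (W : J → Submodule ℂ (Fin N → ℂ)) (S : Finset J) (v : Fin N → ℂ) :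
    v ∈ VS W S ↔ ∀ j ∈ S, v ∈ W j := by
  simp [VS, Submodule.mem_iInf]

/-- Q0a -/
theorem exists_base_point (W : J → Submodule ℂ (Fin N → ℂ)) (S : Finset J)
    (hS : IsClosedSet W S) (ε : ℝ) (hε : 0 < ε) :
    ∃ p : Fin N → ℂ, ‖p‖ < ε ∧ (∀ j ∈ S, p ∈ W j) ∧ ∀ j, j ∉ S → p ∉ W j := by
  obtain ⟨v, hv, hv'⟩ := q0_avoid (ι := {j // j ∉ S}) (VS W S) (fun j => W j)
    (fun j h => j.2 (hS j h))
  have hpos : 0 < ‖v‖ + 1 := by positivity
  set c : ℂ := ((ε / (2 * (‖v‖ + 1)) : ℝ) : ℂ) with hc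
  have hc0 : c ≠ 0 := by
    rw [hc]
    exact_mod_cast (div_pos hε (by positivity)).ne'
  refine ⟨c • v, ?_, ?_, ?_⟩
  · rw [norm_smul, hc, Complex.norm_real, Real.norm_of_nonneg (by positivity)]
    have h1 : ε / (2 * (‖v‖ + 1)) * ‖v‖ ≤ ε / 2 := by
      rw [div_mul_eq_mul_div, div_le_div_iff₀ (by positivity) (by norm_num)]
      nlinarith [norm_nonneg v]
    linarith
  · intro j hj
    exact (W j).smul_mem _ ((q0_mem_VS W S v).mp hv j hj)
  · intro j hj h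
    exact hv' ⟨j, hj⟩ (((W j).smul_mem_iff hc0).mp h)

/-- Q0b -/
theorem exists_direction (W : J → Submodule ℂ (Fin N → ℂ)) (hW : ∀ j, W j ≠ ⊤) (S : Finset J)
    (hS : Indec W S) :
    ∃ x : Fin N → ℂ, (∀ j ∈ S, x ∉ W j) ∧ ∀ A B : Finset J, A.Nonempty → B.Nonempty →
      Disjoint A B → A ∪ B = S → x ∉ VS W A ⊔ VS W B := by
  let ι := {AB : Finset J × Finset J // AB.1.Nonempty ∧ AB.2.Nonempty ∧ Disjoint AB.1 AB.2 ∧
    AB.1 ∪ AB.2 = S}
  obtain ⟨v, -, hv⟩ := q0_avoid (ι := J ⊕ ι) (⊤ : Submodule ℂ (Fin N → ℂ))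
    (Sum.elim W (fun AB => VS W AB.1.1 ⊔ VS W AB.1.2)) (by
      rintro (j | ⟨⟨A, B⟩, h1, h2, h3, h4⟩) h
      · exact hW j (top_le_iff.mp h)
      · exact hS.2 A B h1 h2 h3 h4 (top_le_iff.mp h))
  refine ⟨v, fun j _ => hv (Sum.inl j), ?_⟩
  intro A B h1 h2 h3 h4
  exact hv (Sum.inr ⟨(A, B), h1, h2, h3, h4⟩)

end MotMono
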