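import Pool.Agent.Lib.MP_4e5fcd_ag.K2

open MvPolynomial

namespace MotMono

/-- the linear form `a` applied to the level `l`, as a polynomial in the jet coordinates -/
private noncomputable def q3_form {N n : ℕ} (a : Fin N → ℂ) (l : Fin n) :
    MvPolynomial (Fin N × Fin n) ℂ := ∑ i, C (a i) * X (i, l)

private theorem q3_form_eval {N n : ℕ} (a : Fin N → ℂ) (l : Fin n) (γ : Fin N × Fin n → ℂ) :
    eval γ (q3_form a l) = a ⬝ᵥ lev γ l := by
  simp [q3_form, dotProduct, lev]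

private theorem q3_linForm_eval {N : ℕ} (a v : Fin N → ℂ) : eval v (linForm a) = a ⬝ᵥ v := by
  simp [linForm, dotProduct]

private theorem q3_constr_one {N : ℕ} (a : Fin N → ℂ) (c : ℂ) :
    Constr {v : Fin N → ℂ | a ⬝ᵥ v = c} := by
  have h := constr_eq (linForm a) (C c)
  have e : {x : Fin N → ℂ | eval x (linForm a) = eval x (C c)} = {v | a ⬝ᵥ v = c} := by
    ext v
    simp [q3_linForm_eval]
  rwa [e] at h

private theorem q3_constr_ne {N : ℕ} (a : Fin N → ℂ) :
    Constr {v : Fin N → ℂ | a ⬝ᵥ v ≠ 0} := by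
  have h := (q3_constr_one a 0).compl
  have e : {v : Fin N → ℂ | a ⬝ᵥ v = 0}ᶜ = {v | a ⬝ᵥ v ≠ 0} := by
    ext v
    simp
  rwa [e] at h

private theorem q3_constr_forall {σ ι : Type} (s : Finset ι) {E : ι → Set (σ → ℂ)}
    (h : ∀ i ∈ s, Constr (E i)) : Constr {x : σ → ℂ | ∀ i ∈ s, x ∈ E i} := by
  have h1 : Constr (⋂ i : s, E i) := constr_iInter fun i => h i i.2
  have e : (⋂ i : s, E i) = {x : σ → ℂ | ∀ i ∈ s, x ∈ E i} := by
    ext x
    simp
  rwa [e] at h1

variable {N : ℕ} {J : Type} [Fintype J] [DecidableEq J]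

private theorem q3_constr_open (U : Submodule ℂ (Fin N → ℂ)) (lam : J → Fin N → ℂ) (T : Finset J) :
    Constr {v : Fin N → ℂ | v ∈ U ∧ ∀ j ∈ T, lam j ⬝ᵥ v ≠ 0} := by
  have h1 : Constr (U : Set (Fin N → ℂ)) := constr_submodule U
  have h2 : Constr {v : Fin N → ℂ | ∀ j ∈ T, v ∈ {v : Fin N → ℂ | lam j ⬝ᵥ v ≠ 0}} :=
    q3_constr_forall T fun j _ => q3_constr_ne (lam j)
  have e : (U : Set (Fin N → ℂ)) ∩ {v : Fin N → ℂ | ∀ j ∈ T, v ∈ {v : Fin N → ℂ | lam j ⬝ᵥ v ≠ 0}} =
      {v : Fin N → ℂ | v ∈ U ∧ ∀ j ∈ T, lam j ⬝ᵥ v ≠ 0} := by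
    ext v
    simp
  have := h1.inter h2
  rwa [e] at this

private theorem q3_constr_B (U : Submodule ℂ (Fin N → ℂ)) (lam : J → Fin N → ℂ) (T : Finset J)
    (j₁ : J) : Constr (Bset U lam T j₁) := by
  have h1 := (q3_constr_open U lam T).inter (q3_constr_one (lam j₁) 1)
  have e : {v : Fin N → ℂ | v ∈ U ∧ ∀ j ∈ T, lam j ⬝ᵥ v ≠ 0} ∩ {v : Fin N → ℂ | lam j₁ ⬝ᵥ v = 1} =
      Bset U lam T j₁ := by
    ext v
    simp only [Bset, Set.mem_inter_iff, Set.mem_ofPred_eq]
    tauto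
  rwa [e] at h1

private theorem q3_regFun_dot {σ : Type} [Finite σ] (E : Set (σ → ℂ)) (a : Fin N → ℂ)
    (f : Fin N → σ) : RegFun E (fun x => a ⬝ᵥ fun i => x (f i)) := by
  have h := regFun_poly E (∑ i, C (a i) * X (f i) : MvPolynomial σ ℂ)
  refine h.congr fun x _ => ?_
  simp [dotProduct]

/-- Q3a: general computation of the Euler characteristic of a set with one product equation. -/
theorem chi_levels (χ : K0 →+* ℤ) (hχ : IsEulerChar χ) (S : Finset J) (p : Fin N → ℂ)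
    (lam : J → Fin N → ℂ) (d : ℕ) (D : Fin (d + 1) → Submodule ℂ (Fin N → ℂ))
    (a : J → Fin (d + 1)) (ha : ∀ j ∈ S, a j ≠ 0) (j₁ : J) (hj₁ : j₁ ∈ S) :
    χ (cls {γ : Fin N × Fin (d + 1) → ℂ | lev γ 0 = p ∧ (∀ l : Fin (d + 1), l ≠ 0 →
      lev γ l ∈ D l) ∧ ∏ j ∈ S, lam j ⬝ᵥ lev γ (a j) = 1}) =
      (S.filter fun j => a j = a j₁).card *
        (χ (cls (Bset (D (a j₁)) lam (S.filter fun j => a j = a j₁) j₁)) *
          ∏ l ∈ (Finset.univ.erase 0).erase (a j₁),
            χ (cls {v : Fin N → ℂ | v ∈ D l ∧ ∀ j ∈ S, a j = l → lam j ⬝ᵥ v ≠ 0})) := by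
  classical
  set l₁ := a j₁ with hl₁
  have hl₁0 : l₁ ≠ 0 := ha j₁ hj₁
  set S₁ := S.filter fun j => a j = l₁ with hS₁
  have hj₁S₁ : j₁ ∈ S₁ := by simp [hS₁, hj₁, hl₁]
  have hM : 0 < S₁.card := Finset.card_pos.mpr ⟨j₁, hj₁S₁⟩
  -- the level sets
  let G : Fin (d + 1) → Set (Fin N → ℂ) := fun l =>
    if l = 0 then {p} else if l = l₁ then Bset (D l₁) lam S₁ j₁
      else {v : Fin N → ℂ | v ∈ D l ∧ ∀ j ∈ S, a j = l → lam j ⬝ᵥ v ≠ 0}
  have hGe : ∀ l, {v : Fin N → ℂ | v ∈ D l ∧ ∀ j ∈ S, a j = l → lam j ⬝ᵥ v ≠ 0} =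
      {v : Fin N → ℂ | v ∈ D l ∧ ∀ j ∈ S.filter (fun j => a j = l), lam j ⬝ᵥ v ≠ 0} := by
    intro l
    ext v
    simp [Finset.mem_filter, and_imp]
  have hG : ∀ l, Constr (G l) := by
    intro l
    simp only [G]
    split_ifs with h1 h2
    · exact constr_singleton p
    · exact q3_constr_B _ _ _ _
    · rw [hGe]
      exact q3_constr_open _ _ _
  let Y : Set (Fin N × Fin (d + 1) → ℂ) := {γ | ∀ l, (fun i => γ (i, l)) ∈ G l}
  have hY : Constr Y := constr_levels hG
  have hclsY : cls Y = ∏ l, cls (G l) := cls_levels hG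
  -- what membership in `Y` means
  have hYmem : ∀ γ : Fin N × Fin (d + 1) → ℂ, γ ∈ Y ↔ lev γ 0 = p ∧
      (∀ l : Fin (d + 1), l ≠ 0 → lev γ l ∈ D l) ∧ lam j₁ ⬝ᵥ lev γ l₁ = 1 ∧
        ∀ j ∈ S, lam j ⬝ᵥ lev γ (a j) ≠ 0 := by
    intro γ
    constructor
    · intro h
      have h0 : lev γ 0 = p := by
        have h' := h 0
        simp only [G, if_true] at h'
        exact h'
      have h1 : lev γ l₁ ∈ Bset (D l₁) lam S₁ j₁ := by
        have h' := h l₁
        simp only [G, if_neg hl₁0, if_true] at h'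
        exact h'
      refine ⟨h0, ?_, h1.2.1, ?_⟩
      · intro l hl
        by_cases hll : l = l₁
        · rw [hll]; exact h1.1
        · have := h l
          simp only [G, if_neg hl, if_neg hll] at this
          exact this.1
      · intro j hj
        by_cases hll : a j = l₁
        · rw [hll]
          exact h1.2.2 j (by simp [hS₁, hj, hll])
        · have := h (a j)
          simp only [G, if_neg (ha j hj), if_neg hll] at this
          exact this.2 j hj rfl
    · rintro ⟨h0, h1, h2, h3⟩ l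
      by_cases hl : l = 0
      · subst hl
        simp only [G, if_true]
        exact h0
      · by_cases hll : l = l₁
        · simp only [G, if_neg hl, if_pos hll]
          refine ⟨by rw [← hll]; exact h1 l hl, by rw [hll]; exact h2, ?_⟩
          intro j hj
          have hj' := Finset.mem_filter.mp hj
          have := h3 j hj'.1
          rw [hj'.2] at this
          rw [hll]
          exact this
        · simp only [G, if_neg hl, if_neg hll]
          refine ⟨h1 l hl, ?_⟩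
          intro j hj hjl
          have := h3 j hj
          rw [hjl] at this
          exact this
  -- the product
  let h : MvPolynomial (Fin N × Fin (d + 1)) ℂ := ∏ j ∈ S, q3_form (lam j) (a j)
  have hh : ∀ γ, eval γ h = ∏ j ∈ S, lam j ⬝ᵥ lev γ (a j) := by
    intro γ
    simp only [h, map_prod, q3_form_eval]
  have hh0 : ∀ γ ∈ Y, eval γ h ≠ 0 := by
    intro γ hγ
    rw [hh]
    exact Finset.prod_ne_zero_iff.mpr fun j hj => ((hYmem γ).mp hγ).2.2.2 j hj
  -- multiplication of a level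
  let mulLev : ℂ → (Fin N × Fin (d + 1) → ℂ) → (Fin N × Fin (d + 1) → ℂ) := fun u γ il =>
    if il.2 = l₁ then u * γ il else γ il
  have hlev1 : ∀ u γ, lev (mulLev u γ) l₁ = u • lev γ l₁ := by
    intro u γ
    ext i
    simp [mulLev, lev]
  have hlev2 : ∀ u γ l, l ≠ l₁ → lev (mulLev u γ) l = lev γ l := by
    intro u γ l hl
    ext i
    simp [mulLev, lev, hl]
  have hprod : ∀ u γ, ∏ j ∈ S, lam j ⬝ᵥ lev (mulLev u γ) (a j) =
      u ^ S₁.card * ∏ j ∈ S, lam j ⬝ᵥ lev γ (a j) := by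
    intro u γ
    have e1 : ∀ j ∈ S, lam j ⬝ᵥ lev (mulLev u γ) (a j) =
        (if a j = l₁ then u else 1) * (lam j ⬝ᵥ lev γ (a j)) := by
      intro j _
      by_cases hj : a j = l₁
      · rw [if_pos hj, hj, hlev1, dotProduct_smul, smul_eq_mul]
      · rw [if_neg hj, hlev2 _ _ _ hj, one_mul]
    rw [Finset.prod_congr rfl e1, Finset.prod_mul_distrib, Finset.prod_ite, Finset.prod_const,
      Finset.prod_const_one, mul_one]
  set X₀ : Set (Fin N × Fin (d + 1) → ℂ) := {γ | lev γ 0 = p ∧ (∀ l : Fin (d + 1), l ≠ 0 →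
      lev γ l ∈ D l) ∧ ∏ j ∈ S, lam j ⬝ᵥ lev γ (a j) = 1} with hX₀
  have hX₀c : Constr X₀ := by
    have h1 : Constr {γ : Fin N × Fin (d + 1) → ℂ | ∀ l, (fun i => γ (i, l)) ∈
        (if l = 0 then {p} else (D l : Set (Fin N → ℂ)))} := by
      refine constr_levels (G := fun l => if l = 0 then {p} else (D l : Set (Fin N → ℂ))) ?_
      intro l
      split_ifs
      · exact constr_singleton p
      · exact constr_submodule _
    have h2 := h1.inter (constr_eq h (C 1))
    have e : {γ : Fin N × Fin (d + 1) → ℂ | ∀ l, (fun i => γ (i, l)) ∈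
        (if l = 0 then {p} else (D l : Set (Fin N → ℂ)))} ∩ {x | eval x h = eval x (C 1)} = X₀ := by
      ext γ
      simp only [hX₀, Set.mem_inter_iff, Set.mem_ofPred_eq, hh, eval_C]
      constructor
      · rintro ⟨h3, h4⟩
        refine ⟨?_, ?_, h4⟩
        · have h' := h3 0
          rw [if_pos rfl] at h'
          exact h'
        · intro l hl
          have := h3 l
          rw [if_neg hl] at this
          exact this
      · rintro ⟨h3, h4, h5⟩
        refine ⟨?_, h5⟩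
        intro l
        by_cases hl : l = 0
        · subst hl
          rw [if_pos rfl]
          exact h3
        · rw [if_neg hl]
          exact h4 l hl
    rwa [e] at h2
  have hKc : Constr (kummerCover Y h S₁.card) := by
    have h1 : Constr {z : (Fin N × Fin (d + 1)) ⊕ Unit → ℂ | (fun i => z (Sum.inl i)) ∈ Y} :=
      hY.comp Sum.inl
    have h2 := constr_eq (X (Sum.inr ()) ^ S₁.card : MvPolynomial ((Fin N × Fin (d + 1)) ⊕ Unit) ℂ)
      (rename Sum.inl h)
    have h3 := h1.inter h2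
    have e : {z : (Fin N × Fin (d + 1)) ⊕ Unit → ℂ | (fun i => z (Sum.inl i)) ∈ Y} ∩
        {x | eval x (X (Sum.inr ()) ^ S₁.card : MvPolynomial ((Fin N × Fin (d + 1)) ⊕ Unit) ℂ) =
          eval x (rename Sum.inl h)} = kummerCover Y h S₁.card := by
      ext z
      simp only [kummerCover, Set.mem_inter_iff, Set.mem_ofPred_eq, map_pow, eval_X, eval_rename]
      rfl
    rwa [e] at h3
  have hiso : RegIso X₀ (kummerCover Y h S₁.card) := by
    have hne : ∀ γ ∈ X₀, lam j₁ ⬝ᵥ lev γ l₁ ≠ 0 := by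
      intro γ hγ
      have h1 : ∏ j ∈ S, lam j ⬝ᵥ lev γ (a j) ≠ 0 := by rw [hγ.2.2]; exact one_ne_zero
      exact Finset.prod_ne_zero_iff.mp h1 j₁ hj₁
    have hu : ∀ z ∈ kummerCover Y h S₁.card, z (Sum.inr ()) ≠ 0 := by
      intro z hz h0
      have h1 := hz.2
      rw [h0, zero_pow hM.ne'] at h1
      exact hh0 _ hz.1 h1.symm
    refine ⟨fun γ => Sum.elim (mulLev (lam j₁ ⬝ᵥ lev γ l₁)⁻¹ γ) (fun _ => (lam j₁ ⬝ᵥ lev γ l₁)⁻¹),
      fun z => mulLev (z (Sum.inr ()))⁻¹ (fun i => z (Sum.inl i)), ?_, ?_, ?_, ?_, ?_, ?_⟩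
    · have hinv : RegFun X₀ (fun γ => (lam j₁ ⬝ᵥ lev γ l₁)⁻¹) :=
        RegFun.inv (q3_regFun_dot X₀ (lam j₁) (fun i => (i, l₁))) hne
      rintro (⟨i, l⟩ | u)
      · show RegFun X₀ (fun γ => if l = l₁ then (lam j₁ ⬝ᵥ lev γ l₁)⁻¹ * γ (i, l) else γ (i, l))
        by_cases hl : l = l₁
        · simp only [if_pos hl]
          exact hinv.mul (regFun_coord _ _)
        · simp only [if_neg hl]
          exact regFun_coord _ _
      · exact hinv
    · rintro ⟨i, l⟩
      show RegFun _ (fun z : (Fin N × Fin (d + 1)) ⊕ Unit → ℂ =>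
        if l = l₁ then (z (Sum.inr ()))⁻¹ * z (Sum.inl (i, l)) else z (Sum.inl (i, l)))
      by_cases hl : l = l₁
      · simp only [if_pos hl]
        exact (RegFun.inv (regFun_coord _ _) hu).mul (regFun_coord _ _)
      · simp only [if_neg hl]
        exact regFun_coord _ _
    · intro γ hγ
      have hn := hne γ hγ
      refine ⟨?_, ?_⟩
      · show mulLev (lam j₁ ⬝ᵥ lev γ l₁)⁻¹ γ ∈ Y
        rw [hYmem]
        refine ⟨?_, ?_, ?_, ?_⟩
        · rw [hlev2 _ _ _ (Ne.symm hl₁0)]; exact hγ.1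
        · intro l hl
          by_cases hll : l = l₁
          · rw [hll, hlev1]; exact Submodule.smul_mem _ _ (hll ▸ hγ.2.1 l hl)
          · rw [hlev2 _ _ _ hll]; exact hγ.2.1 l hl
        · rw [hlev1, dotProduct_smul, smul_eq_mul, inv_mul_cancel₀ hn]
        · have h1 := hprod (lam j₁ ⬝ᵥ lev γ l₁)⁻¹ γ
          rw [hγ.2.2, mul_one] at h1
          have h2 : ∏ j ∈ S, lam j ⬝ᵥ lev (mulLev (lam j₁ ⬝ᵥ lev γ l₁)⁻¹ γ) (a j) ≠ 0 := by
            rw [h1]; exact pow_ne_zero _ (inv_ne_zero hn)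
          exact Finset.prod_ne_zero_iff.mp h2
      · show (lam j₁ ⬝ᵥ lev γ l₁)⁻¹ ^ S₁.card = eval (mulLev (lam j₁ ⬝ᵥ lev γ l₁)⁻¹ γ) h
        rw [hh, hprod, hγ.2.2, mul_one]
    · intro z hz
      have hn := hu z hz
      have hz1 := (hYmem _).mp hz.1
      refine ⟨?_, ?_, ?_⟩
      · rw [hlev2 _ _ _ (Ne.symm hl₁0)]; exact hz1.1
      · intro l hl
        by_cases hll : l = l₁
        · rw [hll, hlev1]; exact Submodule.smul_mem _ _ (hll ▸ hz1.2.1 l hl)
        · rw [hlev2 _ _ _ hll]; exact hz1.2.1 l hl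
      · rw [hprod, ← hh, ← hz.2, inv_pow, inv_mul_cancel₀ (pow_ne_zero _ hn)]
    · intro γ hγ
      have hn := hne γ hγ
      ext ⟨i, l⟩
      simp only [mulLev, Sum.elim_inl, Sum.elim_inr, inv_inv]
      split_ifs with hl
      · rw [← mul_assoc, mul_inv_cancel₀ hn, one_mul]
      · rfl
    · intro z hz
      have hn := hu z hz
      have hz1 := (hYmem _).mp hz.1
      have e1 : lam j₁ ⬝ᵥ lev (mulLev (z (Sum.inr ()))⁻¹ (fun i => z (Sum.inl i))) l₁ =
          (z (Sum.inr ()))⁻¹ := by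
        rw [hlev1, dotProduct_smul, smul_eq_mul, hz1.2.2.1, mul_one]
      ext (⟨i, l⟩ | u)
      · simp only [Sum.elim_inl, e1, inv_inv]
        simp only [mulLev]
        split_ifs with hl
        · rw [← mul_assoc, mul_inv_cancel₀ hn, one_mul]
        · rfl
      · simp only [Sum.elim_inr, e1, inv_inv]
  have hX : χ (cls X₀) = S₁.card * χ (cls Y) := by
    rw [cls_iso hX₀c hKc hiso]
    exact hχ.kummer Y hY h hh0 S₁.card hM
  rw [hX, hclsY, map_prod]
  congr 1
  rw [← Finset.mul_prod_erase Finset.univ _ (Finset.mem_univ (0 : Fin (d + 1))),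
    ← Finset.mul_prod_erase (Finset.univ.erase 0) _ (Finset.mem_erase.mpr ⟨hl₁0, Finset.mem_univ _⟩)]
  have e0 : χ (cls (G 0)) = 1 := by
    simp only [G, if_true]
    rw [cls_singleton, map_one]
  have e1 : χ (cls (G l₁)) = χ (cls (Bset (D l₁) lam S₁ j₁)) := by
    simp only [G, if_neg hl₁0, if_true]
  rw [e0, e1, one_mul]
  congr 1
  refine Finset.prod_congr rfl fun l hl => ?_
  have h1 := Finset.mem_erase.mp hl
  have h2 := Finset.mem_erase.mp h1.2
  simp only [G, if_neg h2.1, if_neg h1.1]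

/-- Q3b: scaling -/
theorem chi_cone_zero (χ : K0 →+* ℤ) (hχ : IsEulerChar χ) (U : Submodule ℂ (Fin N → ℂ))
    (lam : J → Fin N → ℂ) (T : Finset J) (hT : T.Nonempty) :
    χ (cls {v : Fin N → ℂ | v ∈ U ∧ ∀ j ∈ T, lam j ⬝ᵥ v ≠ 0}) = 0 := by
  classical
  obtain ⟨j₂, hj₂⟩ := hT
  set E : Set (Fin N → ℂ) := {v : Fin N → ℂ | v ∈ U ∧ ∀ j ∈ T, lam j ⬝ᵥ v ≠ 0} with hE
  have hEc : Constr E := q3_constr_open U lam T
  have hBc : Constr (Bset U lam T j₂) := q3_constr_B U lam T j₂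
  let Cs : Set (Unit → ℂ) := {u | u () ≠ 0}
  have hCsc : Constr Cs := by
    have := constr_ne (X () : MvPolynomial Unit ℂ)
    simpa [Cs] using this
  have hCse : Cs = Set.univ \ {fun _ => 0} := by
    ext u
    simp only [Cs, Set.mem_ofPred_eq, Set.mem_sdiff, Set.mem_univ, true_and, Set.mem_singleton_iff,
      ne_eq, not_iff_not]
    constructor
    · intro h
      ext i
      exact h
    · intro h
      rw [h]
  have hCs : χ (cls Cs) = 0 := by
    rw [hCse, cls_diff constr_univ (constr_singleton _) (Set.subset_univ _), map_sub, cls_singleton,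
      map_one]
    have : cls (Set.univ : Set (Unit → ℂ)) = LL := rfl
    rw [this, hχ.line, sub_self]
  have hiso : RegIso E (prodSet Cs (Bset U lam T j₂)) := by
    refine ⟨fun v => Sum.elim (fun _ => lam j₂ ⬝ᵥ v) ((lam j₂ ⬝ᵥ v)⁻¹ • v),
      fun z => z (Sum.inl ()) • fun i => z (Sum.inr i), ?_, ?_, ?_, ?_, ?_, ?_⟩
    · have h1 : RegFun E (fun v => lam j₂ ⬝ᵥ v) := q3_regFun_dot E (lam j₂) id
      rintro (u | i)
      · exact h1
      · exact (RegFun.inv h1 fun v hv => hv.2 j₂ hj₂).mul (regFun_coord _ _)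
    · intro i
      exact (regFun_coord _ _).mul (regFun_coord _ _)
    · intro v hv
      have hn := hv.2 j₂ hj₂
      refine ⟨hn, ?_⟩
      show (lam j₂ ⬝ᵥ v)⁻¹ • v ∈ Bset U lam T j₂
      refine ⟨U.smul_mem _ hv.1, ?_, ?_⟩
      · rw [dotProduct_smul, smul_eq_mul, inv_mul_cancel₀ hn]
      · intro j hj
        rw [dotProduct_smul, smul_eq_mul]
        exact mul_ne_zero (inv_ne_zero hn) (hv.2 j hj)
    · intro z hz
      have h1 : z (Sum.inl ()) ≠ 0 := hz.1
      obtain ⟨h2, h3, h4⟩ := hz.2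
      refine ⟨U.smul_mem _ h2, ?_⟩
      intro j hj
      rw [dotProduct_smul, smul_eq_mul]
      exact mul_ne_zero h1 (h4 j hj)
    · intro v hv
      have hn := hv.2 j₂ hj₂
      ext i
      simp only [Sum.elim_inl, Sum.elim_inr, Pi.smul_apply, smul_eq_mul]
      rw [← mul_assoc, mul_inv_cancel₀ hn, one_mul]
    · intro z hz
      have h1 : z (Sum.inl ()) ≠ 0 := hz.1
      obtain ⟨h2, h3, h4⟩ := hz.2
      have e1 : lam j₂ ⬝ᵥ (z (Sum.inl ()) • fun i => z (Sum.inr i)) = z (Sum.inl ()) := by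
        rw [dotProduct_smul, smul_eq_mul, h3, mul_one]
      ext (u | i)
      · simp only [Sum.elim_inl, e1]
      · simp only [Sum.elim_inr, e1, Pi.smul_apply, smul_eq_mul]
        rw [← mul_assoc, inv_mul_cancel₀ h1, one_mul]
  rw [cls_iso hEc (hCsc.prodSet hBc) hiso, cls_prodSet hCsc hBc, map_mul, hCs, zero_mul]

end MotMono
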