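import Pool.Agent.Lib.MP_4e5fcd_ag.Q2
import Pool.Agent.Lib.MP_4e5fcd_ag.Q3

open MvPolynomial

namespace MotMono

variable {N : ℕ} {J : Type} [Fintype J] [DecidableEq J]

/-- Q3c -/
theorem chi_Xa (χ : K0 →+* ℤ) (hχ : IsEulerChar χ) (W : J → Submodule ℂ (Fin N → ℂ))
    (S : Finset J) (p x : Fin N → ℂ) (lam : J → Fin N → ℂ) (d : ℕ) (a : J → Fin (d + 1))
    (ha : a ∈ Adm S d) (j₁ : J) (hj₁ : j₁ ∈ S) :
    χ (cls (Xa W S p x lam d a)) =
      if ∀ j ∈ S, a j = a j₁ then S.card * χ (cls (Bset (Us W S x lam) lam S j₁)) else 0 := by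
  classical
  obtain ⟨-, ha1, ha2, ha3⟩ := Finset.mem_filter.mp ha
  have hmain := chi_levels χ hχ S p lam d (fun l => Dl W S x lam (fun j => (a j : ℕ)) l) a ha2 j₁ hj₁
  have hXa : Xa W S p x lam d a = {γ : Fin N × Fin (d + 1) → ℂ | lev γ 0 = p ∧
      (∀ l : Fin (d + 1), l ≠ 0 → lev γ l ∈ Dl W S x lam (fun j => (a j : ℕ)) l) ∧
        ∏ j ∈ S, lam j ⬝ᵥ lev γ (a j) = 1} := rfl
  rw [hXa, hmain]
  by_cases hall : ∀ j ∈ S, a j = a j₁
  · rw [if_pos hall]
    have hS₁ : (S.filter fun j => a j = a j₁) = S := Finset.filter_true_of_mem hall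
    rw [hS₁]
    have hD : Dl W S x lam (fun j => (a j : ℕ)) (a j₁ : ℕ) = Us W S x lam := by
      unfold Dl Us
      have e1 : (S.filter fun j => ((a j₁ : Fin (d + 1)) : ℕ) < (a j : ℕ)) = ∅ := by
        refine Finset.filter_false_of_mem fun j hj => ?_
        rw [hall j hj]
        exact lt_irrefl _
      have e2 : (S.filter fun j => (a j : ℕ) = ((a j₁ : Fin (d + 1)) : ℕ)) = S := by
        refine Finset.filter_true_of_mem fun j hj => ?_
        rw [hall j hj]
      rw [e1, e2]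
      simp
    rw [hD]
    have hprod : ∏ l ∈ (Finset.univ.erase (0 : Fin (d + 1))).erase (a j₁),
        χ (cls {v : Fin N → ℂ | v ∈ Dl W S x lam (fun j => (a j : ℕ)) l ∧
          ∀ j ∈ S, a j = l → lam j ⬝ᵥ v ≠ 0}) = 1 := by
      refine Finset.prod_eq_one fun l hl => ?_
      have hl1 := (Finset.mem_erase.mp hl).1
      have e : {v : Fin N → ℂ | v ∈ Dl W S x lam (fun j => (a j : ℕ)) l ∧
          ∀ j ∈ S, a j = l → lam j ⬝ᵥ v ≠ 0} = (Dl W S x lam (fun j => (a j : ℕ)) l : Set _) := by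
        ext v
        simp only [Set.mem_ofPred_eq, SetLike.mem_coe, and_iff_left_iff_imp]
        intro _ j hj hjl
        exact absurd ((hall j hj).symm.trans hjl).symm hl1
      rw [e, cls_submodule, map_pow, hχ.line, one_pow]
    rw [hprod, mul_one]
  · rw [if_neg hall]
    push Not at hall
    obtain ⟨j₂, hj₂, hne⟩ := hall
    have hl : a j₂ ∈ (Finset.univ.erase (0 : Fin (d + 1))).erase (a j₁) := by
      simp [hne, ha2 j₂ hj₂]
    have h0 : χ (cls {v : Fin N → ℂ | v ∈ Dl W S x lam (fun j => (a j : ℕ)) (a j₂) ∧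
          ∀ j ∈ S, a j = a j₂ → lam j ⬝ᵥ v ≠ 0}) = 0 := by
      have h1 := chi_cone_zero χ hχ (Dl W S x lam (fun j => (a j : ℕ)) (a j₂)) lam
        (S.filter fun j => a j = a j₂) ⟨j₂, by simp [hj₂]⟩
      have e : {v : Fin N → ℂ | v ∈ Dl W S x lam (fun j => (a j : ℕ)) (a j₂) ∧
          ∀ j ∈ S, a j = a j₂ → lam j ⬝ᵥ v ≠ 0} =
          {v : Fin N → ℂ | v ∈ Dl W S x lam (fun j => (a j : ℕ)) (a j₂) ∧
            ∀ j ∈ S.filter (fun j => a j = a j₂), lam j ⬝ᵥ v ≠ 0} := by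
        ext v
        simp [Finset.mem_filter, and_imp]
      rw [e]
      exact h1
    rw [Finset.prod_eq_zero hl h0, mul_zero, mul_zero]

/-- Q4 -/
theorem chi_contact (χ : K0 →+* ℤ) (hχ : IsEulerChar χ) (W : J → Submodule ℂ (Fin N → ℂ))
    (S : Finset J) (hS : S.Nonempty)
    (p x : Fin N → ℂ) (lam : J → Fin N → ℂ)
    (hp : ∀ j ∈ S, p ∈ W j) (hp' : ∀ j, j ∉ S → p ∉ W j)
    (hlam : ∀ j ∈ S, ∀ w ∈ W j, lam j ⬝ᵥ w = 0) (hx : ∀ j ∈ S, lam j ⬝ᵥ x = 1)
    (y : ConePoint (∏ j, linIdeal (W j)) p)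
    (hy : ∀ f ∈ ∏ j, linIdeal (W j), y.φ 1 f = (curve p x f).coeff S.card) (j₁ : J) (hj₁ : j₁ ∈ S) (d : ℕ)
    (hd : 0 < d) :
    χ (cls (contactArcs (∏ j, linIdeal (W j)) p y d)) =
      if S.card ∣ d then S.card * χ (cls (Bset (Us W S x lam) lam S j₁)) else 0 := by
  classical
  have hcard : 0 < S.card := Finset.card_pos.mpr hS
  rw [contactArcs_eq W S hS p x lam hp hp' hlam hx y hy d hd,
    cls_biUnion _ (fun a _ => constr_Xa W S p x lam d a)
      (fun a ha b hb hab => Xa_disjoint W S p x lam hp hlam d a b ha hb hab), map_sum]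
  rw [Finset.sum_congr rfl fun a ha => chi_Xa χ hχ W S p x lam d a ha j₁ hj₁]
  -- a constant admissible family
  have key : ∀ a ∈ Adm S d, (∀ j ∈ S, a j = a j₁) → S.card * (a j₁ : ℕ) = d := by
    intro a ha hall
    obtain ⟨-, ha1, ha2, ha3⟩ := Finset.mem_filter.mp ha
    have e : ∑ j ∈ S, (a j : ℕ) = ∑ j ∈ S, (a j₁ : ℕ) :=
      Finset.sum_congr rfl fun j hj => by rw [hall j hj]
    rw [Finset.sum_const, smul_eq_mul] at e
    exact e.symm.trans ha3
  by_cases hdvd : S.card ∣ d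
  · rw [if_pos hdvd]
    obtain ⟨k, hk⟩ := hdvd
    have hk0 : 0 < k := by
      rcases Nat.eq_zero_or_pos k with h | h
      · rw [h, mul_zero] at hk; omega
      · exact h
    have hkd : k < d + 1 := by
      have : k ≤ S.card * k := Nat.le_mul_of_pos_left k hcard
      omega
    let a₀ : J → Fin (d + 1) := fun j => if j ∈ S then ⟨k, hkd⟩ else 0
    have ha₀ : a₀ ∈ Adm S d := by
      refine Finset.mem_filter.mpr ⟨Finset.mem_univ _, ?_, ?_, ?_⟩
      · intro j hj
        simp [a₀, hj]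
      · intro j hj
        simp only [a₀, if_pos hj, ne_eq, Fin.ext_iff, Fin.val_zero]
        omega
      · have e : ∑ j ∈ S, (a₀ j : ℕ) = ∑ j ∈ S, k :=
          Finset.sum_congr rfl fun j hj => by simp only [a₀, if_pos hj]
        rw [e, Finset.sum_const, smul_eq_mul]
        exact hk.symm
    rw [Finset.sum_eq_single_of_mem a₀ ha₀]
    · rw [if_pos]
      intro j hj
      simp only [a₀, if_pos hj, if_pos hj₁]
    · intro b hb hba
      rw [if_neg]
      intro hall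
      apply hba
      have h1 := key b hb hall
      have h2 : ((b j₁ : Fin (d + 1)) : ℕ) = k := by
        have : S.card * (b j₁ : ℕ) = S.card * k := by rw [h1, hk]
        exact Nat.eq_of_mul_eq_mul_left hcard this
      obtain ⟨-, hb1, hb2, hb3⟩ := Finset.mem_filter.mp hb
      funext j
      by_cases hj : j ∈ S
      · simp only [a₀, if_pos hj, Fin.ext_iff]
        rw [hall j hj, h2]
      · simp only [a₀, if_neg hj]
        exact hb1 j hj
  · rw [if_neg hdvd]
    refine Finset.sum_eq_zero fun a ha => ?_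
    rw [if_neg]
    intro hall
    exact hdvd ⟨_, (key a ha hall).symm⟩

end MotMono
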