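import Pool.Agent.Lib.MP_4e5fcd_ag.P5
import Pool.Agent.Lib.MP_4e5fcd_ag.Q0
import Pool.Agent.Lib.MP_4e5fcd_ag.Q4
import Pool.Agent.Lib.MP_4e5fcd_ag.H3
import Pool.Agent.Lib.MP_4e5fcd_ag.Z1

open MvPolynomial

namespace MotMono

theorem main_curve_zero {N : ℕ} (p x : Fin N → ℂ) (f : MvPolynomial (Fin N) ℂ) :
    (curve p x f).coeff 0 = eval p f := by
  rw [Polynomial.coeff_zero_eq_eval_zero]
  unfold curve
  induction f using MvPolynomial.induction_on with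
  | C a => simp
  | add f g hf hg => rw [map_add, Polynomial.eval_add, hf, hg, map_add]
  | mul_X f i hf => rw [map_mul, Polynomial.eval_mul, hf, map_mul, aeval_X, eval_X]; simp

/-- main theorem, multiplicities one -/
theorem main_one {N : ℕ} {J : Type} [Fintype J] [DecidableEq J] [Nonempty J]
    (W : J → Submodule ℂ (Fin N → ℂ)) (hW : ∀ j, W j ≠ ⊤) (s₀ : ℚ)
    (hs : IsPole (Zmot (∏ j, linIdeal (W j))) s₀) (ε : ℝ) (hε : 0 < ε) :
    ∃ p : Fin N → ℂ, ‖p‖ < ε ∧ (∀ f ∈ ∏ j, linIdeal (W j), eval p f = 0) ∧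
      ∃ y : ConePoint (∏ j, linIdeal (W j)) p, y.Nonzero ∧
        ∀ χ : K0 →+* ℤ, IsEulerChar χ →
          ∃ Z, IsZeta (fun d => χ (cls (contactArcs (∏ j, linIdeal (W j)) p y d))) Z ∧
            ZeroOrPole Z (Complex.exp (2 * Real.pi * Complex.I * s₀)) := by
  obtain ⟨S, hcl, hind, hs0⟩ := exists_indec_of_isPole W hW s₀ hs
  obtain ⟨p, hpε, hp, hp'⟩ := exists_base_point W S hcl ε hε
  obtain ⟨x, hxW, hxS⟩ := exists_direction W hW S hind
  have hne : S.Nonempty := hind.1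
  obtain ⟨j₁, hj₁⟩ := hne
  have hl : ∀ j, ∃ a : Fin N → ℂ, (∀ w ∈ W j, a ⬝ᵥ w = 0) ∧ (j ∈ S → a ⬝ᵥ x = 1) ∧
      (j ∉ S → a ⬝ᵥ p = 1) := by
    intro j
    by_cases hj : j ∈ S
    · obtain ⟨a, ha⟩ := exists_form (W j) x (hxW j hj)
      exact ⟨a, ha.1, fun _ => ha.2, fun h => absurd hj h⟩
    · obtain ⟨a, ha⟩ := exists_form (W j) p (hp' j hj)
      exact ⟨a, ha.1, fun h => absurd h hj, fun _ => ha.2⟩
  choose lam hlam1 hlam2 hlam3 using hl
  obtain ⟨y, hy⟩ := exists_conePoint (∏ j, linIdeal (W j)) p x S.card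
    (fun f hf l hl => curve_coeff_lt W S p x hp f hf l hl)
  have hpos : 0 < S.card := Finset.card_pos.mpr ⟨j₁, hj₁⟩
  refine ⟨p, hpε, ?_, y, ?_, ?_⟩
  · intro f hf
    have h0 := curve_coeff_lt W S p x hp f hf 0 hpos
    rwa [main_curve_zero] at h0
  · have hmem : ∏ j, linForm (lam j) ∈ ∏ j, linIdeal (W j) :=
      Ideal.prod_mem_prod fun j _ => mem_linIdeal_linForm (hlam1 j)
    refine ⟨_, hmem, ?_⟩
    rw [hy _ hmem, curve_prod_coeff W S p x hp lam hlam1]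
    rw [Finset.prod_congr rfl (fun j hj => hlam3 j (by simpa using hj)),
      Finset.prod_congr rfl (fun j hj => hlam2 j hj)]
    simp
  · intro χ hχ
    refine exists_zeta S.card hpos _ (chi_Bset_ne_zero χ hχ W S x lam (fun j _ => hlam1 j)
      hlam2 hxS j₁ hj₁) _ ?_ _ ?_
    · rw [hs0, ← Complex.exp_nat_mul]
      rw [Complex.exp_eq_one_iff]
      refine ⟨-(N - Module.finrank ℂ (VS W S) : ℕ), ?_⟩
      have : (S.card : ℂ) ≠ 0 := by exact_mod_cast hpos.ne'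
      push_cast
      field_simp
    · intro d hd
      exact chi_contact χ hχ W S ⟨j₁, hj₁⟩ p x lam hp hp' (fun j _ => hlam1 j)
        hlam2 y hy j₁ hj₁ d hd

end MotMono
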