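import Pool.Agent.Lib.MP_4e5fcd_ag.K2
import Pool.Agent.Lib.MP_4e5fcd_ag.A1

open MvPolynomial

namespace MotMono

variable {N : ℕ} {J : Type} [Fintype J] [DecidableEq J]

theorem constr_GS (W : J → Submodule ℂ (Fin N → ℂ)) (S S' : Finset J) : Constr (GS W S S') := by
  have h : GS W S S' = (⋂ j : {j // j ∈ S'}, (W j.1 : Set (Fin N → ℂ))) ∩
      ⋂ j : {j // j ∈ S ∧ j ∉ S'}, (W j.1 : Set (Fin N → ℂ))ᶜ := by
    ext v
    simp only [GS, Set.mem_ofPred_eq, Set.mem_inter_iff, Set.mem_iInter, Subtype.forall,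
      SetLike.mem_coe, Set.mem_compl_iff, and_imp]
  rw [h]
  exact (constr_iInter fun j => constr_submodule _).inter
    (constr_iInter fun j => (constr_submodule _).compl)

/-- the first level removed -/
def p1_tail {n : ℕ} (γ : Fin N × Fin (n + 1) → ℂ) : Fin N × Fin n → ℂ := fun p => γ (p.1, p.2.succ)

omit [Fintype J] [DecidableEq J] in
theorem p1_ordAt_succ {n : ℕ} (W : Submodule ℂ (Fin N → ℂ)) (γ : Fin N × Fin (n + 1) → ℂ) :
    (lev γ 0 ∈ W → ordAt W γ = 1 + ordAt W (p1_tail γ)) ∧ (lev γ 0 ∉ W → ordAt W γ = 0) := by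
  constructor
  · intro hv
    have hle := ordAt_le W (p1_tail γ)
    obtain ⟨h1, h2⟩ := (ordAt_eq_iff W (p1_tail γ) hle).1 rfl
    rw [ordAt_eq_iff W γ (by omega)]
    constructor
    · intro l hl hlo
      rcases l with _ | l
      · exact hv
      · exact h1 l (by omega) (by omega)
    · intro h
      have h3 := h2 (by omega)
      have h4 : lev γ ⟨1 + ordAt W (p1_tail γ), h⟩ =
          lev (p1_tail γ) ⟨ordAt W (p1_tail γ), by omega⟩ := by
        funext i
        simp only [lev, p1_tail]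
        congr 2
        apply Fin.ext
        simp only [Fin.val_succ]
        omega
      rw [h4]
      exact h3
  · intro hv
    rw [ordAt_eq_iff W γ (by omega)]
    exact ⟨fun l _ h => absurd h (by omega), fun _ => hv⟩

/-- the piece of `Eset` belonging to `S'` -/
def p1_piece (n : ℕ) (A : Set (Fin N → ℂ)) (B : Set (Fin N × Fin n → ℂ)) :
    Set (Fin N × Fin (n + 1) → ℂ) :=
  {γ | lev γ 0 ∈ A ∧ p1_tail γ ∈ B}

omit [Fintype J] [DecidableEq J] in
theorem p1_constr_piece (n : ℕ) {A : Set (Fin N → ℂ)} {B : Set (Fin N × Fin n → ℂ)}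
    (hA : Constr A) (hB : Constr B) : Constr (p1_piece n A B) := by
  have h1 := hA.comp (fun i : Fin N => ((i, 0) : Fin N × Fin (n + 1)))
  have h2 := hB.comp (fun p : Fin N × Fin n => ((p.1, p.2.succ) : Fin N × Fin (n + 1)))
  exact h1.inter h2

/-- splitting off the first level -/
def p1_equiv (N n : ℕ) : Fin N ⊕ (Fin N × Fin n) ≃ Fin N × Fin (n + 1) where
  toFun := Sum.elim (fun i => (i, 0)) (fun p => (p.1, p.2.succ))
  invFun := fun p => Fin.cases (Sum.inl p.1) (fun l => Sum.inr (p.1, l)) p.2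
  left_inv := by
    rintro (i | ⟨i, l⟩)
    · rfl
    · rfl
  right_inv := by
    rintro ⟨i, l⟩
    refine Fin.cases ?_ (fun l => ?_) l
    · rfl
    · rfl

omit [Fintype J] [DecidableEq J] in
theorem p1_cls_piece (n : ℕ) {A : Set (Fin N → ℂ)} {B : Set (Fin N × Fin n → ℂ)}
    (hA : Constr A) (hB : Constr B) : cls (p1_piece n A B) = cls A * cls B := by
  rw [← cls_prodSet hA hB]
  symm
  apply cls_iso (hA.prodSet hB) (p1_constr_piece n hA hB)
  exact RegIso.reindex (p1_equiv N n) (prodSet A B)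

theorem p1_Eset_eq (W : J → Submodule ℂ (Fin N → ℂ)) (S : Finset J) (n k : ℕ) :
    Eset W S (n + 1) k = ⋃ S' ∈ S.powerset, (if S'.card ≤ k then
      p1_piece n (GS W S S') (Eset W S' n (k - S'.card)) else ∅) := by
  classical
  have key : ∀ (γ : Fin N × Fin (n + 1) → ℂ) (S' : Finset J), S' ⊆ S → lev γ 0 ∈ GS W S S' →
      ∑ j ∈ S, ordAt (W j) γ = S'.card + ∑ j ∈ S', ordAt (W j) (p1_tail γ) := by
    intro γ S' hS' hγ
    have h1 : ∑ j ∈ S, ordAt (W j) γ = ∑ j ∈ S', ordAt (W j) γ := by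
      symm
      apply Finset.sum_subset hS'
      intro j hj hj'
      exact (p1_ordAt_succ (W j) γ).2 (hγ.2 j hj hj')
    rw [h1, Finset.card_eq_sum_ones, ← Finset.sum_add_distrib]
    exact Finset.sum_congr rfl fun j hj => (p1_ordAt_succ (W j) γ).1 (hγ.1 j hj)
  ext γ
  simp only [Set.mem_iUnion, exists_prop, Finset.mem_powerset]
  constructor
  · intro hγ
    refine ⟨S.filter fun j => lev γ 0 ∈ W j, Finset.filter_subset _ _, ?_⟩
    have hG : lev γ 0 ∈ GS W S (S.filter fun j => lev γ 0 ∈ W j) := by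
      refine ⟨fun j hj => (Finset.mem_filter.1 hj).2, fun j hj hj' h => ?_⟩
      exact hj' (Finset.mem_filter.2 ⟨hj, h⟩)
    have h1 := key γ _ (Finset.filter_subset _ _) hG
    have h2 : ∑ j ∈ S, ordAt (W j) γ = k := hγ
    have h3 : (S.filter fun j => lev γ 0 ∈ W j).card ≤ k := by omega
    rw [if_pos h3]
    refine ⟨hG, ?_⟩
    show ∑ j ∈ S.filter fun j => lev γ 0 ∈ W j, ordAt (W j) (p1_tail γ) = _
    omega
  · rintro ⟨S', hS', hγ⟩
    by_cases h3 : S'.card ≤ k
    · rw [if_pos h3] at hγ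
      have h1 := key γ S' hS' hγ.1
      have h2 : ∑ j ∈ S', ordAt (W j) (p1_tail γ) = k - S'.card := hγ.2
      show ∑ j ∈ S, ordAt (W j) γ = k
      omega
    · rw [if_neg h3] at hγ
      exact absurd hγ (Set.notMem_empty γ)

omit [DecidableEq J] in
theorem p1_Eset_zero (W : J → Submodule ℂ (Fin N → ℂ)) (S : Finset J) (k : ℕ) :
    Eset W S 0 k = if k = 0 then Set.univ else ∅ := by
  ext γ
  have h : ∑ j ∈ S, ordAt (W j) γ = 0 :=
    Finset.sum_eq_zero fun j _ => Nat.le_zero.1 (ordAt_le (W j) γ)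
  by_cases hk : k = 0
  · rw [if_pos hk]
    simp only [Eset, Set.mem_ofPred_eq, h, hk, Set.mem_univ]
  · rw [if_neg hk]
    simp only [Eset, Set.mem_ofPred_eq, h, Set.mem_empty_iff_false, iff_false]
    omega

theorem constr_Eset (W : J → Submodule ℂ (Fin N → ℂ)) (S : Finset J) (n k : ℕ) :
    Constr (Eset W S n k) := by
  induction n generalizing S k with
  | zero =>
    rw [p1_Eset_zero]
    split_ifs
    · exact constr_univ
    · exact constr_empty
  | succ n IH =>
    rw [p1_Eset_eq]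
    refine constr_biUnion _ fun S' _ => ?_
    split_ifs
    · exact p1_constr_piece n (constr_GS W S S') (IH S' _)
    · exact constr_empty

/-- P1 -/
theorem cls_Eset_zero (W : J → Submodule ℂ (Fin N → ℂ)) (S : Finset J) (k : ℕ) :
    cls (Eset W S 0 k) = if k = 0 then 1 else 0 := by
  rw [p1_Eset_zero]
  split_ifs
  · rw [cls_univ]
    simp
  · exact cls_empty

theorem cls_Eset_succ (W : J → Submodule ℂ (Fin N → ℂ)) (S : Finset J) (n k : ℕ) :
    cls (Eset W S (n + 1) k) = ∑ S' ∈ S.powerset,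
      if S'.card ≤ k then cls (GS W S S') * cls (Eset W S' n (k - S'.card)) else 0 := by
  classical
  rw [p1_Eset_eq, cls_biUnion]
  · refine Finset.sum_congr rfl fun S' _ => ?_
    split_ifs
    · exact p1_cls_piece n (constr_GS W S S') (constr_Eset W S' n _)
    · exact cls_empty
  · intro S' _
    split_ifs
    · exact p1_constr_piece n (constr_GS W S S') (constr_Eset W S' n _)
    · exact constr_empty
  · intro S' hS' S'' hS'' hne
    rw [Finset.mem_powerset] at hS' hS''
    split_ifs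
    · rw [Set.disjoint_left]
      intro γ h1 h2
      apply hne
      ext j
      constructor
      · intro hj
        by_contra hj'
        exact h2.1.2 j (hS' hj) hj' (h1.1.1 j hj)
      · intro hj
        by_contra hj'
        exact h1.1.2 j (hS'' hj) hj' (h2.1.1 j hj)
    · exact Set.disjoint_empty _
    · exact Set.empty_disjoint _
    · exact Set.empty_disjoint _

end MotMono
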