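import Pool.Agent.Lib.MP_4e5fcd_ag.P1
import Pool.Agent.Lib.MP_4e5fcd_ag.A2

open MvPolynomial

namespace MotMono

variable {N : ℕ} {J : Type} [Fintype J] [DecidableEq J]

private theorem p2_detect (W : J → Submodule ℂ (Fin N → ℂ)) {n : ℕ} (γ : Fin N × Fin n → ℂ)
    (hn : ∀ j, ordAt (W j) γ < n) :
    ∃ f ∈ ∏ j, linIdeal (W j), (along f γ).coeff (∑ j, ordAt (W j) γ) ≠ 0 := by
  have h1 : ∀ j, lev γ ⟨ordAt (W j) γ, hn j⟩ ∉ W j := fun j =>
    ((ordAt_eq_iff (W j) γ (hn j).le).mp rfl).2 (hn j)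
  choose a ha ha1 using fun j => exists_form (W j) _ (h1 j)
  refine ⟨∏ j, linForm (a j), ?_, ?_⟩
  · exact Ideal.prod_mem_prod fun j _ => mem_linIdeal_linForm (ha j)
  · rw [along_prod_coeff W γ a ha hn]
    simp [ha1]

private theorem p2_ordLocus (W : J → Submodule ℂ (Fin N → ℂ)) [Nonempty J] (k : ℕ) :
    ordLocus (∏ j, linIdeal (W j)) k =
      {γ : Fin N × Fin (k + 1) → ℂ | (∀ i, γ (i, 0) = 0) ∧ ∑ j, ordAt (W j) γ = k} := by
  ext γ
  constructor
  · rintro ⟨h0, h1, f, hf, hfk⟩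
    refine ⟨h0, ?_⟩
    have hle : ∑ j, ordAt (W j) γ ≤ k := by
      by_contra hcon
      push Not at hcon
      exact hfk (along_coeff_lt W γ f hf k hcon)
    have hn : ∀ j, ordAt (W j) γ < k + 1 := fun j => by
      have := Finset.single_le_sum (f := fun j => ordAt (W j) γ) (fun _ _ => Nat.zero_le _)
        (Finset.mem_univ j)
      omega
    obtain ⟨g, hg, hgc⟩ := p2_detect W γ hn
    by_contra hne
    exact hgc (h1 g hg _ (by omega))
  · rintro ⟨h0, h1⟩
    refine ⟨h0, fun f hf l hl => along_coeff_lt W γ f hf l (by omega), ?_⟩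
    have hn : ∀ j, ordAt (W j) γ < k + 1 := fun j => by
      have := Finset.single_le_sum (f := fun j => ordAt (W j) γ) (fun _ _ => Nat.zero_le _)
        (Finset.mem_univ j)
      omega
    obtain ⟨g, hg, hgc⟩ := p2_detect W γ hn
    exact ⟨g, hg, by rwa [h1] at hgc⟩

private theorem p2_ordAt_zero (W : Submodule ℂ (Fin N → ℂ)) {k : ℕ} (γ : Fin N × Fin (k + 1) → ℂ)
    (h0 : ∀ i, γ (i, 0) = 0) :
    ordAt W γ = ordAt W (fun p : Fin N × Fin k => γ (p.1, p.2.succ)) + 1 := by
  set γ' : Fin N × Fin k → ℂ := fun p => γ (p.1, p.2.succ) with hγ'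
  have hle := ordAt_le W γ'
  have h1 := (ordAt_eq_iff W γ' hle).mp rfl
  rw [ordAt_eq_iff W γ (by omega)]
  constructor
  · intro l hl hl2
    rcases Nat.eq_zero_or_pos l with rfl | hpos
    · have : lev γ ⟨0, hl⟩ = 0 := by
        ext i
        exact h0 i
      rw [this]
      exact W.zero_mem
    · obtain ⟨l', rfl⟩ : ∃ l', l = l' + 1 := ⟨l - 1, by omega⟩
      exact h1.1 l' (by omega) (by omega)
  · intro hl
    exact h1.2 (by omega)

private def p2_equiv (N k : ℕ) : Fin N ⊕ (Fin N × Fin k) ≃ Fin N × Fin (k + 1) where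
  toFun := Sum.elim (fun i => (i, 0)) (fun p => (p.1, p.2.succ))
  invFun := fun p => Fin.cases (Sum.inl p.1) (fun l => Sum.inr (p.1, l)) p.2
  left_inv := by
    rintro (i | ⟨i, l⟩) <;> simp
  right_inv := by
    rintro ⟨i, l⟩
    refine Fin.cases ?_ (fun l => ?_) l <;> simp

/-- P2 -/
theorem cls_ordLocus (W : J → Submodule ℂ (Fin N → ℂ)) [Nonempty J] (k : ℕ) :
    cls (ordLocus (∏ j, linIdeal (W j)) k) =
      if Fintype.card J ≤ k then cls (Eset W Finset.univ k (k - Fintype.card J)) else 0 := by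
  have hsum : ∀ γ : Fin N × Fin (k + 1) → ℂ, (∀ i, γ (i, 0) = 0) →
      ∑ j, ordAt (W j) γ = ∑ j, ordAt (W j) (fun p : Fin N × Fin k => γ (p.1, p.2.succ)) +
        Fintype.card J := by
    intro γ h0
    rw [Finset.sum_congr rfl fun j _ => p2_ordAt_zero (W j) γ h0, Finset.sum_add_distrib]
    simp
  rw [p2_ordLocus]
  split_ifs with h
  · have h1 : {γ : Fin N × Fin (k + 1) → ℂ | (∀ i, γ (i, 0) = 0) ∧ ∑ j, ordAt (W j) γ = k} =
        {y | (fun s => y (p2_equiv N k s)) ∈
          prodSet ({0} : Set (Fin N → ℂ)) (Eset W Finset.univ k (k - Fintype.card J))} := by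
      ext γ
      constructor
      · rintro ⟨h0, h1⟩
        refine ⟨?_, ?_⟩
        · change (fun i => γ (i, 0)) = 0
          ext i
          exact h0 i
        · change ∑ j, ordAt (W j) (fun p : Fin N × Fin k => γ (p.1, p.2.succ)) = _
          rw [hsum γ h0] at h1
          omega
      · rintro ⟨h0, h1⟩
        have h0' : (fun i => γ (i, 0)) = 0 := h0
        have h0'' : ∀ i, γ (i, 0) = 0 := fun i => congrFun h0' i
        have h1' : ∑ j, ordAt (W j) (fun p : Fin N × Fin k => γ (p.1, p.2.succ)) =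
          k - Fintype.card J := h1
        refine ⟨h0'', ?_⟩
        rw [hsum γ h0'']
        omega
    have hc : Constr (prodSet ({0} : Set (Fin N → ℂ)) (Eset W Finset.univ k
        (k - Fintype.card J))) := Constr.prodSet (constr_singleton 0) (constr_Eset W _ _ _)
    rw [h1, ← cls_iso hc (hc.comp (p2_equiv N k)) (RegIso.reindex (p2_equiv N k) _),
      cls_prodSet (constr_singleton 0) (constr_Eset W _ _ _), cls_singleton, one_mul]
  · have h1 : {γ : Fin N × Fin (k + 1) → ℂ | (∀ i, γ (i, 0) = 0) ∧ ∑ j, ordAt (W j) γ = k} = ∅ := by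
      rw [Set.eq_empty_iff_forall_notMem]
      rintro γ ⟨h0, h1⟩
      rw [hsum γ h0] at h1
      omega
    rw [h1, cls_empty]

end MotMono
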