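import Pool.Agent.Lib.MP_4e5fcd_ag.P2

open MvPolynomial

namespace MotMono

variable {N : ℕ} {J : Type} [Fintype J] [DecidableEq J]

/-- normalised class of `Eset` -/
private noncomputable def p3_eh (W : J → Submodule ℂ (Fin N → ℂ)) (S : Finset J) (n k : ℕ) : MC :=
  algebraMap K0 MC (cls (Eset W S n k)) * ((Lu ^ (-(N * n : ℤ)) : MCˣ) : MC)

private theorem p3_coeff_Phi (W : J → Submodule ℂ (Fin N → ℂ)) (S : Finset J) (k : ℕ) :
    PowerSeries.coeff k (Phi W S) = p3_eh W S (k + 1) k := by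
  unfold Phi p3_eh
  rw [PowerSeries.coeff_mk]
  push_cast
  rfl

private theorem p3_LL : algebraMap K0 MC LL = ((Lu : MCˣ) : MC) := by
  unfold Lu
  rw [IsUnit.unit_spec]

private theorem p3_eh_empty (W : J → Submodule ℂ (Fin N → ℂ)) (n k : ℕ) :
    p3_eh W ∅ n k = if k = 0 then 1 else 0 := by
  unfold p3_eh
  split_ifs with hk
  · subst hk
    have h1 : Eset W ∅ n 0 = Set.univ := by
      ext γ
      simp [Eset]
    rw [h1, cls_univ, map_pow, p3_LL, ← Units.val_pow_eq_pow_val, ← Units.val_mul,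
      ← zpow_natCast Lu, ← zpow_add]
    have : ((Fintype.card (Fin N × Fin n) : ℕ) : ℤ) + -(N * n : ℤ) = 0 := by
      rw [Fintype.card_prod, Fintype.card_fin, Fintype.card_fin]
      push_cast
      ring
    rw [this, zpow_zero, Units.val_one]
  · have h1 : Eset W ∅ n k = ∅ := by
      ext γ
      simp only [Eset, Finset.sum_empty, Set.mem_setOf_eq, Set.mem_empty_iff_false, iff_false]
      exact fun h => hk h.symm
    rw [h1, cls_empty, map_zero, zero_mul]

private theorem p3_eh_succ (W : J → Submodule ℂ (Fin N → ℂ)) (S : Finset J) (n k : ℕ) :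
    p3_eh W S (n + 1) k = ∑ S' ∈ S.powerset,
      if S'.card ≤ k then gh W S S' * p3_eh W S' n (k - S'.card) else 0 := by
  unfold p3_eh
  rw [cls_Eset_succ, map_sum, Finset.sum_mul]
  refine Finset.sum_congr rfl fun S' _ => ?_
  split_ifs with h
  · unfold gh
    have e : ((Lu ^ (-(N * ((n + 1 : ℕ) : ℤ) : ℤ)) : MCˣ) : MC) =
        ((Lu ^ (-(N : ℤ)) : MCˣ) : MC) * ((Lu ^ (-(N * n : ℤ)) : MCˣ) : MC) := by
      rw [← Units.val_mul, ← zpow_add]
      congr 2
      push_cast
      ring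
    rw [e, map_mul]
    ring
  · rw [map_zero, zero_mul]

private theorem p3_step (W : J → Submodule ℂ (Fin N → ℂ)) (k : ℕ) :
    ∀ (S : Finset J) (n : ℕ), k < n → p3_eh W S (n + 1) k = p3_eh W S n k := by
  induction k using Nat.strong_induction_on with
  | _ k ih =>
    intro S n hn
    obtain ⟨n', rfl⟩ : ∃ n', n = n' + 1 := ⟨n - 1, by omega⟩
    rw [p3_eh_succ W S (n' + 1) k, p3_eh_succ W S n' k]
    refine Finset.sum_congr rfl fun S' _ => ?_
    split_ifs with h
    · congr 1
      rcases Finset.eq_empty_or_nonempty S' with rfl | hne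
      · rw [p3_eh_empty, p3_eh_empty]
      · have hc := Finset.card_pos.mpr hne
        exact ih (k - S'.card) (by omega) S' n' (by omega)
    · rfl

private theorem p3_stab (W : J → Submodule ℂ (Fin N → ℂ)) (S : Finset J) (n k : ℕ) (h : k < n) :
    p3_eh W S n k = p3_eh W S (k + 1) k := by
  obtain ⟨d, rfl⟩ : ∃ d, n = k + 1 + d := ⟨n - (k + 1), by omega⟩
  clear h
  induction d with
  | zero => rfl
  | succ d ih =>
    rw [← add_assoc, p3_step W k S (k + 1 + d) (by omega), ih]

private theorem p3_stab' (W : J → Submodule ℂ (Fin N → ℂ)) (S' : Finset J) (k : ℕ)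
    (h : S'.card ≤ k) :
    p3_eh W S' k (k - S'.card) = p3_eh W S' (k - S'.card + 1) (k - S'.card) := by
  rcases Finset.eq_empty_or_nonempty S' with rfl | hne
  · rw [p3_eh_empty, p3_eh_empty]
  · have hc := Finset.card_pos.mpr hne
    exact p3_stab W S' k _ (by omega)

/-- P3 -/
theorem Phi_empty (W : J → Submodule ℂ (Fin N → ℂ)) : Phi W ∅ = 1 := by
  ext k
  rw [p3_coeff_Phi, p3_eh_empty, PowerSeries.coeff_one]

theorem Phi_rec (W : J → Submodule ℂ (Fin N → ℂ)) (S : Finset J) :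
    Phi W S = ∑ S' ∈ S.powerset,
      PowerSeries.C (gh W S S') * PowerSeries.X ^ S'.card * Phi W S' := by
  ext k
  rw [p3_coeff_Phi, p3_eh_succ, map_sum]
  refine Finset.sum_congr rfl fun S' _ => ?_
  rw [mul_assoc, PowerSeries.coeff_C_mul, PowerSeries.coeff_X_pow_mul']
  split_ifs with h
  · rw [p3_coeff_Phi, p3_stab' W S' k h]
  · rw [mul_zero]

theorem Zmot_eq (W : J → Submodule ℂ (Fin N → ℂ)) [Nonempty J] :
    Zmot (∏ j, linIdeal (W j)) =
      PowerSeries.C ((Lu ^ (-(N : ℤ)) : MCˣ) : MC) * PowerSeries.X ^ Fintype.card J *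
        Phi W Finset.univ := by
  ext k
  rw [mul_assoc, PowerSeries.coeff_C_mul, PowerSeries.coeff_X_pow_mul']
  unfold Zmot
  rw [PowerSeries.coeff_mk, cls_ordLocus]
  split_ifs with h
  · rw [p3_coeff_Phi]
    have h1 : (Finset.univ : Finset J).card ≤ k := by rwa [Finset.card_univ]
    have h2 := p3_stab' W Finset.univ k h1
    rw [Finset.card_univ] at h2
    rw [← h2]
    unfold p3_eh
    have e : ((Lu ^ (-(N * (k + 1) : ℤ)) : MCˣ) : MC) =
        ((Lu ^ (-(N : ℤ)) : MCˣ) : MC) * ((Lu ^ (-(N * k : ℤ)) : MCˣ) : MC) := by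
      rw [← Units.val_mul, ← zpow_add]
      congr 2
      ring
    rw [e]
    ring
  · rw [map_zero, zero_mul, mul_zero]

end MotMono
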