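import Pool.Agent.Lib.MP_4e5fcd_ag.P4

open MvPolynomial

namespace MotMono

variable {N : ℕ} {J : Type} [Fintype J] [DecidableEq J]

theorem p5_VS_mono (W : J → Submodule ℂ (Fin N → ℂ)) {A S : Finset J} (h : A ⊆ S) :
    VS W S ≤ VS W A := by
  unfold VS
  exact biInf_mono fun j hj => h hj

theorem p5_VS_le (W : J → Submodule ℂ (Fin N → ℂ)) {A : Finset J} {j : J} (h : j ∈ A) :
    VS W A ≤ W j := by
  unfold VS
  exact iInf₂_le j h

theorem p5_mem_VS (W : J → Submodule ℂ (Fin N → ℂ)) {A : Finset J} {v : Fin N → ℂ}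
    (h : ∀ j ∈ A, v ∈ W j) : v ∈ VS W A := by
  unfold VS
  rw [Submodule.mem_iInf]
  intro j
  rw [Submodule.mem_iInf]
  exact h j

theorem p5_closed_left (W : J → Submodule ℂ (Fin N → ℂ)) (hW : ∀ j, W j ≠ ⊤) {A B S : Finset J}
    (hS : IsClosedSet W S) (hABS : A ∪ B = S) (htop : VS W A ⊔ VS W B = ⊤) :
    IsClosedSet W A := by
  intro j hj
  have h1 : j ∈ S := hS j ((p5_VS_mono W (hABS ▸ Finset.subset_union_left)).trans hj)
  rw [← hABS, Finset.mem_union] at h1
  rcases h1 with h1 | h1
  · exact h1
  · exfalso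
    apply hW j
    rw [eq_top_iff, ← htop]
    exact sup_le hj (p5_VS_le W h1)

theorem p5_gh_zero (W : J → Submodule ℂ (Fin N → ℂ)) {S S' : Finset J}
    (hS : IsClosedSet W S) (hsub : S' ⊆ S) (hn : ¬ IsClosedSet W S') : gh W S S' = 0 := by
  unfold IsClosedSet at hn
  push Not at hn
  obtain ⟨j, hj1, hj2⟩ := hn
  have hjS : j ∈ S := hS j ((p5_VS_mono W hsub).trans hj1)
  have h0 : GS W S S' = ∅ := by
    rw [Set.eq_empty_iff_forall_notMem]
    rintro v ⟨h1, h2⟩
    exact h2 j hjS hj2 (hj1 (p5_mem_VS W h1))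
  rw [gh, h0, cls_empty, map_zero, zero_mul]

/-- P5 -/
theorem Phi_mem (W : J → Submodule ℂ (Fin N → ℂ)) (hW : ∀ j, W j ≠ ⊤)
    (R : Subring (PowerSeries MC))
    (hC : ∀ c : MC, PowerSeries.C c ∈ R) (hX : PowerSeries.X ∈ R)
    (hR : ∀ S : Finset J, IsClosedSet W S → Indec W S → ∀ g : PowerSeries MC,
      g * (1 - PowerSeries.C ((Lu ^ (-((N - Module.finrank ℂ (VS W S) : ℕ) : ℤ)) : MCˣ) : MC) *
        PowerSeries.X ^ S.card) = 1 → g ∈ R)
    (S : Finset J) (hS : IsClosedSet W S) : Phi W S ∈ R := by
  induction S using Finset.strongInduction with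
  | H S ih =>
    rcases S.eq_empty_or_nonempty with h0 | hne
    · rw [h0, Phi_empty]
      exact R.one_mem
    by_cases hI : Indec W S
    · -- indecomposable
      have hrec := Phi_rec W S
      rw [← Finset.insert_erase (Finset.mem_powerset_self S),
        Finset.sum_insert (Finset.notMem_erase _ _)] at hrec
      set rest : PowerSeries MC := ∑ S' ∈ S.powerset.erase S,
        PowerSeries.C (gh W S S') * PowerSeries.X ^ S'.card * Phi W S' with hrest
      have hrestR : rest ∈ R := by
        refine R.sum_mem fun S' hS' => ?_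
        rw [Finset.mem_erase, Finset.mem_powerset] at hS'
        by_cases hc : IsClosedSet W S'
        · refine R.mul_mem (R.mul_mem (hC _) (R.pow_mem hX _)) (ih S' ?_ hc)
          exact Finset.ssubset_iff_subset_ne.2 ⟨hS'.2, hS'.1⟩
        · rw [p5_gh_zero W hS hS'.2 hc, map_zero, zero_mul, zero_mul]
          exact R.zero_mem
      set q : PowerSeries MC := 1 - PowerSeries.C (gh W S S) * PowerSeries.X ^ S.card with hq
      have hqunit : IsUnit q := by
        rw [PowerSeries.isUnit_iff_constantCoeff]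
        have : PowerSeries.constantCoeff q = 1 := by
          rw [hq, map_sub, map_mul, map_pow, PowerSeries.constantCoeff_X,
            zero_pow (Finset.card_pos.2 hne).ne', mul_zero, map_one, sub_zero]
        rw [this]
        exact isUnit_one
      obtain ⟨g, hg⟩ := hqunit.exists_left_inv
      have hgR : g ∈ R := by
        refine hR S hS hI g ?_
        rw [← gh_self W S]
        exact hg
      have h1 : q * Phi W S = rest := by
        rw [hq, sub_mul, one_mul]
        nth_rewrite 1 [hrec]
        ring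
      have h2 : Phi W S = g * rest := by
        rw [← h1, ← mul_assoc, hg, one_mul]
      rw [h2]
      exact R.mul_mem hgR hrestR
    · -- decomposable
      unfold Indec at hI
      push Not at hI
      obtain ⟨A, B, hA, hB, hAB, hABS, htop⟩ := hI hne
      have hAc := p5_closed_left W hW hS hABS htop
      have hBc := p5_closed_left W hW hS (by rw [Finset.union_comm]; exact hABS)
        (by rw [sup_comm]; exact htop)
      have hcard : A.card + B.card = S.card := by
        rw [← hABS, Finset.card_union_of_disjoint hAB]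
      have hApos := hA.card_pos
      have hBpos := hB.card_pos
      have hAS : A ⊂ S := by
        refine Finset.ssubset_iff_subset_ne.2 ⟨hABS ▸ Finset.subset_union_left, fun h => ?_⟩
        rw [h] at hcard
        omega
      have hBS : B ⊂ S := by
        refine Finset.ssubset_iff_subset_ne.2 ⟨hABS ▸ Finset.subset_union_right, fun h => ?_⟩
        rw [h] at hcard
        omega
      rw [← hABS, Phi_mul W A B hAB htop]
      exact R.mul_mem (ih A hAS hAc) (ih B hBS hBc)

/-- P6 -/
theorem exists_indec_of_isPole (W : J → Submodule ℂ (Fin N → ℂ)) [Nonempty J]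
    (hW : ∀ j, W j ≠ ⊤) (s₀ : ℚ) (hs : IsPole (Zmot (∏ j, linIdeal (W j))) s₀) :
    ∃ S : Finset J, IsClosedSet W S ∧ Indec W S ∧
      s₀ = -((N - Module.finrank ℂ (VS W S) : ℕ) : ℚ) / S.card := by
  by_contra hcon
  push Not at hcon
  apply hs
  have hpoly : ∀ P : Polynomial MC, (P : PowerSeries MC) ∈ polarRing s₀ := fun P =>
    Subring.subset_closure (Or.inl ⟨P, rfl⟩)
  have hC : ∀ c : MC, PowerSeries.C c ∈ polarRing s₀ := by
    intro c
    have := hpoly (Polynomial.C c)
    rwa [Polynomial.coe_C] at this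
  have hX : PowerSeries.X ∈ polarRing s₀ := by
    have := hpoly Polynomial.X
    rwa [Polynomial.coe_X] at this
  have hPhi : Phi W Finset.univ ∈ polarRing s₀ := by
    refine Phi_mem W hW (polarRing s₀) hC hX ?_ Finset.univ (fun j _ => Finset.mem_univ j)
    intro S hS hI g hg
    refine Subring.subset_closure (Or.inr ⟨((N - Module.finrank ℂ (VS W S) : ℕ) : ℤ), S.card,
      Finset.card_pos.2 hI.1, ?_, hg⟩)
    have := (hcon S hS hI).symm
    simpa using this
  rw [Zmot_eq]
  exact (polarRing s₀).mul_mem ((polarRing s₀).mul_mem (hC _) ((polarRing s₀).pow_mem hX _)) hPhi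

end MotMono
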