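import Pool.Agent.Lib.MP_4e5fcd_ag.A2

open MvPolynomial

namespace MotMono

variable {N : ℕ} {J : Type} [Fintype J] [DecidableEq J]

theorem q1_curve_mul (p x : Fin N → ℂ) (f g : MvPolynomial (Fin N) ℂ) :
    curve p x (f * g) = curve p x f * curve p x g := map_mul _ _ _

theorem q1_curve_add (p x : Fin N → ℂ) (f g : MvPolynomial (Fin N) ℂ) :
    curve p x (f + g) = curve p x f + curve p x g := map_add _ _ _

theorem q1_dvd_pow (I : Ideal (MvPolynomial (Fin N) ℂ)) (p x : Fin N → ℂ) (n : ℕ)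
    (h : ∀ f ∈ I, ∀ l < n, (curve p x f).coeff l = 0) (k : ℕ) :
    ∀ c ∈ I ^ k, Polynomial.X ^ (n * k) ∣ curve p x c := by
  induction k with
  | zero => intro c _; simp
  | succ k ih =>
    intro c hc
    rw [pow_succ] at hc
    refine Submodule.mul_induction_on hc (fun a ha b hb => ?_) (fun a b ha hb => ?_)
    · rw [q1_curve_mul, Nat.mul_succ, pow_add]
      exact mul_dvd_mul (ih a ha) (Polynomial.X_pow_dvd_iff.2 (h b hb))
    · rw [q1_curve_add]
      exact dvd_add ha hb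

theorem q1_coeff_mul {F G : Polynomial ℂ} {m m' : ℕ} (hF : Polynomial.X ^ m ∣ F)
    (hG : Polynomial.X ^ m' ∣ G) : (F * G).coeff (m + m') = F.coeff m * G.coeff m' := by
  obtain ⟨u, rfl⟩ := hF
  obtain ⟨v, rfl⟩ := hG
  have e : Polynomial.X ^ m * u * (Polynomial.X ^ m' * v) =
      Polynomial.X ^ (m + m') * (u * v) := by
    rw [pow_add]; ring
  rw [e]
  have c1 := Polynomial.coeff_X_pow_mul (u * v) (m + m') 0
  have c2 := Polynomial.coeff_X_pow_mul u m 0
  have c3 := Polynomial.coeff_X_pow_mul v m' 0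
  rw [zero_add] at c1 c2 c3
  rw [c1, c2, c3, Polynomial.mul_coeff_zero]

theorem q1_coeff_zero (p x : Fin N → ℂ) (a : MvPolynomial (Fin N) ℂ) :
    (curve p x a).coeff 0 = eval p a := by
  rw [Polynomial.coeff_zero_eq_eval_zero, curve]
  have e : ∀ f : MvPolynomial (Fin N) ℂ, ((Polynomial.evalRingHom (0 : ℂ)).comp
      ((aeval (fun i => Polynomial.C (p i) + Polynomial.C (x i) * Polynomial.X) :
        MvPolynomial (Fin N) ℂ →ₐ[ℂ] Polynomial ℂ) : MvPolynomial (Fin N) ℂ →+* Polynomial ℂ)) f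
        = eval p f := by
    intro f
    congr 1
    refine MvPolynomial.ringHom_ext (fun r => ?_) (fun i => ?_)
    · simp
    · simp
  exact e a

/-- Q1 -/
theorem exists_conePoint (I : Ideal (MvPolynomial (Fin N) ℂ)) (p x : Fin N → ℂ) (n : ℕ)
    (h : ∀ f ∈ I, ∀ l < n, (curve p x f).coeff l = 0) :
    ∃ y : ConePoint I p, ∀ f ∈ I, y.φ 1 f = (curve p x f).coeff n := by
  refine ⟨⟨fun k f => (curve p x f).coeff (n * k), fun f => ?_, fun k f _ g _ => ?_,
    fun k l f hf g hg => ?_⟩, fun f _ => ?_⟩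
  · show (curve p x f).coeff (n * 0) = eval p f
    rw [Nat.mul_zero, q1_coeff_zero]
  · show (curve p x (f + g)).coeff (n * k) = _
    rw [q1_curve_add, Polynomial.coeff_add]
  · show (curve p x (f * g)).coeff (n * (k + l)) = _
    rw [q1_curve_mul, Nat.mul_add]
    exact q1_coeff_mul (q1_dvd_pow I p x n h _ _ hf) (q1_dvd_pow I p x n h _ _ hg)
  · show (curve p x f).coeff (n * 1) = _
    rw [Nat.mul_one]

/-- the curve as a jet with two levels -/
noncomputable def q1jet (p x : Fin N → ℂ) : Fin N × Fin 2 → ℂ :=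
  fun q => if q.2 = 0 then p q.1 else x q.1

theorem q1_curve_eq (p x : Fin N → ℂ) (f : MvPolynomial (Fin N) ℂ) :
    curve p x f = along f (q1jet p x) := by
  rw [curve, along]
  congr 1
  congr 1
  funext i
  rw [arc, Fin.sum_univ_two]
  simp [q1jet]

/-- Q1b -/
theorem curve_coeff_lt (W : J → Submodule ℂ (Fin N → ℂ)) (S : Finset J) (p x : Fin N → ℂ)
    (hp : ∀ j ∈ S, p ∈ W j) (f : MvPolynomial (Fin N) ℂ) (hf : f ∈ ∏ j, linIdeal (W j)) (l : ℕ)
    (hl : l < S.card) : (curve p x f).coeff l = 0 := by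
  rw [q1_curve_eq]
  refine along_coeff_lt W _ f hf l (lt_of_lt_of_le hl ?_)
  have h1 : ∀ j ∈ S, 1 ≤ ordAt (W j) (q1jet p x) := by
    intro j hj
    by_contra hc
    have h0 : ordAt (W j) (q1jet p x) = 0 := by omega
    have := ((ordAt_eq_iff (W j) (q1jet p x) (Nat.zero_le _)).1 h0).2 (by norm_num)
    apply this
    have e : lev (q1jet p x) ⟨0, by norm_num⟩ = p := by
      funext i
      simp [lev, q1jet]
    rw [e]
    exact hp j hj
  calc S.card = ∑ j ∈ S, 1 := by simp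
    _ ≤ ∑ j ∈ S, ordAt (W j) (q1jet p x) := Finset.sum_le_sum h1
    _ ≤ ∑ j, ordAt (W j) (q1jet p x) :=
        Finset.sum_le_sum_of_subset (Finset.subset_univ S)

theorem q1_curve_linForm (p x a : Fin N → ℂ) :
    curve p x (linForm a) = Polynomial.C (a ⬝ᵥ p) + Polynomial.C (a ⬝ᵥ x) * Polynomial.X := by
  rw [curve, linForm, map_sum, dotProduct, dotProduct, map_sum, map_sum, Finset.sum_mul,
    ← Finset.sum_add_distrib]
  refine Finset.sum_congr rfl (fun i _ => ?_)
  rw [map_mul, aeval_X, aeval_C, Polynomial.algebraMap_eq, map_mul, map_mul]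
  ring

/-- Q1c -/
theorem curve_prod_coeff (W : J → Submodule ℂ (Fin N → ℂ)) (S : Finset J) (p x : Fin N → ℂ)
    (hp : ∀ j ∈ S, p ∈ W j) (a : J → Fin N → ℂ) (ha : ∀ j, ∀ w ∈ W j, a j ⬝ᵥ w = 0) :
    (curve p x (∏ j, linForm (a j))).coeff S.card =
      (∏ j ∈ Sᶜ, a j ⬝ᵥ p) * ∏ j ∈ S, a j ⬝ᵥ x := by
  have e1 : curve p x (∏ j, linForm (a j)) = ∏ j, curve p x (linForm (a j)) := map_prod _ _ _
  have e2 : S.card = ∑ j : J, (if j ∈ S then 1 else 0) := by simp
  rw [e1, e2, a2_coeff_prod]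
  · rw [← Finset.prod_mul_prod_compl S, mul_comm]
    congr 1
    · refine Finset.prod_congr rfl (fun j hj => ?_)
      rw [Finset.mem_compl] at hj
      rw [if_neg hj, q1_curve_linForm]
      simp
    · refine Finset.prod_congr rfl (fun j hj => ?_)
      rw [if_pos hj, q1_curve_linForm]
      simp
  · intro j _
    by_cases hj : j ∈ S
    · rw [if_pos hj, q1_curve_linForm, ha j p (hp j hj)]
      simp
    · rw [if_neg hj]
      simp

end MotMono
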