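import Pool.Agent.Lib.MP_4e5fcd_ag.Q1
import Pool.Agent.Lib.MP_4e5fcd_ag.C1

open MvPolynomial

namespace MotMono

variable {N : ℕ} {J : Type} [Fintype J] [DecidableEq J]

theorem constr_Xa (W : J → Submodule ℂ (Fin N → ℂ)) (S : Finset J) (p x : Fin N → ℂ)
    (lam : J → Fin N → ℂ) (d : ℕ) (a : J → Fin (d + 1)) : Constr (Xa W S p x lam d a) := by
  have h1 : Constr {γ : Fin N × Fin (d + 1) → ℂ | lev γ 0 = p} := by
    have := Constr.comp (constr_singleton p) (fun i : Fin N => (i, (0 : Fin (d + 1))))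
    exact this
  have h2 : Constr (⋂ l : Fin (d + 1), {γ : Fin N × Fin (d + 1) → ℂ | l ≠ 0 →
      lev γ l ∈ Dl W S x lam (fun j => (a j : ℕ)) l}) := by
    refine constr_iInter (fun l => ?_)
    by_cases hl : l = 0
    · have : {γ : Fin N × Fin (d + 1) → ℂ | l ≠ 0 →
          lev γ l ∈ Dl W S x lam (fun j => (a j : ℕ)) l} = Set.univ := by
        ext γ; simp [hl]
      rw [this]
      exact constr_univ
    · have : {γ : Fin N × Fin (d + 1) → ℂ | l ≠ 0 →
          lev γ l ∈ Dl W S x lam (fun j => (a j : ℕ)) l} =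
          {γ : Fin N × Fin (d + 1) → ℂ | (fun i => γ ((fun i : Fin N => (i, l)) i)) ∈
            (Dl W S x lam (fun j => (a j : ℕ)) l : Set (Fin N → ℂ))} := by
        ext γ
        simp only [Set.mem_ofPred_eq, ne_eq, hl, not_false_eq_true, true_implies, SetLike.mem_coe]
        rfl
      rw [this]
      exact Constr.comp (constr_submodule _) _
  have h3 : Constr {γ : Fin N × Fin (d + 1) → ℂ | ∏ j ∈ S, lam j ⬝ᵥ lev γ (a j) = 1} := by
    have := constr_eq (∏ j ∈ S, ∑ i, C (lam j i) * X (i, a j) :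
      MvPolynomial (Fin N × Fin (d + 1)) ℂ) 1
    convert this using 1
    ext γ
    simp only [Set.mem_ofPred_eq, map_prod, map_sum, map_mul, eval_C, eval_X, map_one]
    rfl
  convert h1.inter (h2.inter h3) using 1
  ext γ
  simp only [Xa, Set.mem_ofPred_eq, Set.mem_inter_iff, Set.mem_iInter]

/-- the orders of contact of the elements of `Xa` -/
theorem q2_ordAt (W : J → Submodule ℂ (Fin N → ℂ)) (S : Finset J) (p x : Fin N → ℂ)
    (lam : J → Fin N → ℂ) (hp : ∀ j ∈ S, p ∈ W j)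
    (hlam : ∀ j ∈ S, ∀ w ∈ W j, lam j ⬝ᵥ w = 0) (d : ℕ) (a : J → Fin (d + 1))
    {γ : Fin N × Fin (d + 1) → ℂ} (hγ : γ ∈ Xa W S p x lam d a) {j : J} (hj : j ∈ S) :
    ordAt (W j) γ = a j := by
  obtain ⟨h0, h1, h2⟩ := hγ
  have ha : (a j : ℕ) < d + 1 := (a j).2
  rw [ordAt_eq_iff (W j) γ ha.le]
  constructor
  · intro l hl hla
    by_cases hl0 : l = 0
    · subst hl0
      have : lev γ ⟨0, hl⟩ = p := h0
      rw [this]
      exact hp j hj
    · have := h1 ⟨l, hl⟩ (fun hc => hl0 (congrArg Fin.val hc))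
      rw [Dl, Submodule.mem_inf, Submodule.mem_iInf] at this
      have h3 := this.1 j
      rw [Submodule.mem_iInf] at h3
      exact h3 (Finset.mem_filter.2 ⟨hj, hla⟩)
  · intro h hc
    have h3 : ∏ j ∈ S, lam j ⬝ᵥ lev γ (a j) = 0 :=
      Finset.prod_eq_zero hj (hlam j hj _ hc)
    rw [h3] at h2
    exact zero_ne_one h2

/-- Q2b -/
theorem Xa_disjoint (W : J → Submodule ℂ (Fin N → ℂ)) (S : Finset J) (p x : Fin N → ℂ)
    (lam : J → Fin N → ℂ) (hp : ∀ j ∈ S, p ∈ W j)
    (hlam : ∀ j ∈ S, ∀ w ∈ W j, lam j ⬝ᵥ w = 0) (d : ℕ) (a b : J → Fin (d + 1))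
    (ha : a ∈ Adm S d) (hb : b ∈ Adm S d) (hab : a ≠ b) :
    Disjoint (Xa W S p x lam d a) (Xa W S p x lam d b) := by
  rw [Set.disjoint_left]
  intro γ hγa hγb
  apply hab
  funext j
  by_cases hj : j ∈ S
  · have h1 := q2_ordAt W S p x lam hp hlam d a hγa hj
    have h2 := q2_ordAt W S p x lam hp hlam d b hγb hj
    exact Fin.ext (h1.symm.trans h2)
  · rw [Adm, Finset.mem_filter] at ha hb
    rw [ha.2.1 j hj, hb.2.1 j hj]

theorem q2_val_add {I : Ideal (MvPolynomial (Fin N) ℂ)} {p : Fin N → ℂ} (y : ConePoint I p)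
    (f g : MvPolynomial (Fin N) ℂ) (hf : f ∈ I) (hg : g ∈ I) :
    y.φ 1 (f + g) = y.φ 1 f + y.φ 1 g :=
  y.add 1 f (by simpa using hf) g (by simpa using hg)

theorem q2_val_mul {I : Ideal (MvPolynomial (Fin N) ℂ)} {p : Fin N → ℂ} (y : ConePoint I p)
    (r f : MvPolynomial (Fin N) ℂ) (hf : f ∈ I) :
    y.φ 1 (r * f) = eval p r * y.φ 1 f := by
  have h := y.mul 0 1 r (by simp) f (by simpa using hf)
  rw [zero_add, y.base] at h
  exact h

theorem q2_val_zero {I : Ideal (MvPolynomial (Fin N) ℂ)} {p : Fin N → ℂ} (y : ConePoint I p) :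
    y.φ 1 0 = 0 := by
  have h := q2_val_mul y 0 0 I.zero_mem
  simp only [map_zero, zero_mul] at h
  exact h

theorem q2_along_coeff_zero {n : ℕ} (γ : Fin N × Fin n → ℂ) (r : MvPolynomial (Fin N) ℂ)
    (p : Fin N → ℂ) (hn : 0 < n) (h0 : ∀ i, γ (i, ⟨0, hn⟩) = p i) :
    (along r γ).coeff 0 = eval p r := by
  rw [Polynomial.coeff_zero_eq_eval_zero, along]
  have e : ∀ f : MvPolynomial (Fin N) ℂ, ((Polynomial.evalRingHom (0 : ℂ)).comp
      ((aeval (arc γ) : MvPolynomial (Fin N) ℂ →ₐ[ℂ] Polynomial ℂ) :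
        MvPolynomial (Fin N) ℂ →+* Polynomial ℂ)) f = eval p f := by
    intro f
    congr 1
    refine MvPolynomial.ringHom_ext (fun r => ?_) (fun i => ?_)
    · simp
    · have : ((arc γ i).eval 0) = p i := by
        rw [← Polynomial.coeff_zero_eq_eval_zero, a1_arc_coeff, dif_pos hn, h0]
      simpa using this
  exact e r

/-- the set of elements of the ideal for which the contact condition holds is an ideal -/
noncomputable def q2Q {I : Ideal (MvPolynomial (Fin N) ℂ)} {p : Fin N → ℂ} (y : ConePoint I p)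
    (d : ℕ) (γ : Fin N × Fin (d + 1) → ℂ) (h0 : ∀ i, γ (i, 0) = p i) :
    Ideal (MvPolynomial (Fin N) ℂ) where
  carrier := {f | f ∈ I ∧ (∀ l < d, (along f γ).coeff l = 0) ∧
    (along f γ).coeff d = y.φ 1 f}
  zero_mem' := by
    refine ⟨I.zero_mem, fun l _ => ?_, ?_⟩
    · have : along (0 : MvPolynomial (Fin N) ℂ) γ = 0 := map_zero _
      rw [this, Polynomial.coeff_zero]
    · have : along (0 : MvPolynomial (Fin N) ℂ) γ = 0 := map_zero _
      rw [this, Polynomial.coeff_zero, q2_val_zero]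
  add_mem' := by
    rintro f g ⟨hf, hf1, hf2⟩ ⟨hg, hg1, hg2⟩
    refine ⟨I.add_mem hf hg, fun l hl => ?_, ?_⟩
    · rw [a2_along_add, Polynomial.coeff_add, hf1 l hl, hg1 l hl, add_zero]
    · rw [a2_along_add, Polynomial.coeff_add, hf2, hg2, q2_val_add y f g hf hg]
  smul_mem' := by
    rintro r f ⟨hf, hf1, hf2⟩
    have hd : Polynomial.X ^ d ∣ along f γ := Polynomial.X_pow_dvd_iff.2 hf1
    obtain ⟨u, hu⟩ := hd
    have e : along (r * f) γ = Polynomial.X ^ d * (along r γ * u) := by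
      rw [a2_along_mul, hu]; ring
    refine ⟨I.mul_mem_left r hf, fun l hl => ?_, ?_⟩
    · rw [smul_eq_mul, e]
      exact Polynomial.X_pow_dvd_iff.1 ⟨_, rfl⟩ l hl
    · have c1 := Polynomial.coeff_X_pow_mul (along r γ * u) d 0
      have c2 := Polynomial.coeff_X_pow_mul u d 0
      rw [zero_add] at c1 c2
      have e2 : (along (r * f) γ).coeff d = y.φ 1 (r * f) := by
        rw [e, c1, Polynomial.mul_coeff_zero, q2_val_mul y r f hf, ← hf2, hu, c2,
          q2_along_coeff_zero γ r p (Nat.succ_pos d) h0]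
      exact e2

theorem q2_prod_val (W : J → Submodule ℂ (Fin N → ℂ)) (S : Finset J)
    (p x : Fin N → ℂ)
    (hp : ∀ j ∈ S, p ∈ W j)
    (y : ConePoint (∏ j, linIdeal (W j)) p)
    (hy : ∀ f ∈ ∏ j, linIdeal (W j), y.φ 1 f = (curve p x f).coeff S.card)
    (a : J → Fin N → ℂ) (ha : ∀ j, ∀ w ∈ W j, a j ⬝ᵥ w = 0) :
    (∏ j, linForm (a j)) ∈ ∏ j, linIdeal (W j) ∧
      y.φ 1 (∏ j, linForm (a j)) = (∏ j ∈ Sᶜ, a j ⬝ᵥ p) * ∏ j ∈ S, a j ⬝ᵥ x := by
  have hf : (∏ j, linForm (a j)) ∈ ∏ j, linIdeal (W j) :=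
    Ideal.prod_mem_prod (fun j _ => mem_linIdeal_linForm (ha j))
  exact ⟨hf, by rw [hy _ hf, curve_prod_coeff W S p x hp a ha]⟩

/-- Q2 -/
theorem contactArcs_eq (W : J → Submodule ℂ (Fin N → ℂ)) (S : Finset J) (hS : S.Nonempty)
    (p x : Fin N → ℂ) (lam : J → Fin N → ℂ)
    (hp : ∀ j ∈ S, p ∈ W j) (hp' : ∀ j, j ∉ S → p ∉ W j)
    (hlam : ∀ j ∈ S, ∀ w ∈ W j, lam j ⬝ᵥ w = 0) (hx : ∀ j ∈ S, lam j ⬝ᵥ x = 1)
    (y : ConePoint (∏ j, linIdeal (W j)) p)
    (hy : ∀ f ∈ ∏ j, linIdeal (W j), y.φ 1 f = (curve p x f).coeff S.card) (d : ℕ) (hd : 0 < d) :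
    contactArcs (∏ j, linIdeal (W j)) p y d = ⋃ a ∈ Adm S d, Xa W S p x lam d a := by
  apply Set.Subset.antisymm
  · -- from contact arcs to the pieces
    rintro γ ⟨h0, h1⟩
    have h0' : lev γ 0 = p := funext h0
    -- the forms
    have hform : ∀ j, ∃ a : Fin N → ℂ, (∀ w ∈ W j, a ⬝ᵥ w = 0) ∧ (j ∈ S → a = lam j) ∧
        (j ∉ S → a ⬝ᵥ p = 1) := by
      intro j
      by_cases hj : j ∈ S
      · exact ⟨lam j, hlam j hj, fun _ => rfl, fun h => absurd hj h⟩
      · obtain ⟨a, ha, ha1⟩ := exists_form (W j) p (hp' j hj)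
        exact ⟨a, ha, fun h => absurd h hj, fun _ => ha1⟩
    choose af haf1 haf2 haf3 using hform
    obtain ⟨hf0, hv0⟩ := q2_prod_val W S p x hp y hy af haf1
    have hv0' : y.φ 1 (∏ j, linForm (af j)) = 1 := by
      rw [hv0, Finset.prod_eq_one, Finset.prod_eq_one, mul_one]
      · intro j hj
        rw [haf2 j hj, hx j hj]
      · intro j hj
        exact haf3 j (Finset.mem_compl.1 hj)
    have hsum_le : ∑ j, ordAt (W j) γ ≤ d := by
      by_contra hc
      push Not at hc
      have := along_coeff_lt W γ _ hf0 d hc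
      rw [(h1 _ hf0).2, hv0'] at this
      exact one_ne_zero this
    have hoj : ∀ j, ordAt (W j) γ < d + 1 := fun j =>
      Nat.lt_succ_of_le ((Finset.single_le_sum (f := fun j => ordAt (W j) γ)
        (fun _ _ => Nat.zero_le _) (Finset.mem_univ j)).trans hsum_le)
    have hnot : ∀ j, lev γ ⟨ordAt (W j) γ, hoj j⟩ ∉ W j := fun j =>
      ((ordAt_eq_iff (W j) γ (hoj j).le).1 rfl).2 (hoj j)
    have hmem : ∀ j (l : ℕ) (hl : l < d + 1), l < ordAt (W j) γ → lev γ ⟨l, hl⟩ ∈ W j :=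
      fun j => ((ordAt_eq_iff (W j) γ (hoj j).le).1 rfl).1
    have hsum_ge : d ≤ ∑ j, ordAt (W j) γ := by
      by_contra hc
      push Not at hc
      choose b hb1 hb2 using fun j => exists_form (W j) _ (hnot j)
      obtain ⟨hf, -⟩ := q2_prod_val W S p x hp y hy b hb1
      have h2 := (h1 _ hf).1 _ hc
      rw [along_prod_coeff W γ b hb1 hoj, Finset.prod_eq_one (fun j _ => hb2 j)] at h2
      exact one_ne_zero h2
    have hsum : ∑ j, ordAt (W j) γ = d := le_antisymm hsum_le hsum_ge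
    have ho0 : ∀ j, j ∉ S → ordAt (W j) γ = 0 := by
      intro j hj
      rw [ordAt_eq_iff (W j) γ (Nat.zero_le _)]
      refine ⟨fun l _ hl => absurd hl (Nat.not_lt_zero l), fun h => ?_⟩
      have : lev γ ⟨0, h⟩ = p := h0'
      rw [this]
      exact hp' j hj
    have ho1 : ∀ j ∈ S, ordAt (W j) γ ≠ 0 := by
      intro j hj hc
      have h2 := hnot j
      have e : (⟨ordAt (W j) γ, hoj j⟩ : Fin (d + 1)) = 0 := Fin.ext hc
      rw [e, h0'] at h2
      exact h2 (hp j hj)
    -- the value at `f0`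
    have hprod0 : ∏ j, af j ⬝ᵥ lev γ ⟨ordAt (W j) γ, hoj j⟩ = 1 := by
      have h2 := (h1 _ hf0).2
      rw [hv0'] at h2
      have h3 := along_prod_coeff W γ af haf1 hoj
      rw [hsum, h2] at h3
      exact h3.symm
    have hlev_notS : ∀ j, j ∉ S → lev γ ⟨ordAt (W j) γ, hoj j⟩ = p := by
      intro j hj
      have e : (⟨ordAt (W j) γ, hoj j⟩ : Fin (d + 1)) = 0 := Fin.ext (ho0 j hj)
      rw [e, h0']
    have hTw : ∀ j ∈ S, lev γ ⟨ordAt (W j) γ, hoj j⟩ ∈ Tw (W j) x (lam j) := by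
      intro j hj
      show lev γ ⟨ordAt (W j) γ, hoj j⟩ - (lam j ⬝ᵥ lev γ ⟨ordAt (W j) γ, hoj j⟩) • x ∈ W j
      refine mem_of_forms _ _ (fun b hb => ?_)
      rw [dotProduct_sub, dotProduct_smul, smul_eq_mul]
      have hb' : ∀ j', ∀ w ∈ W j', (Function.update af j b) j' ⬝ᵥ w = 0 := by
        intro j' w hw
        by_cases hjj : j' = j
        · subst hjj
          rw [Function.update_self]
          exact hb w hw
        · rw [Function.update_of_ne hjj]
          exact haf1 j' w hw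
      obtain ⟨hf1, hv1⟩ := q2_prod_val W S p x hp y hy (Function.update af j b) hb'
      have hv1' : y.φ 1 (∏ j', linForm (Function.update af j b j')) = b ⬝ᵥ x := by
        rw [hv1]
        have e1 : ∏ j' ∈ Sᶜ, Function.update af j b j' ⬝ᵥ p = 1 := by
          refine Finset.prod_eq_one (fun j' hj' => ?_)
          have hj'' := Finset.mem_compl.1 hj'
          rw [Function.update_of_ne]
          · exact haf3 j' hj''
          · rintro rfl
            exact hj'' hj
        have e2 : ∏ j' ∈ S, Function.update af j b j' ⬝ᵥ x = b ⬝ᵥ x := by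
          rw [← Finset.mul_prod_erase S _ hj, Function.update_self, Finset.prod_eq_one, mul_one]
          intro j' hj'
          rw [Finset.mem_erase] at hj'
          rw [Function.update_of_ne hj'.1, haf2 j' hj'.2, hx j' hj'.2]
        rw [e1, e2, one_mul]
      have h2 := (h1 _ hf1).2
      rw [hv1'] at h2
      have h3 := along_prod_coeff W γ (Function.update af j b) hb' hoj
      rw [hsum, h2] at h3
      rw [← Finset.mul_prod_erase Finset.univ _ (Finset.mem_univ j), Function.update_self] at h3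
      rw [← Finset.mul_prod_erase Finset.univ _ (Finset.mem_univ j)] at hprod0
      have e3 : ∏ j' ∈ Finset.univ.erase j,
          Function.update af j b j' ⬝ᵥ lev γ ⟨ordAt (W j') γ, hoj j'⟩ =
          ∏ j' ∈ Finset.univ.erase j, af j' ⬝ᵥ lev γ ⟨ordAt (W j') γ, hoj j'⟩ := by
        refine Finset.prod_congr rfl (fun j' hj' => ?_)
        rw [Function.update_of_ne (Finset.ne_of_mem_erase hj')]
      rw [e3] at h3
      rw [haf2 j hj] at hprod0
      rw [h3]
      linear_combination (-(b ⬝ᵥ lev γ ⟨ordAt (W j) γ, hoj j⟩)) * hprod0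
    rw [Set.mem_iUnion₂]
    refine ⟨fun j => ⟨ordAt (W j) γ, hoj j⟩, ?_, h0', ?_, ?_⟩
    · rw [Adm, Finset.mem_filter]
      refine ⟨Finset.mem_univ _, fun j hj => Fin.ext (ho0 j hj), fun j hj hc => ho1 j hj
        (congrArg Fin.val hc), ?_⟩
      exact (Finset.sum_subset (Finset.subset_univ S) (fun j _ hj => ho0 j hj)).trans hsum
    · intro l hl
      rw [Dl, Submodule.mem_inf, Submodule.mem_iInf, Submodule.mem_iInf]
      constructor
      · intro j
        rw [Submodule.mem_iInf]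
        intro hj
        rw [Finset.mem_filter] at hj
        exact hmem j l l.2 hj.2
      · intro j
        rw [Submodule.mem_iInf]
        intro hj
        rw [Finset.mem_filter] at hj
        have := hTw j hj.1
        have e : (⟨ordAt (W j) γ, hoj j⟩ : Fin (d + 1)) = l := Fin.ext hj.2
        rw [e] at this
        exact this
    · rw [← Finset.prod_mul_prod_compl S] at hprod0
      rw [Finset.prod_eq_one (s := Sᶜ), mul_one] at hprod0
      · rw [← hprod0]
        refine Finset.prod_congr rfl (fun j hj => ?_)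
        rw [haf2 j hj]
      · intro j hj
        have hj' := Finset.mem_compl.1 hj
        rw [hlev_notS j hj', haf3 j hj']
  · -- from the pieces to contact arcs
    intro γ hγ
    rw [Set.mem_iUnion₂] at hγ
    obtain ⟨a, ha, hγa⟩ := hγ
    have haS := ha
    rw [Adm, Finset.mem_filter] at haS
    obtain ⟨-, ha0, ha1, hasum⟩ := haS
    have hordS := fun (j : J) (hj : j ∈ S) => q2_ordAt W S p x lam hp hlam d a hγa hj
    obtain ⟨h0, h1, h2⟩ := hγa
    have hord : ∀ j, ordAt (W j) γ = a j := by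
      intro j
      by_cases hj : j ∈ S
      · exact hordS j hj
      · rw [ha0 j hj]
        show ordAt (W j) γ = 0
        rw [ordAt_eq_iff (W j) γ (Nat.zero_le _)]
        refine ⟨fun l _ hl => absurd hl (Nat.not_lt_zero l), fun h => ?_⟩
        have : lev γ ⟨0, h⟩ = p := h0
        rw [this]
        exact hp' j hj
    have hsum : ∑ j, ordAt (W j) γ = d := by
      have e1 : ∑ j, ordAt (W j) γ = ∑ j, (a j : ℕ) := Finset.sum_congr rfl (fun j _ => hord j)
      have e2 : ∑ j ∈ S, (a j : ℕ) = ∑ j, (a j : ℕ) :=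
        Finset.sum_subset (Finset.subset_univ S) (fun j _ hj => by rw [ha0 j hj]; rfl)
      exact e1.trans (e2.symm.trans hasum)
    have hlt : ∀ j, ordAt (W j) γ < d + 1 := fun j => by rw [hord j]; exact (a j).2
    have h00 : ∀ i, γ (i, 0) = p i := fun i => congrFun h0 i
    refine ⟨h00, ?_⟩
    have hle : ∏ j, linIdeal (W j) ≤ q2Q y d γ h00 := by
      refine prod_linIdeal_induction W _ (fun b hb => ?_)
      obtain ⟨hf, hv⟩ := q2_prod_val W S p x hp y hy b hb
      refine ⟨hf, fun l hl => along_coeff_lt W γ _ hf l (by rw [hsum]; exact hl), ?_⟩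
      have h3 := along_prod_coeff W γ b hb hlt
      rw [hsum] at h3
      rw [h3, hv, ← Finset.prod_mul_prod_compl S, mul_comm]
      congr 1
      · refine Finset.prod_congr rfl (fun j hj => ?_)
        have hj' := Finset.mem_compl.1 hj
        have e : (⟨ordAt (W j) γ, hlt j⟩ : Fin (d + 1)) = 0 :=
          Fin.ext ((hord j).trans (by rw [ha0 j hj']))
        rw [e, h0]
      · have e : ∀ j ∈ S, b j ⬝ᵥ lev γ ⟨ordAt (W j) γ, hlt j⟩ =
            (lam j ⬝ᵥ lev γ (a j)) * (b j ⬝ᵥ x) := by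
          intro j hj
          have e1 : (⟨ordAt (W j) γ, hlt j⟩ : Fin (d + 1)) = a j := Fin.ext (hord j)
          rw [e1]
          have h4 := h1 (a j) (ha1 j hj)
          rw [Dl, Submodule.mem_inf, Submodule.mem_iInf, Submodule.mem_iInf] at h4
          have h5 := h4.2 j
          rw [Submodule.mem_iInf] at h5
          have h6 : lev γ (a j) - (lam j ⬝ᵥ lev γ (a j)) • x ∈ W j :=
            h5 (Finset.mem_filter.2 ⟨hj, rfl⟩)
          have h7 := hb j _ h6
          rw [dotProduct_sub, dotProduct_smul, smul_eq_mul] at h7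
          linear_combination h7
        rw [Finset.prod_congr rfl e, Finset.prod_mul_distrib, h2, one_mul]
    intro f hf
    obtain ⟨_, h3, h4⟩ := hle hf
    exact ⟨h3, h4⟩

end MotMono
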